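import Mathlib
import Pool.Agent.H705R2.Weyl

/-!
Weighted exponential sums along an irrational rotation in the logarithmic scale.
-/

set_option autoImplicit false

open MeasureTheory Filter Topology Set

namespace Pool.Agent.Helper28K1.ZD

open Pool.Agent.H705R2

/-- the character -/
noncomputable def ee (x : ℝ) : ℂ := Complex.exp (2 * Real.pi * x * Complex.I)

lemma norm_ee (x : ℝ) : ‖ee x‖ = 1 := by
  unfold ee
  rw [Complex.norm_exp]
  simp

lemma continuous_ee : Continuous ee := by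
  unfold ee
  fun_prop

lemma ee_add (x y : ℝ) : ee (x + y) = ee x * ee y := by
  unfold ee
  rw [← Complex.exp_add]
  congr 1
  push_cast
  ring

lemma ee_sub_le (x y : ℝ) : ‖ee x - ee y‖ ≤ 2 * Real.pi * |x - y| := by
  have h1 : ee x - ee y = ee y * (ee (x - y) - 1) := by
    rw [mul_sub, ← ee_add]
    ring_nf
  rw [h1, norm_mul, norm_ee, one_mul]
  have h2 : ee (x - y) = Complex.exp (Complex.I * ((2 * Real.pi * (x - y) : ℝ) : ℂ)) := by
    unfold ee
    congr 1
    push_cast
    ring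
  rw [h2]
  refine (Real.norm_exp_I_mul_ofReal_sub_one_le).trans ?_
  rw [Real.norm_eq_abs, abs_mul, abs_of_pos (by positivity : (0:ℝ) < 2 * Real.pi)]

/-- the tent on `[1, B]` -/
noncomputable def tent (B t : ℝ) : ℝ := max 0 (min (t - 1) (B - t))

lemma tent_nonneg (B t : ℝ) : 0 ≤ tent B t := le_max_left _ _

lemma continuous_tent (B : ℝ) : Continuous (tent B) := by
  unfold tent
  fun_prop

lemma tent_le {B t : ℝ} (hB : 1 ≤ B) : tent B t ≤ B := by
  unfold tent
  refine max_le (by linarith) ?_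
  rcases le_total t B with h | h
  · exact (min_le_left _ _).trans (by linarith)
  · exact (min_le_right _ _).trans (by linarith)

lemma tent_eq_zero_left {B t : ℝ} (ht : t ≤ 1) : tent B t = 0 := by
  unfold tent
  exact max_eq_left ((min_le_left _ _).trans (by linarith))

lemma tent_eq_zero_right {B t : ℝ} (ht : B ≤ t) : tent B t = 0 := by
  unfold tent
  exact max_eq_left ((min_le_right _ _).trans (by linarith))

lemma tent_pos {B t : ℝ} (h1 : 1 < t) (h2 : t < B) : 0 < tent B t := by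
  unfold tent
  exact lt_max_of_lt_right (lt_min (by linarith) (by linarith))

/-- the scale -/
noncomputable def sc (l v : ℝ) : ℝ := Real.exp (l * v)

/-- the integrand -/
noncomputable def gg (B z u : ℝ) : ℂ := (tent B u : ℂ) * ee (z * u)

/-- the sampled function -/
noncomputable def ff (l z v : ℝ) : ℂ := (l * sc l v) • gg (Real.exp l) z (sc l v)

lemma continuous_ff (l z : ℝ) : Continuous (ff l z) := by
  unfold ff gg sc
  have h1 := continuous_tent (Real.exp l)
  have h2 := continuous_ee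
  fun_prop

lemma ff_zero (l z : ℝ) : ff l z 0 = 0 := by
  unfold ff gg sc
  rw [mul_zero, Real.exp_zero, tent_eq_zero_left le_rfl]
  simp

lemma ff_one (l z : ℝ) : ff l z 1 = 0 := by
  unfold ff gg sc
  rw [mul_one, tent_eq_zero_right le_rfl]
  simp

/-- the function on the circle -/
noncomputable def FF (l z : ℝ) : C(Circ, ℂ) :=
  ⟨AddCircle.liftIco 1 0 (ff l z), AddCircle.liftIco_zero_continuous
    (by rw [ff_zero, ff_one]) (continuous_ff l z).continuousOn⟩

lemma FF_coe (l z v : ℝ) : FF l z (v : Circ) = ff l z (Int.fract v) := by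
  have h1 : (v : Circ) = ((Int.fract v : ℝ) : Circ) := by
    rw [← Int.self_sub_floor, AddCircle.coe_sub]
    have h2 : (((⌊v⌋ : ℤ) : ℝ) : Circ) = 0 := by
      rw [AddCircle.coe_eq_zero_iff]; exact ⟨⌊v⌋, by simp⟩
    rw [h2, sub_zero]
  rw [h1]
  exact AddCircle.liftIco_zero_coe_apply (f := ff l z) ⟨Int.fract_nonneg v, Int.fract_lt_one v⟩

lemma integral_FF {l : ℝ} (hl : 0 < l) (z : ℝ) :
    ∫ x : Circ, FF l z x = ∫ u : ℝ, gg (Real.exp l) z u := by
  have h1 := AddCircle.intervalIntegral_preimage (1 : ℝ) 0 (FF l z)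
  rw [← h1, zero_add]
  have h2 : ∫ a in (0 : ℝ)..1, FF l z (a : Circ) = ∫ a in (0 : ℝ)..1, ff l z a := by
    refine intervalIntegral.integral_congr_ae ?_
    have h3 : ∀ᵐ x : ℝ ∂volume, x ≠ 1 := by
      rw [ae_iff]
      simp
    filter_upwards [h3] with x hx hx2
    rw [uIoc_of_le zero_le_one] at hx2
    rw [FF_coe]
    congr 1
    exact Int.fract_eq_self.2 ⟨hx2.1.le, lt_of_le_of_ne hx2.2 hx⟩
  rw [h2]
  have hder : ∀ x ∈ uIcc (0 : ℝ) 1, HasDerivAt (sc l) (l * sc l x) x := by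
    intro x _
    unfold sc
    have := ((hasDerivAt_id x).const_mul l).exp
    simp only [id, mul_one] at this
    convert this using 1
    ring
  have h4 : ∫ a in (0 : ℝ)..1, ff l z a =
      ∫ a in (0 : ℝ)..1, (l * sc l a) • ((gg (Real.exp l) z) ∘ (sc l)) a := rfl
  have hgc : Continuous (gg (Real.exp l) z) := by
    unfold gg
    have h1 := continuous_tent (Real.exp l)
    have h2 := continuous_ee
    fun_prop
  rw [h4, intervalIntegral.integral_deriv_smul_comp' hder (by unfold sc; fun_prop) hgc.continuousOn]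
  have h5 : sc l 0 = 1 := by unfold sc; simp
  have h6 : sc l 1 = Real.exp l := by unfold sc; simp
  rw [h5, h6, intervalIntegral.integral_of_le (by
    have := Real.add_one_le_exp l
    linarith)]
  refine setIntegral_eq_integral_of_forall_compl_eq_zero fun u hu => ?_
  unfold gg
  rw [mem_Ioc, not_and_or, not_lt, not_le] at hu
  rcases hu with hu | hu
  · rw [tent_eq_zero_left hu]; simp
  · rw [tent_eq_zero_right hu.le]; simp

/-- Riemann–Lebesgue -/
lemma tendsto_gg (B : ℝ) : Tendsto (fun z : ℝ => ∫ u : ℝ, gg B z u) (cocompact ℝ) (𝓝 0) := by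
  have h := Real.tendsto_integral_exp_smul_cocompact (fun u : ℝ => (tent B u : ℂ))
  have hneg : Tendsto (fun z : ℝ => -z) (cocompact ℝ) (cocompact ℝ) :=
    (Homeomorph.neg ℝ).isClosedEmbedding.tendsto_cocompact
  refine (h.comp hneg).congr fun z => ?_
  simp only [Function.comp_apply]
  congr 1
  ext u
  unfold gg ee
  rw [Circle.smul_def, smul_eq_mul, Real.fourierChar_apply, mul_comm]
  congr 2
  push_cast
  ring

/-- the mass is positive -/
lemma mass_pos {l : ℝ} (hl : 0 < l) : ∃ I : ℝ, 0 < I ∧ ∫ x : Circ, FF l 0 x = (I : ℂ) := by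
  set B := Real.exp l with hB
  have hB1 : 1 < B := by
    rw [hB]; exact Real.one_lt_exp_iff.2 hl
  refine ⟨∫ u : ℝ, tent B u, ?_, ?_⟩
  · have hsupp : HasCompactSupport (tent B) := by
      refine HasCompactSupport.intro (K := Icc 1 B) isCompact_Icc ?_
      intro x hx
      rw [mem_Icc, not_and_or, not_le, not_le] at hx
      rcases hx with hx | hx
      · exact tent_eq_zero_left hx.le
      · exact tent_eq_zero_right hx.le
    refine (integral_pos_iff_support_of_nonneg (fun u => tent_nonneg B u)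
      ((continuous_tent B).integrable_of_hasCompactSupport hsupp)).2 ?_
    have hopen : IsOpen (Function.support (tent B)) := isOpen_ne_fun (continuous_tent B) continuous_const
    refine hopen.measure_pos volume ⟨(1 + B) / 2, ?_⟩
    exact (tent_pos (by linarith) (by linarith)).ne'
  · rw [integral_FF hl]
    have : (fun u => gg B 0 u) = fun u => ((tent B u : ℝ) : ℂ) := by
      funext u
      unfold gg ee
      simp
    rw [this]
    exact integral_ofReal

/-- the sum -/
noncomputable def PhiJ (l θ z : ℝ) (J : ℕ) : ℂ :=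
  (∑ j ∈ Finset.range J, ff l z (Int.fract ((j : ℝ) * θ))) / J

lemma PhiJ_tendsto {l θ : ℝ} (hθ : addOrderOf ((θ : ℝ) : Circ) = 0) (z : ℝ) :
    Tendsto (PhiJ l θ z) atTop (𝓝 (∫ x : Circ, FF l z x)) := by
  refine (weyl hθ 0 (FF l z)).congr fun J => ?_
  unfold avg PhiJ
  congr 1
  refine Finset.sum_congr rfl fun j _ => ?_
  rw [zero_add, ← AddCircle.coe_nsmul, nsmul_eq_mul, FF_coe]

lemma ff_lipschitz {l : ℝ} (hl : 0 < l) (z z' : ℝ) {v : ℝ} (hv0 : 0 ≤ v) (hv1 : v ≤ 1) :
    ‖ff l z v - ff l z' v‖ ≤ (l * Real.exp l * Real.exp l * (2 * Real.pi * Real.exp l)) * |z - z'| := by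
  have hs : sc l v ≤ Real.exp l := by
    unfold sc
    exact Real.exp_le_exp.2 (by nlinarith)
  have hs0 : 0 < sc l v := by unfold sc; positivity
  have hB1 : 1 ≤ Real.exp l := Real.one_le_exp hl.le
  unfold ff gg
  rw [← smul_sub, ← mul_sub, norm_smul (l * sc l v), norm_mul (tent (Real.exp l) (sc l v) : ℂ),
    Complex.norm_real, Real.norm_eq_abs,
    Real.norm_eq_abs, abs_of_pos (by positivity : 0 < l * sc l v), abs_of_nonneg (tent_nonneg _ _)]
  have h1 := ee_sub_le (z * sc l v) (z' * sc l v)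
  rw [← sub_mul, abs_mul, abs_of_pos hs0] at h1
  have h2 : tent (Real.exp l) (sc l v) ≤ Real.exp l := tent_le hB1
  calc l * sc l v * (tent (Real.exp l) (sc l v) * ‖ee (z * sc l v) - ee (z' * sc l v)‖)
      ≤ l * Real.exp l * (Real.exp l * (2 * Real.pi * (|z - z'| * Real.exp l))) := by
        gcongr
        · exact mul_nonneg (tent_nonneg _ _) (norm_nonneg _)
        · refine h1.trans ?_
          gcongr
    _ = _ := by ring

lemma PhiJ_lipschitz {l θ : ℝ} (hl : 0 < l) (z z' : ℝ) (J : ℕ) :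
    ‖PhiJ l θ z J - PhiJ l θ z' J‖ ≤
      (l * Real.exp l * Real.exp l * (2 * Real.pi * Real.exp l)) * |z - z'| := by
  set C := l * Real.exp l * Real.exp l * (2 * Real.pi * Real.exp l) with hC
  have hC0 : 0 ≤ C * |z - z'| := by positivity
  rcases Nat.eq_zero_or_pos J with hJ | hJ
  · subst hJ
    unfold PhiJ
    simpa using hC0
  have hJ' : (0 : ℝ) < J := by exact_mod_cast hJ
  unfold PhiJ
  rw [← sub_div, ← Finset.sum_sub_distrib, norm_div, Complex.norm_natCast, div_le_iff₀ hJ']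
  calc ‖∑ j ∈ Finset.range J, (ff l z (Int.fract ((j : ℝ) * θ)) - ff l z' (Int.fract ((j : ℝ) * θ)))‖
      ≤ ∑ j ∈ Finset.range J, ‖ff l z (Int.fract ((j : ℝ) * θ)) - ff l z' (Int.fract ((j : ℝ) * θ))‖ :=
        norm_sum_le _ _
    _ ≤ ∑ _j ∈ Finset.range J, C * |z - z'| := by
        refine Finset.sum_le_sum fun j _ => ?_
        exact ff_lipschitz hl z z' (Int.fract_nonneg _) (Int.fract_lt_one _).le
    _ = C * |z - z'| * J := by
        rw [Finset.sum_const, Finset.card_range, nsmul_eq_mul]; ring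

/-- **Uniform decay.** -/
theorem PhiJ_small {l θ : ℝ} (hl : 0 < l) (hθ : addOrderOf ((θ : ℝ) : Circ) = 0) {η : ℝ}
    (hη : 0 < η) : ∃ Λ₀ : ℝ, 0 < Λ₀ ∧ ∀ Λ₁ : ℝ, ∃ J₀ : ℕ, ∀ J ≥ J₀, ∀ z : ℝ, Λ₀ ≤ |z| → |z| ≤ Λ₁ →
      ‖PhiJ l θ z J‖ ≤ η := by
  set C := l * Real.exp l * Real.exp l * (2 * Real.pi * Real.exp l) with hC
  have hC0 : 0 < C := by positivity
  have h1 := tendsto_gg (Real.exp l)
  have h2 : ∀ᶠ z in cocompact ℝ, ‖∫ u : ℝ, gg (Real.exp l) z u‖ < η / 3 := by
    have := (Metric.tendsto_nhds.1 h1) (η / 3) (by positivity)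
    simpa using this
  rw [← Metric.cobounded_eq_cocompact, ← comap_norm_atTop, eventually_comap,
    eventually_atTop] at h2
  obtain ⟨Λ, hΛ⟩ := h2
  refine ⟨max Λ 1, by positivity, fun Λ₁ => ?_⟩
  set K : Set ℝ := {z | max Λ 1 ≤ |z| ∧ |z| ≤ Λ₁} with hK
  have hKc : IsCompact K := by
    refine Metric.isCompact_of_isClosed_isBounded ?_ ?_
    · exact (isClosed_le continuous_const continuous_abs).inter
        (isClosed_le continuous_abs continuous_const)
    · rw [Metric.isBounded_iff_subset_closedBall 0]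
      exact ⟨Λ₁, fun z hz => by simpa using hz.2⟩
  obtain ⟨t, htK, htfin, hcov⟩ := Metric.finite_approx_of_totallyBounded hKc.totallyBounded
    (η / (3 * C)) (by positivity)
  have h3 : ∀ᶠ J in atTop, ∀ z ∈ t, ‖PhiJ l θ z J - ∫ u : ℝ, gg (Real.exp l) z u‖ < η / 3 := by
    rw [eventually_all_finite htfin]
    intro z _
    have h4 := PhiJ_tendsto (l := l) hθ z
    rw [integral_FF hl] at h4
    have := (Metric.tendsto_nhds.1 h4) (η / 3) (by positivity)
    simpa [dist_eq_norm] using this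
  obtain ⟨J₀, hJ₀⟩ := eventually_atTop.1 h3
  refine ⟨J₀, fun J hJ z hz1 hz2 => ?_⟩
  have hzK : z ∈ K := ⟨hz1, hz2⟩
  obtain ⟨z', hz't, hzz'⟩ := mem_iUnion₂.1 (hcov hzK)
  have h5 := hJ₀ J hJ z' hz't
  have h6 : ‖∫ u : ℝ, gg (Real.exp l) z' u‖ < η / 3 :=
    hΛ |z'| ((le_max_left _ _).trans (htK hz't).1) z' (by simp)
  have h7 := PhiJ_lipschitz (θ := θ) hl z z' J
  rw [Metric.mem_ball, Real.dist_eq] at hzz'
  have h8 : C * |z - z'| ≤ η / 3 := by
    have := mul_le_mul_of_nonneg_left hzz'.le hC0.le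
    refine this.trans (le_of_eq ?_)
    field_simp
  calc ‖PhiJ l θ z J‖ = ‖(PhiJ l θ z J - PhiJ l θ z' J) +
        (PhiJ l θ z' J - ∫ u : ℝ, gg (Real.exp l) z' u) + ∫ u : ℝ, gg (Real.exp l) z' u‖ := by
        congr 1; ring
    _ ≤ η / 3 + η / 3 + η / 3 := by
        refine norm_add₃_le.trans ?_
        have := h7.trans h8
        linarith
    _ = η := by ring

/-- the weights have positive mean -/
theorem mass_lower {l θ : ℝ} (hl : 0 < l) (hθ : addOrderOf ((θ : ℝ) : Circ) = 0) :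
    ∃ I : ℝ, 0 < I ∧ ∃ J₀ : ℕ, ∀ J ≥ J₀, I * J ≤ ∑ j ∈ Finset.range J,
      l * sc l (Int.fract ((j : ℝ) * θ)) * tent (Real.exp l) (sc l (Int.fract ((j : ℝ) * θ))) := by
  obtain ⟨I, hI, hI2⟩ := mass_pos hl
  have h1 := PhiJ_tendsto (l := l) hθ 0
  rw [hI2] at h1
  have h2 : ∀ᶠ J in atTop, ‖PhiJ l θ 0 J - I‖ < I / 2 := by
    have := (Metric.tendsto_nhds.1 h1) (I / 2) (by positivity)
    simpa [dist_eq_norm] using this
  obtain ⟨J₀, hJ₀⟩ := eventually_atTop.1 h2
  refine ⟨I / 2, by positivity, max J₀ 1, fun J hJ => ?_⟩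
  have hJ1 : 1 ≤ J := (le_max_right _ _).trans hJ
  have hJpos : (0 : ℝ) < J := by exact_mod_cast hJ1
  have h3 := hJ₀ J ((le_max_left _ _).trans hJ)
  have h4 : PhiJ l θ 0 J = (((∑ j ∈ Finset.range J, l * sc l (Int.fract ((j : ℝ) * θ)) *
      tent (Real.exp l) (sc l (Int.fract ((j : ℝ) * θ)))) / J : ℝ) : ℂ) := by
    unfold PhiJ ff gg ee
    push_cast
    congr 1
    refine Finset.sum_congr rfl fun j _ => ?_
    simp
  rw [h4, ← Complex.ofReal_sub, Complex.norm_real, Real.norm_eq_abs, abs_lt] at h3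
  have h5 : I / 2 ≤ (∑ j ∈ Finset.range J, l * sc l (Int.fract ((j : ℝ) * θ)) *
      tent (Real.exp l) (sc l (Int.fract ((j : ℝ) * θ)))) / J := by linarith [h3.1]
  rwa [le_div_iff₀ hJpos] at h5

end Pool.Agent.Helper28K1.ZD
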