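import Mathlib
import Pool.Agent.Helper28K1.ZD.Osc

/-!
The second moment method: many separated real numbers, multiplied by the scale factors of an
irrational rotation, become dense modulo one for a positive proportion of the times.
-/

set_option autoImplicit false

open MeasureTheory Filter Topology Set

namespace Pool.Agent.Helper28K1.ZD

open Pool.Agent.H705R2

lemma ee_neg (x : ℝ) : ee (-x) = (starRingEnd ℂ) (ee x) := by
  unfold ee
  rw [← Complex.exp_conj]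
  congr 1
  rw [map_mul, map_mul, map_mul, Complex.conj_I, Complex.conj_ofReal, Complex.conj_ofReal, map_ofNat]
  push_cast
  ring

/-- the scale factor at time `j` -/
noncomputable def tt (l θ : ℝ) (j : ℕ) : ℝ := sc l (Int.fract ((j : ℝ) * θ))

/-- the weight at time `j` -/
noncomputable def ww (l θ : ℝ) (j : ℕ) : ℝ := l * tt l θ j * tent (Real.exp l) (tt l θ j)

lemma tt_pos (l θ : ℝ) (j : ℕ) : 0 < tt l θ j := by unfold tt sc; positivity

lemma tt_le {l : ℝ} (hl : 0 < l) (θ : ℝ) (j : ℕ) : tt l θ j ≤ Real.exp l := by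
  unfold tt sc
  refine Real.exp_le_exp.2 ?_
  have := (Int.fract_lt_one ((j : ℝ) * θ)).le
  nlinarith

lemma ww_nonneg {l : ℝ} (hl : 0 < l) (θ : ℝ) (j : ℕ) : 0 ≤ ww l θ j :=
  mul_nonneg (mul_nonneg hl.le (tt_pos l θ j).le) (tent_nonneg _ _)

/-- the bound of the weights -/
noncomputable def Wm (l : ℝ) : ℝ := l * Real.exp l * Real.exp l

lemma Wm_pos {l : ℝ} (hl : 0 < l) : 0 < Wm l := by unfold Wm; positivity

lemma ww_le {l : ℝ} (hl : 0 < l) (θ : ℝ) (j : ℕ) : ww l θ j ≤ Wm l := by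
  unfold ww Wm
  have h1 := tt_le hl θ j
  have h2 := tt_pos l θ j
  have h3 : tent (Real.exp l) (tt l θ j) ≤ Real.exp l := tent_le (Real.one_le_exp hl.le)
  have h4 := tent_nonneg (Real.exp l) (tt l θ j)
  gcongr

lemma ff_eq (l θ z : ℝ) (j : ℕ) :
    ff l z (Int.fract ((j : ℝ) * θ)) = (ww l θ j : ℂ) * ee (z * tt l θ j) := by
  unfold ff gg ww tt
  rw [Complex.real_smul]
  push_cast
  ring

lemma PhiJ_le {l : ℝ} (hl : 0 < l) (θ z : ℝ) (J : ℕ) : ‖PhiJ l θ z J‖ ≤ Wm l := by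
  unfold PhiJ
  rcases Nat.eq_zero_or_pos J with hJ | hJ
  · subst hJ; simpa using (Wm_pos hl).le
  have hJ' : (0 : ℝ) < J := by exact_mod_cast hJ
  rw [norm_div, Complex.norm_natCast, div_le_iff₀ hJ']
  calc ‖∑ j ∈ Finset.range J, ff l z (Int.fract ((j : ℝ) * θ))‖
      ≤ ∑ j ∈ Finset.range J, ‖ff l z (Int.fract ((j : ℝ) * θ))‖ := norm_sum_le _ _
    _ ≤ ∑ _j ∈ Finset.range J, Wm l := by
        refine Finset.sum_le_sum fun j _ => ?_
        rw [ff_eq, norm_mul, norm_ee, mul_one, Complex.norm_real, Real.norm_eq_abs,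
          abs_of_nonneg (ww_nonneg hl θ j)]
        exact ww_le hl θ j
    _ = Wm l * J := by rw [Finset.sum_const, Finset.card_range, nsmul_eq_mul, mul_comm]

/-- **Second moment.** -/
theorem second_moment {l θ : ℝ} (hl : 0 < l) {J : ℕ} (hJ : 1 ≤ J) {S : Finset ℕ} {E : ℕ → ℝ} {a : ℤ}
    {η' : ℝ} (hη : 0 ≤ η') (h : ∀ k ∈ S, ∀ m ∈ S, k ≠ m → ‖PhiJ l θ (a * (E k - E m)) J‖ ≤ η') :
    ∑ j ∈ Finset.range J, ww l θ j * ‖∑ k ∈ S, ee (a * (tt l θ j * E k))‖ ^ 2 ≤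
      J * (Wm l * S.card + S.card ^ 2 * η') := by
  classical
  have hJ' : (J : ℂ) ≠ 0 := by exact_mod_cast (by omega : J ≠ 0)
  have h1 : ((∑ j ∈ Finset.range J, ww l θ j * ‖∑ k ∈ S, ee (a * (tt l θ j * E k))‖ ^ 2 : ℝ) : ℂ) =
      ∑ k ∈ S, ∑ m ∈ S, (J : ℂ) * PhiJ l θ (a * (E k - E m)) J := by
    have h2 : ∀ j : ℕ, ((ww l θ j * ‖∑ k ∈ S, ee (a * (tt l θ j * E k))‖ ^ 2 : ℝ) : ℂ) =
        ∑ k ∈ S, ∑ m ∈ S, ff l (a * (E k - E m)) (Int.fract ((j : ℝ) * θ)) := by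
      intro j
      push_cast
      rw [← Complex.mul_conj', map_sum, Finset.sum_mul_sum, Finset.mul_sum]
      refine Finset.sum_congr rfl fun k _ => ?_
      rw [Finset.mul_sum]
      refine Finset.sum_congr rfl fun m _ => ?_
      rw [ff_eq, ← ee_neg, ← ee_add]
      congr 2
      ring
    push_cast at h2 ⊢
    simp_rw [h2]
    rw [Finset.sum_comm]
    refine Finset.sum_congr rfl fun k _ => ?_
    rw [Finset.sum_comm]
    refine Finset.sum_congr rfl fun m _ => ?_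
    unfold PhiJ
    rw [mul_div_cancel₀ _ hJ']
  have h3 : ∑ j ∈ Finset.range J, ww l θ j * ‖∑ k ∈ S, ee (a * (tt l θ j * E k))‖ ^ 2 =
      ‖∑ k ∈ S, ∑ m ∈ S, (J : ℂ) * PhiJ l θ (a * (E k - E m)) J‖ := by
    rw [← h1, Complex.norm_real, Real.norm_eq_abs, abs_of_nonneg]
    exact Finset.sum_nonneg fun j _ => mul_nonneg (ww_nonneg hl θ j) (by positivity)
  rw [h3]
  have h4 : ∀ k ∈ S, ‖∑ m ∈ S, (J : ℂ) * PhiJ l θ (a * (E k - E m)) J‖ ≤
      J * (Wm l + S.card * η') := by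
    intro k hk
    rw [← Finset.add_sum_erase S _ hk]
    refine (norm_add_le _ _).trans ?_
    rw [norm_mul, Complex.norm_natCast]
    have h5 : ‖∑ m ∈ S.erase k, (J : ℂ) * PhiJ l θ (a * (E k - E m)) J‖ ≤ J * (S.card * η') := by
      calc ‖∑ m ∈ S.erase k, (J : ℂ) * PhiJ l θ (a * (E k - E m)) J‖
          ≤ ∑ m ∈ S.erase k, ‖(J : ℂ) * PhiJ l θ (a * (E k - E m)) J‖ := norm_sum_le _ _
        _ ≤ ∑ _m ∈ S.erase k, (J : ℝ) * η' := by
            refine Finset.sum_le_sum fun m hm => ?_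
            rw [norm_mul, Complex.norm_natCast]
            have := h k hk m (Finset.mem_of_mem_erase hm) (Finset.ne_of_mem_erase hm).symm
            gcongr
        _ = (S.erase k).card * ((J : ℝ) * η') := by rw [Finset.sum_const, nsmul_eq_mul]
        _ ≤ S.card * ((J : ℝ) * η') := by
            have : ((S.erase k).card : ℝ) ≤ S.card := by exact_mod_cast Finset.card_erase_le
            gcongr
        _ = J * (S.card * η') := by ring
    have h6 := PhiJ_le hl θ (a * (E k - E k)) J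
    have h7 : (J : ℝ) * ‖PhiJ l θ (a * (E k - E k)) J‖ ≤ J * Wm l := by gcongr
    calc (J : ℝ) * ‖PhiJ l θ (a * (E k - E k)) J‖ +
          ‖∑ m ∈ S.erase k, (J : ℂ) * PhiJ l θ (a * (E k - E m)) J‖
        ≤ J * Wm l + J * (S.card * η') := add_le_add h7 h5
      _ = J * (Wm l + S.card * η') := by ring
  calc ‖∑ k ∈ S, ∑ m ∈ S, (J : ℂ) * PhiJ l θ (a * (E k - E m)) J‖
      ≤ ∑ k ∈ S, ‖∑ m ∈ S, (J : ℂ) * PhiJ l θ (a * (E k - E m)) J‖ := norm_sum_le _ _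
    _ ≤ ∑ _k ∈ S, (J : ℝ) * (Wm l + S.card * η') := Finset.sum_le_sum h4
    _ = J * (Wm l * S.card + S.card ^ 2 * η') := by
        rw [Finset.sum_const, nsmul_eq_mul]; ring

lemma fourier_eq_ee (a : ℤ) (x : ℝ) : (fourier a (x : Circ) : ℂ) = ee (a * x) := by
  rw [fourier_coe_apply]
  unfold ee
  congr 1
  push_cast
  ring

/-- if a trigonometric sum is small then some character sum is large -/
lemma point_le {c : ℤ →₀ ℂ} {m C s w : ℝ} (hm : 0 < m) (hC : ∑ a ∈ c.support, ‖c a‖ ≤ C)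
    (hC0 : 0 < C) (hs0 : 0 < s) (hc0 : m - m / 8 ≤ ‖c 0‖) {b : ℤ → ℂ} {X : ℂ}
    (hX : ‖X‖ ≤ s * (m / 8)) (hXe : X = s * c 0 + ∑ a ∈ c.support.erase 0, c a * b a)
    (hw : 0 ≤ w) :
    w ≤ (2 * C / (m * s)) ^ 2 * ∑ a ∈ c.support.erase 0, w * ‖b a‖ ^ 2 := by
  have h4 : s * (3 * m / 4) ≤ ∑ a ∈ c.support.erase 0, ‖c a‖ * ‖b a‖ := by
    have h6 : (s : ℂ) * c 0 = X - ∑ a ∈ c.support.erase 0, c a * b a := by
      rw [hXe]; ring
    have h7 : s * ‖c 0‖ = ‖(s : ℂ) * c 0‖ := by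
      rw [norm_mul, Complex.norm_real, Real.norm_eq_abs, abs_of_pos hs0]
    have h5 : s * ‖c 0‖ ≤ ‖X‖ + ‖∑ a ∈ c.support.erase 0, c a * b a‖ := by
      rw [h7, h6]
      exact norm_sub_le _ _
    have h8 : ‖∑ a ∈ c.support.erase 0, c a * b a‖ ≤
        ∑ a ∈ c.support.erase 0, ‖c a‖ * ‖b a‖ := by
      refine (norm_sum_le _ _).trans (Finset.sum_le_sum fun a _ => ?_)
      rw [norm_mul]
    have h9 : s * (m - m / 8) ≤ s * ‖c 0‖ := mul_le_mul_of_nonneg_left hc0 hs0.le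
    nlinarith
  obtain ⟨a, ha, haB⟩ : ∃ a ∈ c.support.erase 0, m * s / (2 * C) ≤ ‖b a‖ := by
    by_contra hcon
    push Not at hcon
    have h5 : ∑ a ∈ c.support.erase 0, ‖c a‖ * ‖b a‖ ≤
        ∑ a ∈ c.support.erase 0, ‖c a‖ * (m * s / (2 * C)) := by
      refine Finset.sum_le_sum fun a ha => ?_
      exact mul_le_mul_of_nonneg_left (hcon a ha).le (norm_nonneg _)
    rw [← Finset.sum_mul] at h5
    have h6 : ∑ a ∈ c.support.erase 0, ‖c a‖ ≤ C :=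
      (Finset.sum_le_sum_of_subset_of_nonneg (Finset.erase_subset _ _)
        fun _ _ _ => norm_nonneg _).trans hC
    have h7 : (∑ a ∈ c.support.erase 0, ‖c a‖) * (m * s / (2 * C)) ≤ C * (m * s / (2 * C)) :=
      mul_le_mul_of_nonneg_right h6 (by positivity)
    have h8 : C * (m * s / (2 * C)) = m * s / 2 := by field_simp
    have h9 : 0 < s * m := mul_pos hs0 hm
    nlinarith
  have h1 : w = (2 * C / (m * s)) ^ 2 * (w * (m * s / (2 * C)) ^ 2) := by field_simp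
  have h2 : (m * s / (2 * C)) ^ 2 ≤ ‖b a‖ ^ 2 := pow_le_pow_left₀ (by positivity) haB 2
  have h3 : w * ‖b a‖ ^ 2 ≤ ∑ a ∈ c.support.erase 0, w * ‖b a‖ ^ 2 :=
    Finset.single_le_sum (f := fun a => w * ‖b a‖ ^ 2)
      (fun a _ => mul_nonneg hw (sq_nonneg _)) ha
  have h5 : w * (m * s / (2 * C)) ^ 2 ≤ ∑ a ∈ c.support.erase 0, w * ‖b a‖ ^ 2 :=
    (mul_le_mul_of_nonneg_left h2 hw).trans h3
  calc w = (2 * C / (m * s)) ^ 2 * (w * (m * s / (2 * C)) ^ 2) := h1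
    _ ≤ _ := mul_le_mul_of_nonneg_left h5 (sq_nonneg _)

lemma arith {C m s ns J W η R : ℝ} (hC : 0 < C) (hm : 0 < m) (hs : 0 < s) (hns : 0 < ns)
    (hη : 0 < η) (hJ : 0 ≤ J) (hR : 8 * C ^ 2 * W * ns / (m ^ 2 * η) ≤ R)
    (hRs : R ≤ s) : (2 * C / (m * s)) ^ 2 * (ns * (J * (W * s + s ^ 2 * (η * m ^ 2 / (8 * C ^ 2 * ns))))) ≤
      η * J := by
  have h0 : (2 * C / (m * s)) ^ 2 * (ns * (J * (W * s + s ^ 2 * (η * m ^ 2 / (8 * C ^ 2 * ns))))) =
      (4 * C ^ 2 * ns / m ^ 2) * (W / s + η * m ^ 2 / (8 * C ^ 2 * ns)) * J := by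
    field_simp
    ring
  rw [h0]
  have h1 : W / s ≤ η * m ^ 2 / (8 * C ^ 2 * ns) := by
    rw [div_le_div_iff₀ hs (by positivity)]
    have h2 : 8 * C ^ 2 * W * ns / (m ^ 2 * η) ≤ s := hR.trans hRs
    rw [div_le_iff₀ (by positivity)] at h2
    linarith
  have h2 : (4 * C ^ 2 * ns / m ^ 2) * (W / s + η * m ^ 2 / (8 * C ^ 2 * ns)) ≤ η := by
    have h3 : W / s + η * m ^ 2 / (8 * C ^ 2 * ns) ≤ 2 * (η * m ^ 2 / (8 * C ^ 2 * ns)) := by
      linarith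
    calc (4 * C ^ 2 * ns / m ^ 2) * (W / s + η * m ^ 2 / (8 * C ^ 2 * ns))
        ≤ (4 * C ^ 2 * ns / m ^ 2) * (2 * (η * m ^ 2 / (8 * C ^ 2 * ns))) :=
          mul_le_mul_of_nonneg_left h3 (by positivity)
      _ = η := by
          field_simp
          norm_num
  exact mul_le_mul_of_nonneg_right h2 hJ

/-- approximation by a trigonometric polynomial -/
lemma exists_trig {g : C(Circ, ℂ)} {m : ℝ} (hm : 0 < m) (hg : ∫ x : Circ, g x = (m : ℂ)) :
    ∃ c : ℤ →₀ ℂ, m - m / 8 ≤ ‖c 0‖ ∧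
      ∀ t : Circ, ‖g t - ∑ a ∈ c.support, c a * fourier a t‖ ≤ m / 8 := by
  have hdense : g ∈ (Submodule.span ℂ (range (fourier (T := (1 : ℝ))))).topologicalClosure := by
    rw [span_fourier_closure_eq_top]; trivial
  have hdense' : g ∈ closure ((Submodule.span ℂ (range (fourier (T := (1 : ℝ)))) : Set C(Circ, ℂ))) :=
    hdense
  obtain ⟨T, hT, hd⟩ := Metric.mem_closure_iff.1 hdense' (m / 8) (by positivity)
  obtain ⟨c, hc⟩ := (Finsupp.mem_span_range_iff_exists_finsupp).1 hT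
  have hpt : ∀ t : Circ, ‖g t - T t‖ ≤ m / 8 := by
    intro t
    have h1 := (g - T).norm_coe_le_norm t
    rw [dist_eq_norm] at hd
    exact h1.trans hd.le
  have hTt : ∀ t : Circ, T t = ∑ a ∈ c.support, c a * fourier a t := by
    intro t
    rw [← hc, Finsupp.sum]
    simp [ContinuousMap.sum_apply]
  have hintc : ∀ G : C(Circ, ℂ), Integrable (fun t : Circ => G t) volume := fun G =>
    G.continuous.integrable_of_hasCompactSupport (HasCompactSupport.of_compactSpace _)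
  have hTint : ∫ t : Circ, T t = c 0 := by
    simp_rw [hTt]
    rw [integral_finsetSum _ fun a _ => (hintc (fourier a)).const_mul (c a)]
    simp_rw [integral_const_mul]
    rw [Finset.sum_eq_single (0 : ℤ)]
    · simp [measureReal_def]
    · intro a _ ha
      rw [integral_fourier_eq_zero ha, mul_zero]
    · intro h0
      rw [Finsupp.notMem_support_iff.1 h0, zero_mul]
  refine ⟨c, ?_, fun t => by rw [← hTt]; exact hpt t⟩
  have h1 : ‖(∫ t : Circ, g t) - ∫ t : Circ, T t‖ ≤ m / 8 := by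
    rw [← integral_sub (hintc g) (hintc T)]
    have := norm_integral_le_of_norm_le_const (μ := (volume : Measure Circ))
      (f := fun t : Circ => g t - T t) (C := m / 8) (Eventually.of_forall fun y => hpt _)
    rwa [measureReal_def, UnitAddCircle.measure_univ, ENNReal.toReal_one, mul_one] at this
  rw [hg, hTint] at h1
  have h2 : ‖(m : ℂ)‖ ≤ ‖(m : ℂ) - c 0‖ + ‖c 0‖ := by
    calc ‖(m : ℂ)‖ = ‖((m : ℂ) - c 0) + c 0‖ := by ring_nf
      _ ≤ _ := norm_add_le _ _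
  rw [Complex.norm_real, Real.norm_eq_abs, abs_of_pos hm] at h2
  linarith

lemma trig_sum (c : ℤ →₀ ℂ) (S : Finset ℕ) (x : ℕ → ℝ) :
    ∑ k ∈ S, ∑ a ∈ c.support, c a * fourier a ((x k : ℝ) : Circ) =
      ((S.card : ℝ) : ℂ) * c 0 + ∑ a ∈ c.support.erase 0, c a * ∑ k ∈ S, ee (a * x k) := by
  classical
  have h3 : ∀ k, ∑ a ∈ c.support, c a * fourier a ((x k : ℝ) : Circ) =
      c 0 + ∑ a ∈ c.support.erase 0, c a * ee (a * x k) := by
    intro k
    by_cases h0 : (0 : ℤ) ∈ c.support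
    · rw [← Finset.add_sum_erase _ _ h0]
      congr 1
      · simp
      · refine Finset.sum_congr rfl fun a _ => ?_
        rw [fourier_eq_ee]
    · rw [Finset.erase_eq_of_notMem h0, Finsupp.notMem_support_iff.1 h0, zero_add]
      refine Finset.sum_congr rfl fun a _ => ?_
      rw [fourier_eq_ee]
  rw [Finset.sum_congr rfl fun k _ => h3 k, Finset.sum_add_distrib, Finset.sum_const,
    nsmul_eq_mul, Finset.sum_comm]
  congr 1
  refine Finset.sum_congr rfl fun a _ => ?_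
  rw [Finset.mul_sum]

/-- **The bad times.** -/
theorem bad_le {l θ : ℝ} (hl : 0 < l) (hθ : addOrderOf ((θ : ℝ) : Circ) = 0) {g : C(Circ, ℂ)}
    {m : ℝ} (hm : 0 < m) (hg : ∫ x : Circ, g x = (m : ℂ)) {η : ℝ} (hη : 0 < η) :
    ∃ R : ℕ, ∃ Λ₀ : ℝ, 0 < Λ₀ ∧ ∀ Λ₁ : ℝ, ∃ J₀ : ℕ, ∀ J ≥ J₀, ∀ (S : Finset ℕ) (E : ℕ → ℝ),
      R ≤ S.card → (∀ k ∈ S, ∀ n ∈ S, k ≠ n → Λ₀ ≤ |E k - E n|) → (∀ k ∈ S, |E k| ≤ Λ₁) →
      ∀ A : Finset ℕ, A ⊆ Finset.range J →
        (∀ j ∈ A, ∀ k ∈ S, g ((tt l θ j * E k : ℝ) : Circ) = 0) →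
        ∑ j ∈ A, ww l θ j ≤ η * J := by
  classical
  obtain ⟨c, hc0, hpt⟩ := exists_trig hm hg
  obtain ⟨C, hC, hC0⟩ : ∃ C : ℝ, ∑ a ∈ c.support, ‖c a‖ ≤ C ∧ 0 < C := by
    refine ⟨1 + ∑ a ∈ c.support, ‖c a‖, by linarith, ?_⟩
    have : 0 ≤ ∑ a ∈ c.support, ‖c a‖ := Finset.sum_nonneg fun a _ => norm_nonneg _
    linarith
  obtain ⟨ns, hns, hns0⟩ : ∃ ns : ℝ, ((c.support.erase 0).card : ℝ) ≤ ns ∧ 0 < ns :=
    ⟨(c.support.erase 0).card + 1, by linarith, by positivity⟩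
  have hη'0 : 0 < η * m ^ 2 / (8 * C ^ 2 * ns) := by positivity
  obtain ⟨Λ₀, hΛ₀, hΛ⟩ := PhiJ_small hl hθ hη'0
  obtain ⟨R, hR, hR1⟩ : ∃ R : ℕ, 8 * C ^ 2 * Wm l * ns / (m ^ 2 * η) ≤ R ∧ 1 ≤ R := by
    obtain ⟨R, hR⟩ := exists_nat_ge (8 * C ^ 2 * Wm l * ns / (m ^ 2 * η))
    exact ⟨R + 1, by push_cast; linarith, by omega⟩
  refine ⟨R, Λ₀, hΛ₀, fun Λ₁ => ?_⟩
  obtain ⟨H, hH⟩ : ∃ H : ℝ, ∀ a ∈ c.support, |(a : ℝ)| ≤ H := by
    refine ⟨∑ a ∈ c.support, |(a : ℝ)|, fun a ha => ?_⟩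
    exact Finset.single_le_sum (f := fun a : ℤ => |(a : ℝ)|) (fun _ _ => abs_nonneg _) ha
  obtain ⟨J₀, hJ₀⟩ := hΛ (H * (2 * Λ₁))
  refine ⟨max J₀ 1, fun J hJ S E hRS hsep hbd A hAJ hA => ?_⟩
  have hJ1 : 1 ≤ J := (le_max_right _ _).trans hJ
  have hJpos : (0 : ℝ) < J := by exact_mod_cast hJ1
  have hs0 : (0 : ℝ) < (S.card : ℝ) := by exact_mod_cast (by omega : 0 < S.card)
  -- bound for each character
  have hchar : ∀ a ∈ c.support.erase 0,
      ∑ j ∈ Finset.range J, ww l θ j * ‖∑ k ∈ S, ee (a * (tt l θ j * E k))‖ ^ 2 ≤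
        J * (Wm l * S.card + S.card ^ 2 * (η * m ^ 2 / (8 * C ^ 2 * ns))) := by
    intro a ha
    have ha0 : a ≠ 0 := Finset.ne_of_mem_erase ha
    have hac : a ∈ c.support := Finset.mem_of_mem_erase ha
    refine second_moment hl hJ1 hη'0.le ?_
    intro k hk n hn hkn
    have h1 := hsep k hk n hn hkn
    have h2 : (1 : ℝ) ≤ |(a : ℝ)| := by
      have : (1 : ℤ) ≤ |a| := Int.one_le_abs ha0
      exact_mod_cast this
    refine hJ₀ J ((le_max_left _ _).trans hJ) _ ?_ ?_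
    · rw [abs_mul]
      have h3 := mul_le_mul h2 h1 hΛ₀.le (abs_nonneg _)
      rwa [one_mul] at h3
    · rw [abs_mul]
      have h3 : |E k - E n| ≤ 2 * Λ₁ := by
        have := abs_sub (E k) (E n)
        linarith [hbd k hk, hbd n hn]
      exact mul_le_mul (hH a hac) h3 (abs_nonneg _) ((abs_nonneg _).trans (hH a hac))
  -- pointwise
  have hpoint : ∀ j ∈ A, ww l θ j ≤ (2 * C / (m * S.card)) ^ 2 *
      ∑ a ∈ c.support.erase 0, ww l θ j * ‖∑ k ∈ S, ee (a * (tt l θ j * E k))‖ ^ 2 := by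
    intro j hj
    refine point_le hm hC hC0 hs0 hc0 (b := fun a => ∑ k ∈ S, ee (a * (tt l θ j * E k))) ?_
      (trig_sum c S fun k => tt l θ j * E k) (ww_nonneg hl θ j)
    calc ‖∑ k ∈ S, ∑ a ∈ c.support, c a * fourier a ((tt l θ j * E k : ℝ) : Circ)‖
        ≤ ∑ k ∈ S, ‖∑ a ∈ c.support, c a * fourier a ((tt l θ j * E k : ℝ) : Circ)‖ :=
          norm_sum_le _ _
      _ ≤ ∑ _k ∈ S, m / 8 := by
          refine Finset.sum_le_sum fun k hk => ?_
          have h2 := hpt ((tt l θ j * E k : ℝ) : Circ)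
          rw [hA j hj k hk, zero_sub, norm_neg] at h2
          exact h2
      _ = S.card * (m / 8) := by rw [Finset.sum_const, nsmul_eq_mul]
  have hfin := arith (W := Wm l) (J := J) hC0 hm hs0 hns0 hη hJpos.le hR (by exact_mod_cast hRS)
  refine le_trans ?_ hfin
  have hWm := (Wm_pos hl).le
  calc ∑ j ∈ A, ww l θ j
      ≤ ∑ j ∈ A, (2 * C / (m * S.card)) ^ 2 *
          ∑ a ∈ c.support.erase 0, ww l θ j * ‖∑ k ∈ S, ee (a * (tt l θ j * E k))‖ ^ 2 :=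
        Finset.sum_le_sum hpoint
    _ ≤ ∑ j ∈ Finset.range J, (2 * C / (m * S.card)) ^ 2 *
          ∑ a ∈ c.support.erase 0, ww l θ j * ‖∑ k ∈ S, ee (a * (tt l θ j * E k))‖ ^ 2 := by
        refine Finset.sum_le_sum_of_subset_of_nonneg hAJ fun j _ _ => ?_
        exact mul_nonneg (sq_nonneg _) (Finset.sum_nonneg fun a _ =>
          mul_nonneg (ww_nonneg hl θ j) (sq_nonneg _))
    _ = (2 * C / (m * S.card)) ^ 2 * ∑ a ∈ c.support.erase 0,
          ∑ j ∈ Finset.range J, ww l θ j * ‖∑ k ∈ S, ee (a * (tt l θ j * E k))‖ ^ 2 := by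
        rw [← Finset.mul_sum, Finset.sum_comm]
    _ ≤ (2 * C / (m * S.card)) ^ 2 * (ns * (J * (Wm l * S.card +
          S.card ^ 2 * (η * m ^ 2 / (8 * C ^ 2 * ns))))) := by
        refine mul_le_mul_of_nonneg_left ?_ (sq_nonneg _)
        refine (Finset.sum_le_sum hchar).trans ?_
        rw [Finset.sum_const, nsmul_eq_mul]
        refine mul_le_mul_of_nonneg_right hns ?_
        positivity

end Pool.Agent.Helper28K1.ZD
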