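import Mathlib
import Pool.Agent.Helper28K1.ZD.SM

/-!
Many separated real numbers, multiplied by the scale factors of an irrational rotation, are
`ε`-dense modulo one for a positive proportion of the times, the proportion not depending on `ε`.
-/

set_option autoImplicit false

open MeasureTheory Filter Topology Set

namespace Pool.Agent.Helper28K1.ZD

open Pool.Agent.H705R2

/-- a bump on the circle -/
lemma exists_bump (y : Circ) {r : ℝ} (hr : 0 < r) : ∃ g : C(Circ, ℂ), ∃ m : ℝ, 0 < m ∧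
    ∫ x : Circ, g x = (m : ℂ) ∧ ∀ x, r ≤ dist x y → g x = 0 := by
  have hopen : IsOpen (Metric.ball y r) := Metric.isOpen_ball
  obtain ⟨g, hg0, hg1, hg01⟩ := exists_continuous_zero_one_of_isClosed hopen.isClosed_compl
    (isClosed_singleton (x := y)) (by
      rw [disjoint_compl_left_iff_subset]; simpa using hr)
  have hgpos : 0 < ∫ t : Circ, g t := by
    refine (integral_pos_iff_support_of_nonneg (fun t => (hg01 t).1)
      (g.continuous.integrable_of_hasCompactSupport (HasCompactSupport.of_compactSpace _))).2 ?_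
    have hopen : IsOpen (Function.support g) := isOpen_ne_fun g.continuous continuous_const
    refine hopen.measure_pos volume ⟨y, ?_⟩
    rw [Function.mem_support]
    have : g y = 1 := hg1 (mem_singleton y)
    rw [this]; norm_num
  refine ⟨⟨fun t => (g t : ℂ), by fun_prop⟩, ∫ t : Circ, g t, hgpos, ?_, ?_⟩
  · simp only [ContinuousMap.coe_mk]
    exact integral_ofReal
  · intro x hx
    have h1 : g x = 0 := hg0 (by simpa using hx)
    simp [h1]

lemma sum_biUnion_le (t : Finset Circ) (A : Circ → Finset ℕ) {w : ℕ → ℝ} (hw : ∀ j, 0 ≤ w j) :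
    ∑ j ∈ t.biUnion A, w j ≤ ∑ y ∈ t, ∑ j ∈ A y, w j := by
  classical
  induction t using Finset.induction_on with
  | empty => simp
  | insert y t hy ih =>
    rw [Finset.biUnion_insert, Finset.sum_insert hy]
    have h1 : ∑ j ∈ A y ∪ t.biUnion A, w j ≤ ∑ j ∈ A y, w j + ∑ j ∈ t.biUnion A, w j := by
      rw [← Finset.sum_union_inter]
      have : 0 ≤ ∑ j ∈ A y ∩ t.biUnion A, w j := Finset.sum_nonneg fun j _ => hw j
      linarith
    linarith

/-- **The good times.** -/
theorem good_times {l θ : ℝ} (hl : 0 < l) (hθ : addOrderOf ((θ : ℝ) : Circ) = 0) :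
    ∃ c : ℝ, 0 < c ∧ ∀ ε : ℝ, 0 < ε → ∃ R : ℕ, ∃ Λ₀ : ℝ, 0 < Λ₀ ∧ ∀ Λ₁ : ℝ, ∃ J₀ : ℕ, ∀ J ≥ J₀,
      ∀ (S : Finset ℕ) (E : ℕ → ℝ), R ≤ S.card →
      (∀ k ∈ S, ∀ n ∈ S, k ≠ n → Λ₀ ≤ |E k - E n|) → (∀ k ∈ S, |E k| ≤ Λ₁) →
      ∃ T ⊆ Finset.range J, c * J ≤ T.card ∧
        ∀ j ∈ T, ∀ y : Circ, ∃ k ∈ S, dist ((tt l θ j * E k : ℝ) : Circ) y < ε := by
  classical
  obtain ⟨I, hI, J₁, hJ₁⟩ := mass_lower hl hθ
  have hWm := Wm_pos hl
  refine ⟨I / (2 * Wm l), by positivity, fun ε hε => ?_⟩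
  obtain ⟨t, htfin, hcov⟩ := Metric.totallyBounded_iff.1
    (isCompact_univ (X := Circ)).totallyBounded (ε / 2) (by positivity)
  lift t to Finset Circ using htfin
  choose g m hm hg hg0 using fun y : Circ => exists_bump y (r := ε / 2) (by positivity)
  set η : ℝ := I / (2 * (t.card + 1)) with hη
  have hη0 : 0 < η := by positivity
  choose R Λ₀ hΛ₀ hrest using fun y : Circ => bad_le hl hθ (hm y) (hg y) hη0
  refine ⟨t.sup R, 1 + ∑ y ∈ t, Λ₀ y, ?_, fun Λ₁ => ?_⟩
  · have : 0 ≤ ∑ y ∈ t, Λ₀ y := Finset.sum_nonneg fun y _ => (hΛ₀ y).le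
    linarith
  choose J₀ hJ₀ using fun y : Circ => hrest y Λ₁
  refine ⟨max J₁ (t.sup J₀), fun J hJ S E hRS hsep hbd => ?_⟩
  -- the bad times
  set A : Circ → Finset ℕ := fun y => (Finset.range J).filter fun j =>
    ∀ k ∈ S, g y ((tt l θ j * E k : ℝ) : Circ) = 0 with hA
  have hbad : ∀ y ∈ t, ∑ j ∈ A y, ww l θ j ≤ η * J := by
    intro y hy
    refine hJ₀ y J ?_ S E ?_ ?_ hbd (A y) (Finset.filter_subset _ _) ?_
    · exact (Finset.le_sup (f := J₀) hy).trans ((le_max_right _ _).trans hJ)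
    · exact (Finset.le_sup (f := R) hy).trans hRS
    · intro k hk n hn hkn
      refine le_trans ?_ (hsep k hk n hn hkn)
      have := Finset.single_le_sum (f := Λ₀) (fun y _ => (hΛ₀ y).le) hy
      linarith
    · intro j hj
      rw [hA, Finset.mem_filter] at hj
      exact hj.2
  refine ⟨Finset.range J \ t.biUnion A, Finset.sdiff_subset, ?_, ?_⟩
  · have h1 : I * J ≤ ∑ j ∈ Finset.range J, ww l θ j := hJ₁ J ((le_max_left _ _).trans hJ)
    have h2 : ∑ j ∈ Finset.range J, ww l θ j ≤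
        ∑ j ∈ Finset.range J \ t.biUnion A, ww l θ j + ∑ y ∈ t, ∑ j ∈ A y, ww l θ j := by
      have h3 : Finset.range J ⊆ (Finset.range J \ t.biUnion A) ∪ t.biUnion A := by
        intro j hj
        by_cases h : j ∈ t.biUnion A
        · exact Finset.mem_union_right _ h
        · exact Finset.mem_union_left _ (Finset.mem_sdiff.2 ⟨hj, h⟩)
      have h4 : ∑ j ∈ t.biUnion A, ww l θ j ≤ ∑ y ∈ t, ∑ j ∈ A y, ww l θ j :=
        sum_biUnion_le t A fun j => ww_nonneg hl θ j
      calc ∑ j ∈ Finset.range J, ww l θ j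
          ≤ ∑ j ∈ (Finset.range J \ t.biUnion A) ∪ t.biUnion A, ww l θ j :=
            Finset.sum_le_sum_of_subset_of_nonneg h3 fun j _ _ => ww_nonneg hl θ j
        _ ≤ ∑ j ∈ Finset.range J \ t.biUnion A, ww l θ j + ∑ j ∈ t.biUnion A, ww l θ j := by
            rw [Finset.sum_union Finset.sdiff_disjoint]
        _ ≤ _ := by gcongr
    have h5 : ∑ y ∈ t, ∑ j ∈ A y, ww l θ j ≤ t.card * (η * J) := by
      refine (Finset.sum_le_sum hbad).trans ?_
      rw [Finset.sum_const, nsmul_eq_mul]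
    have h6 : (t.card : ℝ) * (η * J) ≤ I / 2 * J := by
      have h7 : (t.card : ℝ) * η ≤ I / 2 := by
        rw [hη, ← mul_div_assoc, div_le_div_iff₀ (by positivity) (by positivity)]
        have : (0 : ℝ) ≤ t.card := Nat.cast_nonneg _
        nlinarith
      have := mul_le_mul_of_nonneg_right h7 (Nat.cast_nonneg (α := ℝ) J)
      linarith
    have h8 : ∑ j ∈ Finset.range J \ t.biUnion A, ww l θ j ≤
        (Finset.range J \ t.biUnion A).card * Wm l := by
      calc ∑ j ∈ Finset.range J \ t.biUnion A, ww l θ j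
          ≤ ∑ _j ∈ Finset.range J \ t.biUnion A, Wm l := Finset.sum_le_sum fun j _ => ww_le hl θ j
        _ = _ := by rw [Finset.sum_const, nsmul_eq_mul]
    rw [div_mul_eq_mul_div, div_le_iff₀ (by positivity)]
    linarith
  · intro j hj y
    rw [Finset.mem_sdiff, Finset.mem_biUnion] at hj
    obtain ⟨hj1, hj2⟩ := hj
    obtain ⟨z, hz, hyz⟩ := mem_iUnion₂.1 (hcov (mem_univ y))
    have hjz : ¬ ∀ k ∈ S, g z ((tt l θ j * E k : ℝ) : Circ) = 0 := by
      intro h
      exact hj2 ⟨z, hz, Finset.mem_filter.2 ⟨hj1, h⟩⟩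
    push Not at hjz
    obtain ⟨k, hk, hkz⟩ := hjz
    refine ⟨k, hk, ?_⟩
    have h1 : dist ((tt l θ j * E k : ℝ) : Circ) z < ε / 2 := by
      by_contra h2
      exact hkz (hg0 z _ (not_lt.1 h2))
    rw [Metric.mem_ball] at hyz
    calc dist ((tt l θ j * E k : ℝ) : Circ) y
        ≤ dist ((tt l θ j * E k : ℝ) : Circ) z + dist y z := dist_triangle_right _ _ _
      _ < ε / 2 + ε / 2 := add_lt_add h1 hyz
      _ = ε := by ring

end Pool.Agent.Helper28K1.ZD
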