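import Mathlib
import Pool.Agent.H705R2.Weyl

/-!
In a large separated set some point has neighbours at many scales.
-/

set_option autoImplicit false

open Filter Topology Set

namespace Pool.Agent.Helper28K1.ZD

open Pool.Agent.H705R2

lemma norm_coe_le (x : ℝ) : ‖(x : Circ)‖ ≤ |x| := by
  have := QuotientAddGroup.norm_mk_le_norm (S := AddSubgroup.zmultiples (1 : ℝ)) (m := x)
  exact this

/-- the representative in `[0, 1)` -/
noncomputable def rep (x : Circ) : ℝ := (AddCircle.equivIco 1 0 x : ℝ)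

lemma rep_nonneg (x : Circ) : 0 ≤ rep x := (AddCircle.equivIco 1 0 x).2.1

lemma rep_lt (x : Circ) : rep x < 1 := by
  have : rep x < 0 + 1 := (AddCircle.equivIco 1 0 x).2.2
  linarith

lemma coe_rep (x : Circ) : ((rep x : ℝ) : Circ) = x :=
  (AddCircle.equivIco 1 0).symm_apply_apply x

/-- the prefix -/
noncomputable def pre (P m : ℕ) (x : Circ) : ℕ := ⌊(P : ℝ) ^ m * rep x⌋₊

lemma pre_succ {P : ℕ} (hP : 1 ≤ P) (m : ℕ) (x : Circ) : pre P (m + 1) x / P = pre P m x := by
  unfold pre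
  rw [← Nat.floor_div_natCast]
  congr 1
  have : (P : ℝ) ≠ 0 := by positivity
  field_simp
  ring

lemma close_of_pre {P m : ℕ} {x y : Circ} (h : pre P m x = pre P m y) :
    |(P : ℝ) ^ m * (rep x - rep y)| < 1 := by
  unfold pre at h
  have hx := rep_nonneg x
  have hy := rep_nonneg y
  have h1 := Nat.floor_le (by positivity : 0 ≤ (P : ℝ) ^ m * rep x)
  have h2 := Nat.lt_floor_add_one ((P : ℝ) ^ m * rep x)
  have h3 := Nat.floor_le (by positivity : 0 ≤ (P : ℝ) ^ m * rep y)
  have h4 := Nat.lt_floor_add_one ((P : ℝ) ^ m * rep y)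
  rw [h] at h1 h2
  rw [mul_sub, abs_lt]
  constructor <;> linarith

lemma far_of_pre {P m : ℕ} {x y : Circ} (h : pre P m x + 2 ≤ pre P m y ∨ pre P m y + 2 ≤ pre P m x) :
    1 < |(P : ℝ) ^ m * (rep x - rep y)| := by
  unfold pre at h
  have hx := rep_nonneg x
  have hy := rep_nonneg y
  have h1 := Nat.floor_le (by positivity : 0 ≤ (P : ℝ) ^ m * rep x)
  have h2 := Nat.lt_floor_add_one ((P : ℝ) ^ m * rep x)
  have h3 := Nat.floor_le (by positivity : 0 ≤ (P : ℝ) ^ m * rep y)
  have h4 := Nat.lt_floor_add_one ((P : ℝ) ^ m * rep y)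
  rw [mul_sub]
  rcases h with h | h
  · have h5 : ((⌊(P : ℝ) ^ m * rep x⌋₊ : ℕ) : ℝ) + 2 ≤ ⌊(P : ℝ) ^ m * rep y⌋₊ := by exact_mod_cast h
    rw [lt_abs]; right; linarith
  · have h5 : ((⌊(P : ℝ) ^ m * rep y⌋₊ : ℕ) : ℝ) + 2 ≤ ⌊(P : ℝ) ^ m * rep x⌋₊ := by exact_mod_cast h
    rw [lt_abs]; left; linarith

/-- the tree argument -/
lemma tree_aux {P : ℕ} (hP : 1 ≤ P) (n : ℕ) : ∀ (m₀ : ℕ) (X : Finset Circ), X.Nonempty →
    (∀ x ∈ X, ∀ y ∈ X, pre P m₀ x = pre P m₀ y) →
    (∀ x ∈ X, ∀ y ∈ X, pre P (m₀ + n) x = pre P (m₀ + n) y → x = y) →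
    ∃ x ∈ X, ∃ L : Finset ℕ, (∀ m ∈ L, m₀ ≤ m ∧ m < m₀ + n) ∧ X.card ≤ 3 ^ n * P ^ L.card ∧
      ∀ m ∈ L, ∃ y ∈ X, pre P m y = pre P m x ∧
        (pre P (m + 1) y + 2 ≤ pre P (m + 1) x ∨ pre P (m + 1) x + 2 ≤ pre P (m + 1) y) := by
  classical
  induction n with
  | zero =>
    intro m₀ X hX hsame hinj
    obtain ⟨x, hx⟩ := hX
    refine ⟨x, hx, ∅, by simp, ?_, by simp⟩
    simp only [pow_zero, Finset.card_empty, one_mul]
    rw [Finset.card_le_one]
    intro a ha b hb
    exact hinj a ha b hb (by simpa using hsame a ha b hb)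
  | succ n ih =>
    intro m₀ X hX hsame hinj
    set D := X.image (pre P (m₀ + 1)) with hD
    have hDne : D.Nonempty := hX.image _
    obtain ⟨d, hd, hdmax⟩ := Finset.exists_max_image D
      (fun d => (X.filter fun x => pre P (m₀ + 1) x = d).card) hDne
    set Y := X.filter fun x => pre P (m₀ + 1) x = d with hY
    have hYne : Y.Nonempty := by
      obtain ⟨x, hx, hxd⟩ := Finset.mem_image.1 hd
      exact ⟨x, Finset.mem_filter.2 ⟨hx, hxd⟩⟩
    have hYX : Y ⊆ X := Finset.filter_subset _ _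
    have hcard : X.card ≤ D.card * Y.card := by
      have h1 := Finset.card_eq_sum_card_image (pre P (m₀ + 1)) X
      rw [h1]
      refine (Finset.sum_le_card_nsmul _ _ _ hdmax).trans ?_
      rw [smul_eq_mul]
    obtain ⟨x, hx, L, hL1, hL2, hL3⟩ := ih (m₀ + 1) Y hYne
      (fun a ha b hb => by
        rw [(Finset.mem_filter.1 ha).2, (Finset.mem_filter.1 hb).2])
      (fun a ha b hb h => by
        refine hinj a (hYX ha) b (hYX hb) ?_
        have e : m₀ + (n + 1) = m₀ + 1 + n := by ring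
        rw [e]; exact h)
    by_cases hc : D.card ≤ 3
    · refine ⟨x, hYX hx, L, fun m hm => ⟨by have := (hL1 m hm).1; omega, by
        have := (hL1 m hm).2; omega⟩, ?_, ?_⟩
      · calc X.card ≤ D.card * Y.card := hcard
          _ ≤ 3 * (3 ^ n * P ^ L.card) := Nat.mul_le_mul hc hL2
          _ = 3 ^ (n + 1) * P ^ L.card := by ring
      · intro m hm
        obtain ⟨y, hy, h1, h2⟩ := hL3 m hm
        exact ⟨y, hYX hy, h1, h2⟩
    · push Not at hc
      have hm₀L : m₀ ∉ L := fun h => by have := (hL1 m₀ h).1; omega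
      refine ⟨x, hYX hx, insert m₀ L, ?_, ?_, ?_⟩
      · intro m hm
        rcases Finset.mem_insert.1 hm with rfl | hm
        · omega
        · have := hL1 m hm; omega
      · rw [Finset.card_insert_of_notMem hm₀L]
        have hDP : D.card ≤ P := by
          have h1 : D ⊆ Finset.Ico (P * pre P m₀ x) (P * pre P m₀ x + P) := by
            intro e he
            obtain ⟨y, hy, rfl⟩ := Finset.mem_image.1 he
            have h2 := pre_succ hP m₀ y
            rw [hsame y hy x (hYX hx)] at h2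
            rw [Finset.mem_Ico]
            have h3 := Nat.div_add_mod (pre P (m₀ + 1) y) P
            have h4 := Nat.mod_lt (pre P (m₀ + 1) y) (by omega : 0 < P)
            rw [h2] at h3
            omega
          have h2 := Finset.card_le_card h1
          rw [Nat.card_Ico] at h2
          omega
        calc X.card ≤ D.card * Y.card := hcard
          _ ≤ P * (3 ^ n * P ^ L.card) := Nat.mul_le_mul hDP hL2
          _ ≤ 3 * (P * (3 ^ n * P ^ L.card)) := Nat.le_mul_of_pos_left _ (by norm_num)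
          _ = 3 ^ (n + 1) * P ^ (L.card + 1) := by ring
      · intro m hm
        rcases Finset.mem_insert.1 hm with rfl | hm
        · -- there is a value far from that of `x`
          obtain ⟨e, he, hne⟩ : ∃ e ∈ D, e ∉ ({pre P (m + 1) x - 1, pre P (m + 1) x,
              pre P (m + 1) x + 1} : Finset ℕ) := by
            by_contra hcon
            push Not at hcon
            have h1 := Finset.card_le_card hcon
            have h2 := Finset.card_le_three (a := pre P (m + 1) x - 1) (b := pre P (m + 1) x)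
              (c := pre P (m + 1) x + 1)
            omega
          obtain ⟨y, hy, rfl⟩ := Finset.mem_image.1 he
          simp only [Finset.mem_insert, Finset.mem_singleton, not_or] at hne
          refine ⟨y, hy, hsame y hy x (hYX hx), ?_⟩
          omega
        · obtain ⟨y, hy, h1, h2⟩ := hL3 m hm
          exact ⟨y, hYX hy, h1, h2⟩

/-- **Many scales.** -/
theorem tree {P : ℕ} (hP : 1 ≤ P) {n : ℕ} {X : Finset Circ} (hX : X.Nonempty)
    (hsep : ∀ x ∈ X, ∀ y ∈ X, x ≠ y → (1 / (P : ℝ)) ^ n ≤ dist x y) :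
    ∃ x ∈ X, ∃ L : Finset ℕ, (∀ m ∈ L, m < n) ∧ X.card ≤ 3 ^ n * P ^ L.card ∧
      ∀ m ∈ L, ∃ d : ℝ, 1 < (P : ℝ) ^ (m + 1) * |d| ∧ (P : ℝ) ^ m * |d| < 1 ∧
        x + ((d : ℝ) : Circ) ∈ X := by
  have hP0 : (0 : ℝ) < P := by exact_mod_cast hP
  obtain ⟨x, hx, L, hL1, hL2, hL3⟩ := tree_aux hP n 0 X hX
    (fun x _ y _ => by
      unfold pre
      rw [pow_zero, one_mul, one_mul, Nat.floor_eq_zero.2 (rep_lt x), Nat.floor_eq_zero.2 (rep_lt y)])
    (fun x hx y hy h => by
      by_contra hne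
      have h1 := hsep x hx y hy hne
      rw [zero_add] at h
      have h2 := close_of_pre h
      have h3 : dist x y ≤ |rep x - rep y| := by
        rw [dist_eq_norm]
        have h4 : x - y = ((rep x - rep y : ℝ) : Circ) := by
          rw [AddCircle.coe_sub, coe_rep, coe_rep]
        rw [h4]
        exact norm_coe_le (rep x - rep y)
      rw [abs_mul, abs_of_pos (pow_pos hP0 n)] at h2
      have h5 : (1 / (P : ℝ)) ^ n * (P : ℝ) ^ n = 1 := by
        rw [← mul_pow, one_div_mul_cancel hP0.ne', one_pow]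
      have h6 : (P : ℝ) ^ n * (1 / (P : ℝ)) ^ n ≤ (P : ℝ) ^ n * |rep x - rep y| := by
        gcongr
        exact h1.trans h3
      linarith)
  refine ⟨x, hx, L, fun m hm => by have := (hL1 m hm).2; omega, hL2, fun m hm => ?_⟩
  obtain ⟨y, hy, h1, h2⟩ := hL3 m hm
  refine ⟨rep y - rep x, ?_, ?_, ?_⟩
  · have := far_of_pre h2
    rwa [abs_mul, abs_of_pos (pow_pos hP0 _)] at this
  · have := close_of_pre h1
    rwa [abs_mul, abs_of_pos (pow_pos hP0 _)] at this
  · rw [AddCircle.coe_sub, coe_rep, coe_rep]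
    simpa using hy

end Pool.Agent.Helper28K1.ZD
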