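import Mathlib
import Pool.Agent.Helper28K1.ZD.Good
import Pool.Agent.Helper28K1.ZD.Tree
import Pool.Agent.H705R2.Rot

/-!
The images of a large separated set under `p^i q^j` are `ε`-dense for a positive proportion of the
pairs `(i, j)`, the proportion not depending on `ε`.
-/

set_option autoImplicit false

open Filter Topology Set

namespace Pool.Agent.Helper28K1.ZD

open Pool.Agent.H705R2

lemma parity (L : Finset ℕ) : ∃ L' ⊆ L, L.card ≤ 2 * L'.card ∧
    ∀ m ∈ L', ∀ m' ∈ L', m' < m → m' + 2 ≤ m := by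
  classical
  have h := Finset.card_filter_add_card_filter_not (s := L) (fun m => m % 2 = 0)
  by_cases hc : L.card ≤ 2 * (L.filter fun m => m % 2 = 0).card
  · refine ⟨_, Finset.filter_subset _ _, hc, ?_⟩
    intro m hm m' hm' hlt
    have h1 := (Finset.mem_filter.1 hm).2
    have h2 := (Finset.mem_filter.1 hm').2
    omega
  · refine ⟨L.filter fun m => ¬ m % 2 = 0, Finset.filter_subset _ _, by omega, ?_⟩
    intro m hm m' hm' hlt
    have h1 := (Finset.mem_filter.1 hm).2
    have h2 := (Finset.mem_filter.1 hm').2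
    omega

/-- the window -/
def win (L : Finset ℕ) (K H t : ℕ) : Finset ℕ := L.filter fun m => m + K ≤ t ∧ t < m + K + H

lemma win_card_le (L : Finset ℕ) (K H t : ℕ) : (win L K H t).card ≤ H := by
  have h := Finset.card_le_card_of_injOn (s := win L K H t) (t := Finset.range H)
    (fun m => t - K - m) (by
      intro m hm
      have h1 := (Finset.mem_filter.1 hm).2
      simp only [Finset.coe_range, mem_Iio]
      omega) (by
      intro m hm m' hm' h
      have h1 := (Finset.mem_filter.1 hm).2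
      have h2 := (Finset.mem_filter.1 hm').2
      simp only at h
      omega)
  simpa using h

/-- many windows are rich -/
lemma rich_count {L : Finset ℕ} {n K H N R : ℕ} (hL : ∀ m ∈ L, m < n) (hN : n + K + H ≤ N) :
    L.card * H ≤ ((Finset.range N).filter fun t => R ≤ (win L K H t).card).card * H + N * R := by
  classical
  have h1 : ∑ t ∈ Finset.range N, (win L K H t).card = L.card * H := by
    have h2 : ∀ t, (win L K H t).card = ∑ m ∈ L, if m + K ≤ t ∧ t < m + K + H then 1 else 0 := by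
      intro t
      rw [win, Finset.card_filter]
    simp_rw [h2]
    rw [Finset.sum_comm]
    have h3 : ∀ m ∈ L, ∑ t ∈ Finset.range N, (if m + K ≤ t ∧ t < m + K + H then 1 else 0) = H := by
      intro m hm
      rw [← Finset.card_filter]
      have h4 : (Finset.range N).filter (fun t => m + K ≤ t ∧ t < m + K + H) =
          Finset.Ico (m + K) (m + K + H) := by
        ext t
        simp only [Finset.mem_filter, Finset.mem_range, Finset.mem_Ico]
        have := hL m hm
        constructor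
        · rintro ⟨_, h⟩; exact h
        · intro h; exact ⟨by omega, h⟩
      rw [h4, Nat.card_Ico]
      omega
    rw [Finset.sum_congr rfl h3, Finset.sum_const, smul_eq_mul]
  rw [← h1]
  have h5 : ∀ t ∈ Finset.range N, (win L K H t).card ≤
      (if R ≤ (win L K H t).card then H else 0) + R := by
    intro t _
    split_ifs with h
    · exact (win_card_le L K H t).trans (Nat.le_add_right _ _)
    · omega
  refine (Finset.sum_le_sum h5).trans ?_
  rw [Finset.sum_add_distrib, Finset.sum_const, Finset.card_range, smul_eq_mul,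
    ← Finset.sum_filter, Finset.sum_const, smul_eq_mul]

/-- `ε`-density -/
def EpsDense (ε : ℝ) (A : Set Circ) : Prop := ∀ y : Circ, ∃ x ∈ A, dist x y < ε

lemma mem_fam {P q : ℕ} {A : ℕ → ℕ → Set Circ} (hp : ∀ i j, ∀ x ∈ A i j, P • x ∈ A (i + 1) j)
    (hq : ∀ i j, ∀ x ∈ A i j, q • x ∈ A i (j + 1)) (i j : ℕ) :
    ∀ x ∈ A 0 0, (P ^ i * q ^ j) • x ∈ A i j := by
  have h1 : ∀ j, ∀ x ∈ A 0 0, (q ^ j) • x ∈ A 0 j := by
    intro j
    induction j with
    | zero => intro x hx; simpa using hx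
    | succ j ih =>
      intro x hx
      rw [pow_succ', mul_smul]
      exact hq _ _ _ (ih x hx)
  induction i with
  | zero => intro x hx; simpa using h1 j x hx
  | succ i ih =>
    intro x hx
    have e : P ^ (i + 1) * q ^ j = P * (P ^ i * q ^ j) := by ring
    rw [e, mul_smul]
    exact hp _ _ _ (ih x hx)

/-- the multiplier on a line `i + j θ ≈ t` -/
lemma multiplier {P q : ℕ} (hP : 2 ≤ P) (hq : 2 ≤ q) {t j : ℕ}
    (hj : ⌊(j : ℝ) * Real.logb P q⌋₊ ≤ t) :
    ((P ^ (t - ⌊(j : ℝ) * Real.logb P q⌋₊) * q ^ j : ℕ) : ℝ) =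
      (P : ℝ) ^ t * tt (Real.log P) (Real.logb P q) j := by
  have hP1 : (1 : ℝ) < P := by exact_mod_cast (by omega : 1 < P)
  have hP0 : (0 : ℝ) < P := by linarith
  have hq1 : (1 : ℝ) < q := by exact_mod_cast (by omega : 1 < q)
  have hlP : 0 < Real.log P := Real.log_pos hP1
  have hθ : 0 ≤ (j : ℝ) * Real.logb P q := mul_nonneg (Nat.cast_nonneg _) (Real.logb_pos hP1 hq1).le
  have hfr : Int.fract ((j : ℝ) * Real.logb P q) = (j : ℝ) * Real.logb P q -
      (⌊(j : ℝ) * Real.logb P q⌋₊ : ℝ) := by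
    rw [Int.fract]
    congr 1
    rw [natCast_floor_eq_intCast_floor hθ]
  unfold tt sc
  rw [hfr]
  push_cast
  have h1 : (q : ℝ) ^ j = Real.exp (Real.log P * ((j : ℝ) * Real.logb P q)) := by
    rw [← Real.rpow_natCast, Real.rpow_def_of_pos (by linarith)]
    congr 1
    unfold Real.logb
    field_simp
  have h2 : (P : ℝ) ^ (t - ⌊(j : ℝ) * Real.logb P q⌋₊) =
      (P : ℝ) ^ t * Real.exp (-(Real.log P * (⌊(j : ℝ) * Real.logb P q⌋₊ : ℝ))) := by
    rw [pow_sub₀ _ hP0.ne' hj, Real.exp_neg]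
    congr 2
    rw [← Real.rpow_natCast P ⌊(j : ℝ) * Real.logb P q⌋₊, Real.rpow_def_of_pos hP0]
  rw [h1, h2, mul_assoc, ← Real.exp_add]
  congr 2
  ring

/-- one rich line -/
lemma rich_line {P q : ℕ} (hP : 2 ≤ P) (hq : 2 ≤ q) {A : ℕ → ℕ → Set Circ}
    (hp' : ∀ i j, ∀ x ∈ A i j, P • x ∈ A (i + 1) j)
    (hq' : ∀ i j, ∀ x ∈ A i j, q • x ∈ A i (j + 1)) {x : Circ} {S : Finset ℕ} {d : ℕ → ℝ}
    (hS : ∀ m ∈ S, x + ((d m : ℝ) : Circ) ∈ A 0 0) {t j : ℕ} {ε : ℝ}
    (hj : ⌊(j : ℝ) * Real.logb P q⌋₊ ≤ t)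
    (h : ∀ y : Circ, ∃ m ∈ S,
      dist ((tt (Real.log P) (Real.logb P q) j * ((P : ℝ) ^ t * d m) : ℝ) : Circ) y < ε) :
    EpsDense ε (A (t - ⌊(j : ℝ) * Real.logb P q⌋₊) j) := by
  intro y
  set M := P ^ (t - ⌊(j : ℝ) * Real.logb P q⌋₊) * q ^ j with hM
  obtain ⟨m, hm, hd⟩ := h (y - M • x)
  refine ⟨M • (x + ((d m : ℝ) : Circ)), mem_fam hp' hq' _ _ _ (hS m hm), ?_⟩
  have h1 : M • (x + ((d m : ℝ) : Circ)) =
      ((tt (Real.log P) (Real.logb P q) j * ((P : ℝ) ^ t * d m) : ℝ) : Circ) + M • x := by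
    rw [smul_add, add_comm]
    congr 1
    rw [← AddCircle.coe_nsmul, nsmul_eq_mul, hM, multiplier hP hq hj]
    congr 1
    ring
  rw [h1]
  have h2 : y = (y - M • x) + M • x := by abel
  rw [h2, dist_add_right]
  simpa using hd

end Pool.Agent.Helper28K1.ZD
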