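import Mathlib
import Pool.Agent.Helper28K1.ZD.Win

/-!
The deterministic theorem.
-/

set_option autoImplicit false

open Filter Topology Set

namespace Pool.Agent.Helper28K1.ZD

open Pool.Agent.H705R2

/-- separation of the rescaled differences -/
lemma sep_scales {P K t m m' : ℕ} (hP : 2 ≤ P) {d : ℕ → ℝ} (hmm : m' + 2 ≤ m) (hmt : m + K ≤ t)
    (h1 : (P : ℝ) ^ m * |d m| ≤ 1) (h2 : 1 < (P : ℝ) ^ (m' + 1) * |d m'|) :
    (P : ℝ) ^ K ≤ |(P : ℝ) ^ t * d m - (P : ℝ) ^ t * d m'| := by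
  have hP2 : (2 : ℝ) ≤ P := by exact_mod_cast hP
  have hP0 : (0 : ℝ) < P := by linarith
  have e1 : (P : ℝ) ^ t = (P : ℝ) ^ (t - m) * (P : ℝ) ^ m := by
    rw [← pow_add]; congr 1; omega
  have e2 : (P : ℝ) ^ t = (P : ℝ) ^ (t - (m' + 1)) * (P : ℝ) ^ (m' + 1) := by
    rw [← pow_add]; congr 1; omega
  have e3 : (P : ℝ) ^ (t - (m' + 1)) = (P : ℝ) ^ (t - m) * (P : ℝ) ^ (m - (m' + 1)) := by
    rw [← pow_add]; congr 1; omega
  have h3 : |(P : ℝ) ^ t * d m| ≤ (P : ℝ) ^ (t - m) := by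
    rw [abs_mul, abs_of_pos (pow_pos hP0 t), e1, mul_assoc]
    calc (P : ℝ) ^ (t - m) * ((P : ℝ) ^ m * |d m|) ≤ (P : ℝ) ^ (t - m) * 1 := by gcongr
      _ = _ := mul_one _
  have h4 : 2 * (P : ℝ) ^ (t - m) ≤ |(P : ℝ) ^ t * d m'| := by
    rw [abs_mul, abs_of_pos (pow_pos hP0 t), e2, mul_assoc]
    have h5 : (2 : ℝ) ≤ (P : ℝ) ^ (m - (m' + 1)) := by
      calc (2 : ℝ) ≤ P := hP2
        _ = (P : ℝ) ^ 1 := (pow_one _).symm
        _ ≤ _ := pow_le_pow_right₀ (by linarith) (by omega)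
    have h6 : (P : ℝ) ^ (t - (m' + 1)) * 1 ≤
        (P : ℝ) ^ (t - (m' + 1)) * ((P : ℝ) ^ (m' + 1) * |d m'|) := by gcongr
    rw [mul_one] at h6
    refine le_trans ?_ h6
    rw [e3, mul_comm]
    gcongr
  have h7 : (P : ℝ) ^ K ≤ (P : ℝ) ^ (t - m) := pow_le_pow_right₀ (by linarith) (by omega)
  have h8 := abs_sub_abs_le_abs_sub ((P : ℝ) ^ t * d m') ((P : ℝ) ^ t * d m)
  rw [abs_sub_comm] at h8
  linarith

lemma bdd_scales {P K H t m : ℕ} (hP : 2 ≤ P) {d : ℕ → ℝ} (hmt : t < m + K + H)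
    (h1 : (P : ℝ) ^ m * |d m| ≤ 1) : |(P : ℝ) ^ t * d m| ≤ (P : ℝ) ^ (K + H) := by
  have hP2 : (2 : ℝ) ≤ P := by exact_mod_cast hP
  have hP0 : (0 : ℝ) < P := by linarith
  rw [abs_mul, abs_of_pos (pow_pos hP0 t)]
  calc (P : ℝ) ^ t * |d m| ≤ (P : ℝ) ^ (K + H + m) * |d m| := by
        gcongr
        · linarith
        · omega
    _ = (P : ℝ) ^ (K + H) * ((P : ℝ) ^ m * |d m|) := by rw [pow_add, mul_assoc]
    _ ≤ (P : ℝ) ^ (K + H) * 1 := by gcongr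
    _ = _ := mul_one _

lemma many_scales {P n : ℕ} (hP : 2 ≤ P) {L : Finset ℕ} {N : ℕ} (h1 : 4 ^ n ≤ N)
    (h2 : N ≤ 3 ^ n * P ^ L.card) : n * (Real.log (4 / 3) / Real.log P) ≤ L.card := by
  have hP1 : (1 : ℝ) < P := by exact_mod_cast (by omega : 1 < P)
  have hlP : 0 < Real.log P := Real.log_pos hP1
  have h3 : (4 : ℝ) ^ n ≤ 3 ^ n * (P : ℝ) ^ L.card := by exact_mod_cast h1.trans h2
  have h4 : Real.log ((4 : ℝ) ^ n) ≤ Real.log (3 ^ n * (P : ℝ) ^ L.card) :=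
    Real.log_le_log (by positivity) h3
  rw [Real.log_mul (by positivity) (by positivity), Real.log_pow, Real.log_pow, Real.log_pow] at h4
  rw [← mul_div_assoc, div_le_iff₀ hlP, Real.log_div (by norm_num) (by norm_num)]
  linarith

/-- the arithmetic of the counting -/
lemma rich_real {γ : ℝ} {n N H R r lc : ℕ} (hH0 : 0 < H) (hH : 4 * (R : ℝ) ≤ γ * H)
    (hN : (N : ℝ) ≤ 2 * n) (hlc : γ * n ≤ lc) (h : lc * H ≤ r * H + N * R) : γ * n / 2 ≤ r := by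
  have hH' : (0 : ℝ) < H := by exact_mod_cast hH0
  have h' : (lc : ℝ) * H ≤ r * H + N * R := by exact_mod_cast h
  have h1 : (N : ℝ) * R ≤ 2 * n * (γ * H / 4) := by
    have : (R : ℝ) ≤ γ * H / 4 := by linarith
    gcongr
  have h2 : γ * n * H ≤ lc * H := by gcongr
  have h3 : γ * n / 2 * H ≤ r * H := by nlinarith
  exact le_of_mul_le_mul_right h3 hH'

/-- **The deterministic theorem.** If some point of `A 0 0` has other points of `A 0 0` at a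
positive proportion of the scales, then `A i j` is `ε`-dense for a positive proportion of the pairs
`(i, j)`, this proportion not depending on `ε`. -/
theorem many_dense_scales_unif {P q : ℕ} (hP : 2 ≤ P) (hq : 2 ≤ q) (h : MulIndep P q) {γ₀ : ℝ}
    (hγ₀ : 0 < γ₀) :
    ∃ c : ℝ, 0 < c ∧ c ≤ 1 ∧ ∀ ε : ℝ, 0 < ε → ∃ n₀ : ℕ, ∀ n ≥ n₀, ∃ N J : ℕ, 1 ≤ N ∧ 1 ≤ J ∧
      ∀ A : ℕ → ℕ → Set Circ,
      (∀ i j, ∀ x ∈ A i j, P • x ∈ A (i + 1) j) → (∀ i j, ∀ x ∈ A i j, q • x ∈ A i (j + 1)) →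
      ∀ (x : Circ) (L : Finset ℕ), (∀ m ∈ L, m < n) → γ₀ * n ≤ L.card →
      (∀ m ∈ L, ∃ d : ℝ, 1 < (P : ℝ) ^ (m + 1) * |d| ∧ (P : ℝ) ^ m * |d| ≤ 1 ∧
        x + ((d : ℝ) : Circ) ∈ A 0 0) →
      ∃ T ⊆ Finset.range N ×ˢ Finset.range J,
        c * (N * J) ≤ T.card ∧ ∀ z ∈ T, EpsDense ε (A z.1 z.2) := by
  classical
  have hP1 : (1 : ℝ) < P := by exact_mod_cast (by omega : 1 < P)
  have hP0 : (0 : ℝ) < P := by linarith
  have hq1 : (1 : ℝ) < q := by exact_mod_cast (by omega : 1 < q)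
  have hlP : 0 < Real.log P := Real.log_pos hP1
  set θ := Real.logb P q with hθd
  have hθ0 : 0 < θ := Real.logb_pos hP1 hq1
  have hθ := theta_order hP hq h
  obtain ⟨c, hc, hgood⟩ := good_times hlP hθ
  obtain ⟨γ, hγ0, hγ⟩ : ∃ γ : ℝ, 0 < γ ∧ 2 * γ ≤ γ₀ := ⟨γ₀ / 2, by positivity, by linarith⟩
  refine ⟨min (c * γ ^ 2 / 192) 1, by positivity, min_le_right _ _, fun ε hε => ?_⟩
  obtain ⟨R, Λ₀, hΛ₀, hR⟩ := hgood ε hε
  obtain ⟨K, hK⟩ := pow_unbounded_of_one_lt Λ₀ hP1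
  obtain ⟨H, hH0, hH⟩ : ∃ H : ℕ, 0 < H ∧ 4 * (R : ℝ) ≤ γ * H := by
    obtain ⟨H, hH⟩ := exists_nat_ge (4 * (R : ℝ) / γ)
    refine ⟨H + 1, by omega, ?_⟩
    rw [div_le_iff₀ hγ0] at hH
    push_cast
    nlinarith
  obtain ⟨J₀, hJ₀⟩ := hR ((P : ℝ) ^ (K + H))
  obtain ⟨n₁, hn₁⟩ := exists_nat_ge (max (max ((K : ℝ) + H) (8 / γ)) (max (4 * θ * J₀ / γ) θ))
  refine ⟨max n₁ 1, fun n hn => ⟨n + K + H, ⌊((n + K + H : ℕ) : ℝ) / θ⌋₊ + 1,
    by have := (le_max_right n₁ 1).trans hn; omega, by omega,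
    fun A hp' hq' x L hLn hLcard hLd => ?_⟩⟩
  have hn1 : 1 ≤ n := (le_max_right _ _).trans hn
  have hnR : (n₁ : ℝ) ≤ n := by exact_mod_cast (le_max_left _ _).trans hn
  have b1 : (K : ℝ) + H ≤ n := ((le_max_left _ _).trans (le_max_left _ _)).trans (hn₁.trans hnR)
  have b2 : 8 / γ ≤ n := ((le_max_right _ _).trans (le_max_left _ _)).trans (hn₁.trans hnR)
  have b3 : 4 * θ * J₀ / γ ≤ n := ((le_max_left _ _).trans (le_max_right _ _)).trans (hn₁.trans hnR)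
  have b4 : θ ≤ n := ((le_max_right _ _).trans (le_max_right _ _)).trans (hn₁.trans hnR)
  rw [div_le_iff₀ hγ0] at b2 b3
  have hnpos : (0 : ℝ) < n := by exact_mod_cast hn1
  -- the scales
  obtain ⟨L', hL'L, hL'c, hL'sep⟩ := parity L
  have hL'γ : γ * n ≤ L'.card := by
    have h1 : (L.card : ℝ) ≤ 2 * L'.card := by exact_mod_cast hL'c
    have h2 : (2 * γ) * n ≤ γ₀ * n := by gcongr
    linarith
  have hex : ∀ m : ℕ, ∃ d : ℝ, m ∈ L → 1 < (P : ℝ) ^ (m + 1) * |d| ∧ (P : ℝ) ^ m * |d| ≤ 1 ∧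
      x + ((d : ℝ) : Circ) ∈ A 0 0 := by
    intro m
    by_cases hm : m ∈ L
    · obtain ⟨d, hd⟩ := hLd m hm
      exact ⟨d, fun _ => hd⟩
    · exact ⟨0, fun h => absurd h hm⟩
  choose d hd using hex
  -- the rich windows
  set N := n + K + H with hN
  have hN2 : (N : ℝ) ≤ 2 * n := by rw [hN]; push_cast; linarith
  set rich := (Finset.range N).filter fun t => R ≤ (win L' K H t).card with hrich
  have hrc := rich_count (L := L') (n := n) (K := K) (H := H) (N := N) (R := R)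
    (fun m hm => hLn m (hL'L hm)) le_rfl
  have hrich1 : γ * n / 2 ≤ rich.card := rich_real hH0 hH hN2 hL'γ hrc
  set rich' := rich.filter fun t : ℕ => γ * n / 4 ≤ t with hrich'
  have hrich2 : γ * n / 8 ≤ rich'.card := by
    have h1 := Finset.card_filter_add_card_filter_not (s := rich) (fun t : ℕ => γ * n / 4 ≤ t)
    have h2 : (rich.filter fun t : ℕ => ¬ γ * n / 4 ≤ t).card ≤ ⌊γ * n / 4⌋₊ + 1 := by
      have h3 : (rich.filter fun t : ℕ => ¬ γ * n / 4 ≤ t) ⊆ Finset.range (⌊γ * n / 4⌋₊ + 1) := by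
        intro t ht
        have h4 := (Finset.mem_filter.1 ht).2
        rw [not_le] at h4
        rw [Finset.mem_range, Nat.lt_succ_iff]
        exact Nat.le_floor h4.le
      simpa using Finset.card_le_card h3
    have h5 : ((rich.filter fun t : ℕ => ¬ γ * n / 4 ≤ t).card : ℝ) ≤ γ * n / 4 + 1 := by
      have h6 : ((rich.filter fun t : ℕ => ¬ γ * n / 4 ≤ t).card : ℝ) ≤
          ((⌊γ * n / 4⌋₊ + 1 : ℕ) : ℝ) := by exact_mod_cast h2
      push_cast at h6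
      have := Nat.floor_le (by positivity : 0 ≤ γ * n / 4)
      linarith
    have h7 : (rich'.card : ℝ) + ((rich.filter fun t : ℕ => ¬ γ * n / 4 ≤ t).card : ℝ) =
        rich.card := by
      rw [hrich']; exact_mod_cast h1
    linarith
  -- the good times of a rich line
  set Jt : ℕ → ℕ := fun t => ⌊(t : ℝ) / θ⌋₊ + 1 with hJt
  have hJt1 : ∀ t : ℕ, (t : ℝ) / θ ≤ Jt t := by
    intro t
    simp only [hJt]
    push_cast
    exact (Nat.lt_floor_add_one _).le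
  have hfl : ∀ t j : ℕ, j < Jt t → ⌊(j : ℝ) * θ⌋₊ ≤ t := by
    intro t j hj
    have h1 : j ≤ ⌊(t : ℝ) / θ⌋₊ := by simp only [hJt] at hj; omega
    have h2 : (j : ℝ) ≤ t / θ := (Nat.cast_le.2 h1).trans (Nat.floor_le (by positivity))
    rw [le_div_iff₀ hθ0] at h2
    have h3 : ((⌊(j : ℝ) * θ⌋₊ : ℕ) : ℝ) ≤ t := (Nat.floor_le (by positivity)).trans h2
    exact_mod_cast h3
  have hex2 : ∀ t : ℕ, ∃ T : Finset ℕ, t ∈ rich' → (T ⊆ Finset.range (Jt t) ∧ c * Jt t ≤ T.card ∧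
      ∀ j ∈ T, EpsDense ε (A (t - ⌊(j : ℝ) * θ⌋₊) j)) := by
    intro t
    by_cases ht : t ∈ rich'
    · have ht1 : R ≤ (win L' K H t).card := (Finset.mem_filter.1 (Finset.mem_filter.1 ht).1).2
      have ht2 : γ * n / 4 ≤ t := (Finset.mem_filter.1 ht).2
      have hJJ : J₀ ≤ Jt t := by
        have h1 : (J₀ : ℝ) ≤ t / θ := by
          rw [le_div_iff₀ hθ0]; linarith
        exact_mod_cast h1.trans (hJt1 t)
      obtain ⟨T, hT1, hT2, hT3⟩ := hJ₀ (Jt t) hJJ (win L' K H t) (fun m => (P : ℝ) ^ t * d m) ht1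
        (by
          intro m hm m' hm' hne
          obtain ⟨hmL, hmw⟩ := Finset.mem_filter.1 hm
          obtain ⟨hmL', hmw'⟩ := Finset.mem_filter.1 hm'
          obtain ⟨a1, a2, -⟩ := hd m (hL'L hmL)
          obtain ⟨a1', a2', -⟩ := hd m' (hL'L hmL')
          refine hK.le.trans ?_
          rcases lt_or_gt_of_ne hne with hlt | hlt
          · rw [abs_sub_comm]
            exact sep_scales hP (hL'sep m' hmL' m hmL hlt) hmw'.1 a2' a1
          · exact sep_scales hP (hL'sep m hmL m' hmL' hlt) hmw.1 a2 a1')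
        (by
          intro m hm
          obtain ⟨hmL, hmw⟩ := Finset.mem_filter.1 hm
          obtain ⟨a1, a2, -⟩ := hd m (hL'L hmL)
          exact bdd_scales hP hmw.2 a2)
      refine ⟨T, fun _ => ⟨hT1, hT2, fun j hj => ?_⟩⟩
      refine rich_line hP hq hp' hq' (x := x) (S := win L' K H t) (d := d) ?_ ?_ (hT3 j hj)
      · intro m hm
        obtain ⟨hmL, hmw⟩ := Finset.mem_filter.1 hm
        exact (hd m (hL'L hmL)).2.2
      · exact hfl t j (Finset.mem_range.1 (hT1 hj))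
    · exact ⟨∅, fun h => absurd h ht⟩
  choose T hT using hex2
  -- assemble
  set Jtot := ⌊(N : ℝ) / θ⌋₊ + 1 with hJtot
  have hNpos : 1 ≤ N := by omega
  set Φ : (Σ _t : ℕ, ℕ) → ℕ × ℕ := fun z => (z.1 - ⌊(z.2 : ℝ) * θ⌋₊, z.2) with hΦ
  refine ⟨(rich'.sigma T).image Φ, ?_, ?_, ?_⟩
  · intro z hz
    obtain ⟨⟨t, j⟩, htj, rfl⟩ := Finset.mem_image.1 hz
    rw [Finset.mem_sigma] at htj
    obtain ⟨ht, hj⟩ := htj
    simp only at ht hj
    have htN : t < N := Finset.mem_range.1 (Finset.mem_filter.1 (Finset.mem_filter.1 ht).1).1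
    have hjJ : j < Jt t := Finset.mem_range.1 ((hT t ht).1 hj)
    rw [Finset.mem_product, Finset.mem_range, Finset.mem_range]
    refine ⟨?_, ?_⟩
    · simp only [hΦ]; omega
    · simp only [hΦ]
      have h1 : Jt t ≤ Jtot := by
        simp only [hJt, hJtot]
        have : ⌊(t : ℝ) / θ⌋₊ ≤ ⌊(N : ℝ) / θ⌋₊ := by
          apply Nat.floor_le_floor
          have : (t : ℝ) ≤ N := by exact_mod_cast htN.le
          gcongr
        omega
      omega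
  · have hinj : Set.InjOn Φ (rich'.sigma T : Set (Σ _t : ℕ, ℕ)) := by
      rintro ⟨t, j⟩ htj ⟨t', j'⟩ htj' he
      rw [Finset.mem_coe, Finset.mem_sigma] at htj htj'
      have h1 := hfl t j (Finset.mem_range.1 ((hT t htj.1).1 htj.2))
      have h2 := hfl t' j' (Finset.mem_range.1 ((hT t' htj'.1).1 htj'.2))
      simp only [hΦ, Prod.mk.injEq] at he
      obtain ⟨he1, rfl⟩ := he
      have : t = t' := by omega
      subst this
      rfl
    rw [Finset.card_image_of_injOn hinj, Finset.card_sigma]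
    push_cast
    have h1 : ∀ t ∈ rich', c * (γ * n / (4 * θ)) ≤ (T t).card := by
      intro t ht
      have ht2 : γ * n / 4 ≤ t := (Finset.mem_filter.1 ht).2
      have h2 : γ * n / (4 * θ) ≤ Jt t := by
        refine le_trans ?_ (hJt1 t)
        rw [div_le_div_iff₀ (by positivity) hθ0]
        nlinarith
      exact (mul_le_mul_of_nonneg_left h2 hc.le).trans (hT t ht).2.1
    have h2 : (rich'.card : ℝ) * (c * (γ * n / (4 * θ))) ≤ ∑ t ∈ rich', ((T t).card : ℝ) := by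
      rw [← nsmul_eq_mul]
      exact Finset.card_nsmul_le_sum _ _ _ h1
    refine le_trans ?_ h2
    have h3 : (γ * n / 8) * (c * (γ * n / (4 * θ))) ≤ (rich'.card : ℝ) * (c * (γ * n / (4 * θ))) :=
      mul_le_mul_of_nonneg_right hrich2 (by positivity)
    refine le_trans ?_ h3
    have h4 : (Jtot : ℝ) ≤ 3 * n / θ := by
      rw [hJtot]
      push_cast
      have h5 : ((⌊(N : ℝ) / θ⌋₊ : ℕ) : ℝ) ≤ N / θ := Nat.floor_le (by positivity)
      have h6 : (N : ℝ) / θ ≤ 2 * n / θ := by gcongr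
      have h7 : 1 ≤ n / θ := by rw [le_div_iff₀ hθ0]; linarith
      have h8 : 3 * n / θ = 2 * n / θ + n / θ := by ring
      linarith
    calc min (c * γ ^ 2 / 192) 1 * ((N : ℝ) * Jtot)
        ≤ c * γ ^ 2 / 192 * ((2 * n) * (3 * n / θ)) := by
          refine mul_le_mul (min_le_left _ _) ?_ (by positivity) (by positivity)
          exact mul_le_mul hN2 h4 (by positivity) (by positivity)
      _ = (γ * n / 8) * (c * (γ * n / (4 * θ))) := by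
          field_simp
          ring
  · intro z hz
    obtain ⟨⟨t, j⟩, htj, rfl⟩ := Finset.mem_image.1 hz
    rw [Finset.mem_sigma] at htj
    exact (hT t htj.1).2.2 j htj.2

/-- The same with the box depending on the set. -/
theorem many_dense_scales {P q : ℕ} (hP : 2 ≤ P) (hq : 2 ≤ q) (h : MulIndep P q) {γ₀ : ℝ}
    (hγ₀ : 0 < γ₀) :
    ∃ c : ℝ, 0 < c ∧ c ≤ 1 ∧ ∀ ε : ℝ, 0 < ε → ∃ n₀ : ℕ, ∀ n ≥ n₀, ∀ A : ℕ → ℕ → Set Circ,
      (∀ i j, ∀ x ∈ A i j, P • x ∈ A (i + 1) j) → (∀ i j, ∀ x ∈ A i j, q • x ∈ A i (j + 1)) →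
      ∀ (x : Circ) (L : Finset ℕ), (∀ m ∈ L, m < n) → γ₀ * n ≤ L.card →
      (∀ m ∈ L, ∃ d : ℝ, 1 < (P : ℝ) ^ (m + 1) * |d| ∧ (P : ℝ) ^ m * |d| ≤ 1 ∧
        x + ((d : ℝ) : Circ) ∈ A 0 0) →
      ∃ N J : ℕ, 1 ≤ N ∧ 1 ≤ J ∧ ∃ T ⊆ Finset.range N ×ˢ Finset.range J,
        c * (N * J) ≤ T.card ∧ ∀ z ∈ T, EpsDense ε (A z.1 z.2) := by
  obtain ⟨c, hc0, hc1, hc⟩ := many_dense_scales_unif hP hq h hγ₀
  refine ⟨c, hc0, hc1, fun ε hε => ?_⟩
  obtain ⟨n₀, hn₀⟩ := hc ε hε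
  refine ⟨n₀, fun n hn A hp' hq' x L h1 h2 h3 => ?_⟩
  obtain ⟨N, J, hN, hJ, H⟩ := hn₀ n hn
  exact ⟨N, J, hN, hJ, H A hp' hq' x L h1 h2 h3⟩

/-- The version for large separated sets, with the box depending only on `n` and `ε`. -/
theorem many_dense_unif {P q : ℕ} (hP : 2 ≤ P) (hq : 2 ≤ q) (h : MulIndep P q) :
    ∃ c : ℝ, 0 < c ∧ c ≤ 1 ∧ ∀ ε : ℝ, 0 < ε → ∃ n₀ : ℕ, ∀ n ≥ n₀, ∃ N J : ℕ, 1 ≤ N ∧ 1 ≤ J ∧
      ∀ A : ℕ → ℕ → Set Circ,
      (∀ i j, ∀ x ∈ A i j, P • x ∈ A (i + 1) j) → (∀ i j, ∀ x ∈ A i j, q • x ∈ A i (j + 1)) →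
      ∀ X : Finset Circ, (X : Set Circ) ⊆ A 0 0 → 4 ^ n ≤ X.card →
      (∀ x ∈ X, ∀ y ∈ X, x ≠ y → (1 / (P : ℝ)) ^ n ≤ dist x y) →
      ∃ T ⊆ Finset.range N ×ˢ Finset.range J,
        c * (N * J) ≤ T.card ∧ ∀ z ∈ T, EpsDense ε (A z.1 z.2) := by
  have hP1 : (1 : ℝ) < P := by exact_mod_cast (by omega : 1 < P)
  have hlP : 0 < Real.log P := Real.log_pos hP1
  obtain ⟨c, hc0, hc1, hc⟩ := many_dense_scales_unif hP hq h
    (γ₀ := Real.log (4 / 3) / Real.log P) (by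
      have : 0 < Real.log (4 / 3 : ℝ) := Real.log_pos (by norm_num)
      positivity)
  refine ⟨c, hc0, hc1, fun ε hε => ?_⟩
  obtain ⟨n₀, hn₀⟩ := hc ε hε
  refine ⟨n₀, fun n hn => ?_⟩
  obtain ⟨N, J, hN, hJ, H⟩ := hn₀ n hn
  refine ⟨N, J, hN, hJ, fun A hp' hq' X hXA hXc hsep => ?_⟩
  have hXne : X.Nonempty := by
    rw [← Finset.card_pos]
    exact lt_of_lt_of_le (by positivity) hXc
  obtain ⟨x, hx, L, hLn, hLc, hLd⟩ := tree (by omega : 1 ≤ P) hXne hsep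
  have hLcard := many_scales hP hXc hLc
  refine H A hp' hq' x L hLn (by linarith) fun m hm => ?_
  obtain ⟨d, h1, h2, h3⟩ := hLd m hm
  exact ⟨d, h1, h2.le, hXA h3⟩

/-- The version for large separated sets. -/
theorem many_dense {P q : ℕ} (hP : 2 ≤ P) (hq : 2 ≤ q) (h : MulIndep P q) :
    ∃ c : ℝ, 0 < c ∧ c ≤ 1 ∧ ∀ ε : ℝ, 0 < ε → ∃ n₀ : ℕ, ∀ n ≥ n₀, ∀ A : ℕ → ℕ → Set Circ,
      (∀ i j, ∀ x ∈ A i j, P • x ∈ A (i + 1) j) → (∀ i j, ∀ x ∈ A i j, q • x ∈ A i (j + 1)) →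
      ∀ X : Finset Circ, (X : Set Circ) ⊆ A 0 0 → 4 ^ n ≤ X.card →
      (∀ x ∈ X, ∀ y ∈ X, x ≠ y → (1 / (P : ℝ)) ^ n ≤ dist x y) →
      ∃ N J : ℕ, 1 ≤ N ∧ 1 ≤ J ∧ ∃ T ⊆ Finset.range N ×ˢ Finset.range J,
        c * (N * J) ≤ T.card ∧ ∀ z ∈ T, EpsDense ε (A z.1 z.2) := by
  have hP1 : (1 : ℝ) < P := by exact_mod_cast (by omega : 1 < P)
  have hlP : 0 < Real.log P := Real.log_pos hP1
  obtain ⟨c, hc0, hc1, hc⟩ := many_dense_scales hP hq h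
    (γ₀ := Real.log (4 / 3) / Real.log P) (by
      have : 0 < Real.log (4 / 3 : ℝ) := Real.log_pos (by norm_num)
      positivity)
  refine ⟨c, hc0, hc1, fun ε hε => ?_⟩
  obtain ⟨n₀, hn₀⟩ := hc ε hε
  refine ⟨n₀, fun n hn A hp' hq' X hXA hXc hsep => ?_⟩
  have hXne : X.Nonempty := by
    rw [← Finset.card_pos]
    exact lt_of_lt_of_le (by positivity) hXc
  obtain ⟨x, hx, L, hLn, hLc, hLd⟩ := tree (by omega : 1 ≤ P) hXne hsep
  have hLcard := many_scales hP hXc hLc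
  refine hn₀ n hn A hp' hq' x L hLn (by linarith) fun m hm => ?_
  obtain ⟨d, h1, h2, h3⟩ := hLd m hm
  exact ⟨d, h1, h2.le, hXA h3⟩

end Pool.Agent.Helper28K1.ZD
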