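import Mathlib

/-!
A frequency lemma for two commuting maps.
-/

set_option autoImplicit false

open MeasureTheory Filter Topology Set

namespace Pool.Agent.Helper28K1.ZD

/-- greedy covering by stretches of length at most `K`, starting at marked times -/
lemma greedy {f u : ℕ → ℝ} (hf : ∀ n, 0 ≤ f n) (hu : ∀ n, u n ≤ 1) {c : ℝ} (hc : 0 ≤ c) {K : ℕ}
    (h : ∀ n, u n = 0 ∨ ∃ N, 1 ≤ N ∧ N ≤ K ∧ c * N ≤ ∑ m ∈ Finset.range N, f (n + m)) :
    ∀ M n : ℕ, c * ((∑ m ∈ Finset.range M, u (n + m)) - K) ≤ ∑ m ∈ Finset.range M, f (n + m) := by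
  intro M
  induction M using Nat.strong_induction_on with
  | _ M ih =>
    intro n
    rcases Nat.eq_zero_or_pos M with hM | hM
    · subst hM
      simp only [Finset.range_zero, Finset.sum_empty, zero_sub]
      have : (0 : ℝ) ≤ K := Nat.cast_nonneg K
      nlinarith
    have hone : ∀ N : ℕ, ∀ n : ℕ, ∑ m ∈ Finset.range N, u (n + m) ≤ N := by
      intro N n
      calc ∑ m ∈ Finset.range N, u (n + m) ≤ ∑ _m ∈ Finset.range N, (1 : ℝ) :=
            Finset.sum_le_sum fun m _ => hu _
        _ = N := by simp
    rcases h n with h0 | ⟨N, hN1, hN2, hN3⟩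
    · have h1 := ih (M - 1) (by omega) (n + 1)
      have h2 : M = 1 + (M - 1) := by omega
      rw [h2, Finset.sum_range_add, Finset.sum_range_add]
      simp only [Finset.sum_range_one, add_zero]
      have e : ∀ g : ℕ → ℝ, ∑ x ∈ Finset.range (M - 1), g (n + (1 + x)) =
          ∑ x ∈ Finset.range (M - 1), g (n + 1 + x) :=
        fun g => Finset.sum_congr rfl fun m _ => by rw [add_assoc]
      rw [e, e, h0, zero_add]
      linarith [hf n]
    · rcases Nat.lt_or_ge M N with hMN | hMN
      · have h1 : (∑ m ∈ Finset.range M, u (n + m)) - K ≤ 0 := by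
          have h2 := hone M n
          have h3 : (M : ℝ) ≤ K := by exact_mod_cast (by omega : M ≤ K)
          linarith
        exact (mul_nonpos_of_nonneg_of_nonpos hc h1).trans (Finset.sum_nonneg fun m _ => hf _)
      · have h1 := ih (M - N) (by omega) (n + N)
        have h2 : M = N + (M - N) := by omega
        rw [h2, Finset.sum_range_add, Finset.sum_range_add]
        have e : ∀ g : ℕ → ℝ, ∑ x ∈ Finset.range (M - N), g (n + (N + x)) =
            ∑ x ∈ Finset.range (M - N), g (n + N + x) :=
          fun g => Finset.sum_congr rfl fun m _ => by rw [add_assoc]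
        rw [e, e]
        have h3 := mul_le_mul_of_nonneg_left (hone N n) hc
        nlinarith

variable {Ω : Type*} [MeasurableSpace Ω]

/-- visits -/
noncomputable def vis (σ : Ω → Ω) (G : Set Ω) (N : ℕ) (ω : Ω) : ℝ :=
  ∑ m ∈ Finset.range N, G.indicator (fun _ => (1 : ℝ)) (σ^[m] ω)

lemma measurable_vis {P : Measure Ω} {σ : Ω → Ω} (hσ : MeasurePreserving σ P P) {G : Set Ω}
    (hG : MeasurableSet G) (N : ℕ) : Measurable (vis σ G N) :=
  Finset.measurable_fun_sum _ fun m _ =>
    (measurable_const.indicator hG).comp (hσ.iterate m).measurable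

lemma integral_vis {P : Measure Ω} [IsProbabilityMeasure P] {σ : Ω → Ω}
    (hσ : MeasurePreserving σ P P) {G : Set Ω} (hG : MeasurableSet G) (N : ℕ) :
    Integrable (vis σ G N) P ∧ ∫ ω, vis σ G N ω ∂P = N * P.real G := by
  have hi : ∀ m : ℕ, Integrable (fun ω => G.indicator (fun _ => (1 : ℝ)) (σ^[m] ω)) P := by
    intro m
    refine (integrable_const (1 : ℝ)).mono'
      ((measurable_const.indicator hG).comp (hσ.iterate m).measurable).aestronglyMeasurable ?_
    refine Eventually.of_forall fun ω => ?_
    by_cases hω : σ^[m] ω ∈ G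
    · simp [hω]
    · simp [hω]
  refine ⟨integrable_finsetSum _ fun m _ => hi m, ?_⟩
  unfold vis
  rw [integral_finsetSum _ fun m _ => hi m]
  have h1 : ∀ m : ℕ, ∫ ω, G.indicator (fun _ => (1 : ℝ)) (σ^[m] ω) ∂P = P.real G := by
    intro m
    have h2 : (fun ω => G.indicator (fun _ => (1 : ℝ)) (σ^[m] ω)) =
        (σ^[m] ⁻¹' G).indicator (fun _ => (1 : ℝ)) := by
      ext ω
      by_cases hω : σ^[m] ω ∈ G
      · rw [indicator_of_mem hω, indicator_of_mem (show ω ∈ σ^[m] ⁻¹' G from hω)]
      · rw [indicator_of_notMem hω, indicator_of_notMem (show ω ∉ σ^[m] ⁻¹' G from hω)]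
    have hpm : MeasurableSet (σ^[m] ⁻¹' G) := (hσ.iterate m).measurable hG
    rw [h2, integral_indicator hpm]
    simp only [integral_const, MeasurableSet.univ, measureReal_restrict_apply, univ_inter,
      smul_eq_mul, mul_one]
    rw [measureReal_def, measureReal_def, (hσ.iterate m).measure_preimage hG.nullMeasurableSet]
  simp_rw [h1]
  rw [Finset.sum_const, Finset.card_range, nsmul_eq_mul]

/-- **The frequency lemma**, without invariance. -/
theorem freq {P : Measure Ω} [IsProbabilityMeasure P] {σ : Ω → Ω} (hσ : MeasurePreserving σ P P)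
    {C G : Set Ω} (hC : MeasurableSet C) (hG : MeasurableSet G) {c : ℝ} (hc : 0 ≤ c)
    (h : ∀ ω ∈ C, ∃ N : ℕ, 1 ≤ N ∧ c * N ≤ vis σ G N ω) : c * P.real C ≤ P.real G := by
  set D : ℕ → Set Ω := fun K => C ∩ ⋃ N ∈ Finset.Icc 1 K, {ω | c * N ≤ vis σ G N ω} with hD
  have hDm : ∀ K, MeasurableSet (D K) := fun K =>
    hC.inter (Finset.measurableSet_biUnion _ fun N _ =>
      measurableSet_le measurable_const (measurable_vis hσ hG N))
  have hDmono : Monotone D := by
    intro K K' hK
    refine inter_subset_inter_right _ ?_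
    refine biUnion_subset_biUnion_left ?_
    intro N hN
    have hN' : N ∈ Finset.Icc 1 K := hN
    rw [Finset.mem_Icc] at hN'
    show N ∈ Finset.Icc 1 K'
    rw [Finset.mem_Icc]
    exact ⟨hN'.1, hN'.2.trans hK⟩
  have hDU : ⋃ K, D K = C := by
    apply Subset.antisymm
    · exact iUnion_subset fun K => inter_subset_left
    · intro ω hω
      obtain ⟨N, hN1, hN2⟩ := h ω hω
      rw [mem_iUnion]
      refine ⟨N, hω, ?_⟩
      rw [mem_iUnion₂]
      exact ⟨N, Finset.mem_Icc.2 ⟨hN1, le_rfl⟩, hN2⟩
  have hDlim : Tendsto (fun K => P.real (D K)) atTop (𝓝 (P.real C)) := by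
    have h1 := tendsto_measure_iUnion_atTop (μ := P) hDmono
    rw [hDU] at h1
    exact (ENNReal.tendsto_toReal (measure_ne_top _ _)).comp h1
  have key : ∀ K : ℕ, c * P.real (D K) ≤ P.real G := by
    intro K
    have hM : ∀ M : ℕ, c * (M * P.real (D K) - K) ≤ M * P.real G := by
      intro M
      obtain ⟨i1, e1⟩ := integral_vis hσ hG M
      obtain ⟨i2, e2⟩ := integral_vis hσ (hDm K) M
      rw [← e1, ← e2]
      have h1 : ∫ ω, c * (vis σ (D K) M ω - K) ∂P ≤ ∫ ω, vis σ G M ω ∂P := by
        refine integral_mono ((i2.sub (integrable_const _)).const_mul c) i1 ?_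
        intro ω
        have h2 := greedy (f := fun n => G.indicator (fun _ => (1 : ℝ)) (σ^[n] ω))
          (u := fun n => (D K).indicator (fun _ => (1 : ℝ)) (σ^[n] ω))
          (fun n => indicator_nonneg (fun _ _ => zero_le_one) _)
          (fun n => by
            by_cases hn : σ^[n] ω ∈ D K
            · simp [hn]
            · simp [hn]) hc (K := K) ?_ M 0
        · simpa [vis] using h2
        · intro n
          by_cases hn : σ^[n] ω ∈ D K
          · right
            obtain ⟨N, hN, hN2⟩ := mem_iUnion₂.1 hn.2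
            have hN' := Finset.mem_Icc.1 hN
            refine ⟨N, hN'.1, hN'.2, ?_⟩
            have hN3 : c * N ≤ vis σ G N (σ^[n] ω) := hN2
            refine hN3.trans (le_of_eq ?_)
            unfold vis
            refine Finset.sum_congr rfl fun m _ => ?_
            rw [← Function.iterate_add_apply, add_comm m n]
          · left
            exact indicator_of_notMem hn _
      rw [integral_const_mul, integral_sub i2 (integrable_const _)] at h1
      simpa using h1
    have hlim1 : Tendsto (fun M : ℕ => c * (P.real (D K) - (K : ℝ) / M)) atTop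
        (𝓝 (c * (P.real (D K) - 0))) :=
      (tendsto_const_nhds.sub (tendsto_const_div_atTop_nhds_zero_nat _)).const_mul c
    rw [sub_zero] at hlim1
    refine le_of_tendsto hlim1 ?_
    filter_upwards [eventually_ge_atTop 1] with M hM1
    have hMR : (0 : ℝ) < M := by exact_mod_cast hM1
    have h1 := hM M
    have h2 : c * (P.real (D K) - (K : ℝ) / M) = c * (M * P.real (D K) - K) / M := by
      field_simp
    rw [h2, div_le_iff₀ hMR]
    linarith
  exact le_of_tendsto (hDlim.const_mul c) (Eventually.of_forall key)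

/-- **The frequency lemma for two commuting maps.** -/
theorem freq_two {P : Measure Ω} [IsProbabilityMeasure P] {α β : Ω → Ω}
    (hα : MeasurePreserving α P P) (hβ : MeasurePreserving β P P)
    {C G : Set Ω} (hC : MeasurableSet C) (hG : MeasurableSet G) (hCα : ∀ ω ∈ C, α ω ∈ C)
    (hCβ : ∀ ω ∈ C, β ω ∈ C) {c : ℝ} (hc : 0 ≤ c)
    (h : ∀ ω ∈ C, ∃ N J : ℕ, 1 ≤ N ∧ 1 ≤ J ∧ ∃ T ⊆ Finset.range N ×ˢ Finset.range J,
      c * (N * J) ≤ T.card ∧ ∀ z ∈ T, α^[z.1] (β^[z.2] ω) ∈ G) :
    (c / 2) * (c / 2) * P.real C ≤ P.real (C ∩ G) := by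
  classical
  set C₁ : Set Ω := C ∩ ⋃ N : ℕ, ⋃ _ : 1 ≤ N, {ω | c / 2 * N ≤ vis α G N ω} with hC₁
  have hC₁m : MeasurableSet C₁ := hC.inter (MeasurableSet.iUnion fun N => MeasurableSet.iUnion
    fun _ => measurableSet_le measurable_const (measurable_vis hα hG N))
  have hαn : ∀ n : ℕ, ∀ ω ∈ C, α^[n] ω ∈ C := by
    intro n
    induction n with
    | zero => intro ω hω; exact hω
    | succ n ih => intro ω hω; rw [Function.iterate_succ_apply]; exact ih _ (hCα ω hω)
  have hβn : ∀ n : ℕ, ∀ ω ∈ C, β^[n] ω ∈ C := by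
    intro n
    induction n with
    | zero => intro ω hω; exact hω
    | succ n ih => intro ω hω; rw [Function.iterate_succ_apply]; exact ih _ (hCβ ω hω)
  have h1 : c / 2 * P.real C ≤ P.real C₁ := by
    refine freq hβ hC hC₁m (by positivity) ?_
    intro ω hω
    obtain ⟨N, J, hN, hJ, T, hT, hTc, hTG⟩ := h ω hω
    have hNR : (0 : ℝ) < N := by exact_mod_cast hN
    refine ⟨J, hJ, ?_⟩
    set B := (Finset.range J).filter fun j => c / 2 * N ≤ (T.filter fun z => z.2 = j).card with hB
    have h2 : (T.card : ℝ) ≤ B.card * N + J * (c / 2 * N) := by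
      have h3 : T.card = ∑ j ∈ Finset.range J, (T.filter fun z => z.2 = j).card := by
        refine Finset.card_eq_sum_card_fiberwise fun z hz => ?_
        exact (Finset.mem_product.1 (hT hz)).2
      have h4 : ∀ j ∈ Finset.range J, ((T.filter fun z => z.2 = j).card : ℝ) ≤
          (if c / 2 * N ≤ (T.filter fun z => z.2 = j).card then (N : ℝ) else 0) + c / 2 * N := by
        intro j _
        split_ifs with hj
        · have h5 : (T.filter fun z => z.2 = j).card ≤ N := by
            have := Finset.card_le_card_of_injOn (s := T.filter fun z => z.2 = j)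
              (t := Finset.range N) (fun z => z.1) (by
                intro z hz
                exact (Finset.mem_product.1 (hT (Finset.mem_filter.1 hz).1)).1) (by
                intro z hz z' hz' he
                have e1 := (Finset.mem_filter.1 hz).2
                have e2 := (Finset.mem_filter.1 hz').2
                exact Prod.ext he (e1.trans e2.symm))
            simpa using this
          have h6 : ((T.filter fun z => z.2 = j).card : ℝ) ≤ N := by exact_mod_cast h5
          have : 0 ≤ c / 2 * N := by positivity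
          linarith
        · push Not at hj
          linarith
      rw [h3]
      push_cast
      refine (Finset.sum_le_sum h4).trans ?_
      rw [Finset.sum_add_distrib, Finset.sum_const, Finset.card_range, ← Finset.sum_filter,
        Finset.sum_const, nsmul_eq_mul, nsmul_eq_mul]
    have h3 : c / 2 * J ≤ B.card := by
      have h4 : c * (N * J) ≤ B.card * N + J * (c / 2 * N) := hTc.trans h2
      have h5 : (c / 2 * J) * N ≤ B.card * N := by nlinarith
      exact le_of_mul_le_mul_right h5 hNR
    refine h3.trans ?_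
    unfold vis
    have h6 : (B.card : ℝ) = ∑ j ∈ B, C₁.indicator (fun _ => (1 : ℝ)) (β^[j] ω) := by
      have h7 : ∀ j ∈ B, C₁.indicator (fun _ => (1 : ℝ)) (β^[j] ω) = 1 := by
        intro j hj
        refine indicator_of_mem ?_ _
        refine ⟨hβn j ω hω, ?_⟩
        rw [mem_iUnion₂]
        refine ⟨N, hN, ?_⟩
        have h8 := (Finset.mem_filter.1 hj).2
        refine h8.trans ?_
        unfold vis
        have h9 : ((T.filter fun z => z.2 = j).card : ℝ) =
            ∑ z ∈ T.filter fun z => z.2 = j, G.indicator (fun _ => (1 : ℝ)) (α^[z.1] (β^[j] ω)) := by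
          rw [Finset.sum_congr rfl fun z hz => indicator_of_mem (by
            have e1 := (Finset.mem_filter.1 hz)
            have := hTG z e1.1
            rwa [e1.2] at this) _]
          simp
        rw [h9]
        have h10 := Finset.sum_image (f := fun i : ℕ =>
          G.indicator (fun _ => (1 : ℝ)) (α^[i] (β^[j] ω)))
          (s := T.filter fun z => z.2 = j) (g := fun z : ℕ × ℕ => z.1) (by
            intro z hz z' hz' he
            have e1 := (Finset.mem_filter.1 hz).2
            have e2 := (Finset.mem_filter.1 hz').2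
            exact Prod.ext he (e1.trans e2.symm))
        rw [← h10]
        refine Finset.sum_le_sum_of_subset_of_nonneg ?_ fun _ _ _ =>
          indicator_nonneg (fun _ _ => zero_le_one) _
        intro i hi
        obtain ⟨z, hz, rfl⟩ := Finset.mem_image.1 hi
        exact (Finset.mem_product.1 (hT (Finset.mem_filter.1 hz).1)).1
      rw [Finset.sum_congr rfl h7]
      simp
    rw [h6]
    exact Finset.sum_le_sum_of_subset_of_nonneg (Finset.filter_subset _ _) fun _ _ _ =>
      indicator_nonneg (fun _ _ => zero_le_one) _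
  have h2 : c / 2 * P.real C₁ ≤ P.real (C ∩ G) := by
    refine freq hα hC₁m (hC.inter hG) (by positivity) ?_
    rintro ω ⟨hωC, hω⟩
    obtain ⟨N, hN, hN2⟩ := mem_iUnion₂.1 hω
    refine ⟨N, hN, ?_⟩
    have hN3 : c / 2 * N ≤ vis α G N ω := hN2
    refine hN3.trans (le_of_eq ?_)
    unfold vis
    refine Finset.sum_congr rfl fun m _ => ?_
    by_cases hm : α^[m] ω ∈ G
    · rw [indicator_of_mem hm, indicator_of_mem (show α^[m] ω ∈ C ∩ G from ⟨hαn m ω hωC, hm⟩)]
    · rw [indicator_of_notMem hm, indicator_of_notMem (show α^[m] ω ∉ C ∩ G from fun h => hm h.2)]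
  calc c / 2 * (c / 2) * P.real C = c / 2 * (c / 2 * P.real C) := by ring
    _ ≤ c / 2 * P.real C₁ := mul_le_mul_of_nonneg_left h1 (by positivity)
    _ ≤ _ := h2

end Pool.Agent.Helper28K1.ZD
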