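import Mathlib
import Pool.Agent.Helper28K1.ZD.Det
import Pool.Agent.Helper28K1.ZD.Freq2
import Pool.Agent.Helper28K1.RF.NonFree

/-!
Random closed sets over an arbitrary base: upper box dimension zero or everything.
-/

set_option autoImplicit false

open MeasureTheory Filter Topology Set

namespace Pool.Agent.Helper28K1.ZD

open Pool.Agent.H705R2 Pool.Agent.W765.Sta

/-- `A` contains an `r`-separated set of at least `N` points -/
def Sep (A : Set Circ) (N : ℕ) (r : ℝ) : Prop :=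
  ∃ X : Finset Circ, (X : Set Circ) ⊆ A ∧ N ≤ X.card ∧ ∀ x ∈ X, ∀ y ∈ X, x ≠ y → r ≤ dist x y

lemma sep_iff {A : Set Circ} {N : ℕ} {r : ℝ} (hr : 0 < r) :
    Sep A N r ↔ ∃ z : Fin N → Circ, (∀ i, z i ∈ A) ∧ ∀ i j, i ≠ j → r ≤ dist (z i) (z j) := by
  classical
  constructor
  · rintro ⟨X, hXA, hXc, hX⟩
    obtain ⟨Y, hYX, hYc⟩ := Finset.exists_subset_card_eq hXc
    let e := Y.equivFinOfCardEq hYc
    refine ⟨fun i => (e.symm i : Circ), fun i => hXA (hYX (e.symm i).2), fun i j hij => ?_⟩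
    refine hX _ (hYX (e.symm i).2) _ (hYX (e.symm j).2) ?_
    intro h
    exact hij (e.symm.injective (Subtype.ext h))
  · rintro ⟨z, hzA, hz⟩
    have hinj : Function.Injective z := by
      intro i j hij
      by_contra hne
      have h1 := hz i j hne
      rw [hij, dist_self] at h1
      linarith
    refine ⟨Finset.univ.image z, ?_, ?_, ?_⟩
    · intro x hx
      rw [Finset.mem_coe, Finset.mem_image] at hx
      obtain ⟨i, -, rfl⟩ := hx
      exact hzA i
    · rw [Finset.card_image_of_injective _ hinj, Finset.card_univ, Fintype.card_fin]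
    · intro x hx y hy hne
      rw [Finset.mem_image] at hx hy
      obtain ⟨i, -, rfl⟩ := hx
      obtain ⟨j, -, rfl⟩ := hy
      exact hz i j fun h => hne (by rw [h])

lemma Sep.mono {A : Set Circ} {N N' : ℕ} {r : ℝ} (h : Sep A N r) (hN : N' ≤ N) : Sep A N' r := by
  obtain ⟨X, h1, h2, h3⟩ := h
  exact ⟨X, h1, hN.trans h2, h3⟩

/-- multiplication by `k` is expanding on small sets -/
lemma dist_smul {k : ℕ} (hk : 1 ≤ k) {x y : Circ} (h : dist x y < 1 / (2 * k)) :
    dist (k • x) (k • y) = k * dist x y := by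
  have hk0 : (0 : ℝ) < k := by exact_mod_cast hk
  obtain ⟨r, hr, hrn⟩ := Pool.Agent.H847R3.XpXq.exists_rep_norm (x - y)
  rw [dist_eq_norm] at h
  rw [dist_eq_norm, dist_eq_norm, ← smul_sub, ← hr, ← AddCircle.coe_nsmul, nsmul_eq_mul]
  have h1 : |(k : ℝ) * r| = k * |r| := by rw [abs_mul, abs_of_pos hk0]
  have h2 : k * |r| ≤ 1 / 2 := by
    rw [← hrn, lt_div_iff₀ (by positivity)] at h
    linarith
  rw [hr, ← hrn, ← h1]
  refine (AddCircle.norm_coe_eq_abs_iff (1 : ℝ) one_ne_zero).2 ?_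
  rw [h1, abs_one]
  exact h2

/-- separated sets are pushed forward, up to a constant factor -/
lemma exists_push {k : ℕ} (hk : 1 ≤ k) : ∃ κ : ℕ, ∀ (A B : Set Circ) (N : ℕ) (r : ℝ),
    (∀ x ∈ A, k • x ∈ B) → Sep A (κ * N) r → Sep B N r := by
  classical
  have hk0 : (0 : ℝ) < k := by exact_mod_cast hk
  obtain ⟨t, htfin, hcov⟩ := Metric.totallyBounded_iff.1
    (isCompact_univ (X := Circ)).totallyBounded (1 / (4 * k)) (by positivity)
  lift t to Finset Circ using htfin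
  refine ⟨t.card, fun A B N r hAB h => ?_⟩
  obtain ⟨X, hXA, hXc, hX⟩ := h
  have htne : t.Nonempty := by
    obtain ⟨z, hz, -⟩ := mem_iUnion₂.1 (hcov (mem_univ (0 : Circ)))
    exact ⟨z, hz⟩
  have hch : ∀ y : Circ, ∃ z ∈ t, dist y z < 1 / (4 * k) := by
    intro y
    obtain ⟨z, hz, hyz⟩ := mem_iUnion₂.1 (hcov (mem_univ y))
    exact ⟨z, hz, hyz⟩
  choose f hft hf using hch
  obtain ⟨z, hz, hzc⟩ := Finset.exists_le_card_fiber_of_mul_le_card_of_maps_to
    (s := X) (t := t) (f := f) (n := N) (fun x _ => hft x) htne hXc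
  set Y := X.filter fun x => f x = z with hY
  have hdist : ∀ x ∈ Y, ∀ y ∈ Y, dist (k • x) (k • y) = k * dist x y := by
    intro x hx y hy
    refine dist_smul hk ?_
    have h1 := hf x
    have h2 := hf y
    rw [(Finset.mem_filter.1 hx).2] at h1
    rw [(Finset.mem_filter.1 hy).2] at h2
    calc dist x y ≤ dist x z + dist y z := dist_triangle_right _ _ _
      _ < 1 / (4 * k) + 1 / (4 * k) := add_lt_add h1 h2
      _ = 1 / (2 * k) := by field_simp; norm_num
  have hinj : Set.InjOn (fun x : Circ => k • x) (Y : Set Circ) := by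
    intro x hx y hy hxy
    have h1 := hdist x hx y hy
    simp only at hxy
    rw [hxy, dist_self] at h1
    have h2 : dist x y = 0 := by
      rcases mul_eq_zero.1 h1.symm with h | h
      · exact absurd h hk0.ne'
      · exact h
    exact dist_eq_zero.1 h2
  refine ⟨Y.image fun x => k • x, ?_, ?_, ?_⟩
  · intro x hx
    rw [Finset.mem_coe, Finset.mem_image] at hx
    obtain ⟨y, hy, rfl⟩ := hx
    exact hAB y (hXA (Finset.mem_filter.1 hy).1)
  · rw [Finset.card_image_of_injOn hinj]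
    exact hzc
  · intro x hx y hy hne
    rw [Finset.mem_image] at hx hy
    obtain ⟨x', hx', rfl⟩ := hx
    obtain ⟨y', hy', rfl⟩ := hy
    rw [hdist x' hx' y' hy']
    have h1 := hX x' (Finset.mem_filter.1 hx').1 y' (Finset.mem_filter.1 hy').1
      (fun h => hne (by rw [h]))
    have h2 : (1 : ℝ) ≤ k := by exact_mod_cast hk
    nlinarith [dist_nonneg (x := x') (y := y')]

variable {Ω : Type*} [MeasurableSpace Ω]

lemma measurable_sep {F : Ω → Set Circ} (hF : ∀ ω, IsClosed (F ω)) (hm : Hit F) (N : ℕ) {r : ℝ}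
    (hr : 0 < r) : MeasurableSet {ω | Sep (F ω) N r} := by
  have heq : {ω | Sep (F ω) N r} =
      {ω | ∃ z ∈ {z : Fin N → Circ | ∀ i j, i ≠ j → r ≤ dist (z i) (z j)}, ∀ i, z i ∈ F ω} := by
    ext ω
    simp only [mem_ofPred_eq]
    rw [sep_iff hr]
    constructor
    · rintro ⟨z, h1, h2⟩; exact ⟨z, h2, h1⟩
    · rintro ⟨z, h2, h1⟩; exact ⟨z, h1, h2⟩
  rw [heq]
  refine measurable_exists hF hm ?_ (fun (i : Fin N) (z : Fin N → Circ) => z i)
    (fun i => continuous_apply i)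
  have : {z : Fin N → Circ | ∀ i j, i ≠ j → r ≤ dist (z i) (z j)} =
      ⋂ i, ⋂ j, ⋂ (_ : i ≠ j), {z : Fin N → Circ | r ≤ dist (z i) (z j)} := by
    ext z; simp
  rw [this]
  refine isClosed_iInter fun i => isClosed_iInter fun j => isClosed_iInter fun _ => ?_
  exact isClosed_le continuous_const ((continuous_apply i).dist (continuous_apply j))

/-- positive upper box dimension, in base `P` -/
def Big (P : ℕ) (A : Set Circ) : Prop := ∀ κ : ℕ, ∃ᶠ n : ℕ in atTop, Sep A (κ * 4 ^ n) ((1 / (P : ℝ)) ^ n)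

lemma measurable_big {P : ℕ} (hP : 1 ≤ P) {F : Ω → Set Circ} (hF : ∀ ω, IsClosed (F ω))
    (hm : Hit F) : MeasurableSet {ω | Big P (F ω)} := by
  have hP0 : (0 : ℝ) < P := by exact_mod_cast hP
  have heq : {ω | Big P (F ω)} = ⋂ κ : ℕ, ⋂ m : ℕ, ⋃ n : ℕ, ⋃ _ : m ≤ n,
      {ω | Sep (F ω) (κ * 4 ^ n) ((1 / (P : ℝ)) ^ n)} := by
    ext ω
    simp only [Big, frequently_atTop, mem_ofPred_eq, mem_iInter, mem_iUnion]
    constructor
    · intro h κ m
      obtain ⟨n, hn, h1⟩ := h κ m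
      exact ⟨n, hn, h1⟩
    · intro h κ m
      obtain ⟨n, hn, h1⟩ := h κ m
      exact ⟨n, hn, h1⟩
  rw [heq]
  exact MeasurableSet.iInter fun κ => MeasurableSet.iInter fun m => MeasurableSet.iUnion fun n =>
    MeasurableSet.iUnion fun _ => measurable_sep hF hm _ (by positivity)

lemma Big.push {P k : ℕ} (hk : 1 ≤ k) {A B : Set Circ} (hAB : ∀ x ∈ A, k • x ∈ B)
    (h : Big P A) : Big P B := by
  obtain ⟨κ₀, hκ₀⟩ := exists_push hk
  intro κ
  refine (h (κ₀ * κ)).mono fun n hn => ?_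
  refine hκ₀ A B _ _ hAB ?_
  rwa [← mul_assoc]

/-- **Random closed sets of positive upper box dimension.** -/
theorem big_univ {P q : ℕ} (hP : 2 ≤ P) (hq : 2 ≤ q) (h : MulIndep P q) {μ : Measure Ω}
    [IsProbabilityMeasure μ] {α β : Ω → Ω} (hα : MeasurePreserving α μ μ)
    (hβ : MeasurePreserving β μ μ) (hcomm : Function.Commute α β) {F : Ω → Set Circ}
    (hF : ∀ ω, IsClosed (F ω)) (hm : Hit F) (hp' : ∀ ω, ∀ x ∈ F ω, P • x ∈ F (α ω))
    (hq' : ∀ ω, ∀ x ∈ F ω, q • x ∈ F (β ω)) : ∀ᵐ ω ∂μ, Big P (F ω) → F ω = univ := by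
  have hcomm' : ∀ a b : ℕ, ∀ ω, α^[a] (β^[b] ω) = β^[b] (α^[a] ω) := fun a b ω =>
    (hcomm.iterate_iterate a b) ω
  have hααc : ∀ a : ℕ, ∀ ω, α^[a] (α ω) = α (α^[a] ω) := fun a ω =>
    (Function.Commute.iterate_self α a) ω
  have hββc : ∀ a : ℕ, ∀ ω, β^[a] (β ω) = β (β^[a] ω) := fun a ω =>
    (Function.Commute.iterate_self β a) ω
  have hβα : ∀ b : ℕ, ∀ ω, β^[b] (α ω) = α (β^[b] ω) := fun b ω => (hcomm' 1 b ω).symm
  have hαβ : ∀ a : ℕ, ∀ ω, α^[a] (β ω) = β (α^[a] ω) := fun a ω => hcomm' a 1 ω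
  obtain ⟨c, hc0, -, hdet⟩ := many_dense hP hq h
  set T : Set Ω := {ω | F ω = univ} with hT
  have hTm : MeasurableSet T := RF.measurable_univ' hF hm
  set C : Set Ω := {ω | Big P (F ω)} ∩ ⋂ i : ℕ, ⋂ j : ℕ, (fun ω => α^[i] (β^[j] ω)) ⁻¹' Tᶜ with hC
  have hCm : MeasurableSet C := (measurable_big (by omega) hF hm).inter
    (MeasurableSet.iInter fun i => MeasurableSet.iInter fun j =>
      ((hα.iterate i).measurable.comp (hβ.iterate j).measurable) hTm.compl)
  have hCα : ∀ ω ∈ C, α ω ∈ C := by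
    rintro ω ⟨h1, h2⟩
    refine ⟨Big.push (by omega) (hp' ω) h1, ?_⟩
    rw [mem_iInter₂] at h2 ⊢
    intro i j
    have := h2 (i + 1) j
    rw [mem_preimage, Function.iterate_succ_apply, ← hβα] at this
    exact this
  have hCβ : ∀ ω ∈ C, β ω ∈ C := by
    rintro ω ⟨h1, h2⟩
    refine ⟨Big.push (by omega) (hq' ω) h1, ?_⟩
    rw [mem_iInter₂] at h2 ⊢
    intro i j
    have := h2 i (j + 1)
    rw [mem_preimage, Function.iterate_succ_apply] at this
    exact this
  -- the basis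
  obtain ⟨b, hbc, hbe, hb⟩ := TopologicalSpace.exists_countable_basis Circ
  have hbne : b.Nonempty := by
    rw [nonempty_iff_ne_empty]
    intro h0
    have : (⋃₀ b : Set Circ) = univ := hb.sUnion_eq
    rw [h0, sUnion_empty] at this
    exact absurd this.symm (Set.univ_nonempty (α := Circ)).ne_empty
  obtain ⟨V, hV⟩ := hbc.exists_eq_range hbne
  have hVb : ∀ k, V k ∈ b := fun k => by rw [hV]; exact ⟨k, rfl⟩
  have hVo : ∀ k, IsOpen (V k) := fun k => hb.isOpen (hVb k)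
  have hVn : ∀ k, (V k).Nonempty := fun k => nonempty_iff_ne_empty.2 fun h0 => hbe (h0 ▸ hVb k)
  set E : ℕ → Set Ω := fun n => ⋂ k : ℕ, ⋂ _ : k ≤ n, {ω | (F ω ∩ V k).Nonempty} with hE
  have hEm : ∀ n, MeasurableSet (E n) := fun n =>
    MeasurableSet.iInter fun k => MeasurableSet.iInter fun _ => hm _ (hVo k)
  have hEanti : Antitone E := by
    intro n n' hn ω hω
    rw [hE, mem_iInter₂] at hω ⊢
    exact fun k hk => hω k (hk.trans hn)
  have hEall : ⋂ n, E n ⊆ T := by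
    intro ω hω
    rw [mem_iInter] at hω
    have hd : Dense (F ω) := by
      rw [hb.dense_iff]
      intro W hW _
      rw [hV] at hW
      obtain ⟨k, rfl⟩ := hW
      have h1 := hω k
      rw [hE, mem_iInter₂] at h1
      rw [inter_comm]
      exact h1 k le_rfl
    rw [hT, mem_ofPred_eq, ← (hF ω).closure_eq]
    exact hd.closure_eq
  have hfreq : ∀ n, (c / 2) * (c / 2) * μ.real C ≤ μ.real (C ∩ E n) := by
    intro n
    refine freq_two hα hβ hCm (hEm n) hCα hCβ hc0.le ?_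
    -- a scale for the first basis sets
    have hεk : ∀ k, ∃ ε > 0, ∃ y, Metric.ball y ε ⊆ V k := by
      intro k
      obtain ⟨y, hy⟩ := hVn k
      obtain ⟨ε, hε, hb'⟩ := Metric.isOpen_iff.1 (hVo k) y hy
      exact ⟨ε, hε, y, hb'⟩
    choose ε hε y hy using hεk
    obtain ⟨ε₀, hε₀, hε₀le⟩ : ∃ ε₀ > 0, ∀ k ≤ n, ε₀ ≤ ε k := by
      obtain ⟨k₀, -, hmin⟩ := Finset.exists_min_image (Finset.range (n + 1)) ε
        ⟨0, Finset.mem_range.2 (by omega)⟩
      exact ⟨ε k₀, hε k₀, fun k hk => hmin k (Finset.mem_range.2 (by omega))⟩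
    obtain ⟨n₀, hn₀⟩ := hdet ε₀ hε₀
    rintro ω ⟨h1, -⟩
    obtain ⟨m, hm1, X, hXF, hXc, hXsep⟩ := frequently_atTop.1 (h1 1) n₀
    rw [one_mul] at hXc
    obtain ⟨N, J, hN, hJ, Tf, hTf, hTc, hTd⟩ := hn₀ m hm1 (fun i j => F (α^[i] (β^[j] ω)))
      (by
        intro i j x hx
        have := hp' _ x hx
        rwa [← Function.iterate_succ_apply' α] at this)
      (by
        intro i j x hx
        have := hq' _ x hx
        rwa [← hαβ, ← Function.iterate_succ_apply' β] at this) X hXF hXc hXsep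
    refine ⟨N, J, hN, hJ, Tf, hTf, hTc, fun z hz => ?_⟩
    rw [hE, mem_iInter₂]
    intro k hk
    obtain ⟨x, hx, hxy⟩ := hTd z hz (y k)
    exact ⟨x, hx, hy k (hxy.trans_le (hε₀le k hk))⟩
  have hlim : Tendsto (fun n => μ.real (C ∩ E n)) atTop (𝓝 (μ.real (C ∩ ⋂ n, E n))) := by
    have hanti : Antitone fun n => C ∩ E n := fun n n' hn => inter_subset_inter_right _ (hEanti hn)
    have h1 := tendsto_measure_iInter_atTop (μ := μ)
      (fun n => (hCm.inter (hEm n)).nullMeasurableSet) hanti ⟨0, measure_ne_top _ _⟩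
    rw [← inter_iInter] at h1
    exact (ENNReal.tendsto_toReal (measure_ne_top _ _)).comp h1
  have hge := ge_of_tendsto' hlim hfreq
  have hempty : C ∩ ⋂ n, E n = ∅ := by
    rw [eq_empty_iff_forall_notMem]
    rintro ω ⟨h1, h2⟩
    have h3 := h1.2
    rw [mem_iInter₂] at h3
    exact h3 0 0 (hEall h2)
  rw [hempty, measureReal_empty] at hge
  have hC0 : μ C = 0 := by
    have h2 : μ.real C = 0 := le_antisymm
      (by
        by_contra h3
        push Not at h3
        have : 0 < (c / 2) * (c / 2) * μ.real C := by positivity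
        linarith) measureReal_nonneg
    rwa [measureReal_eq_zero_iff] at h2
  have hCae : ∀ᵐ ω ∂μ, ω ∉ C := measure_eq_zero_iff_ae_notMem.1 hC0
  have hbα := RF.univ_back hP hα hF hm hp'
  have hbβ := RF.univ_back hq hβ hF hm hq'
  have hbα' : ∀ᵐ ω ∂μ, ∀ j i : ℕ, F (α^[i] (β^[j] ω)) = univ → F (β^[j] ω) = univ := by
    rw [ae_all_iff]
    intro j
    exact (hβ.iterate j).quasiMeasurePreserving.ae hbα
  filter_upwards [hCae, hbα', hbβ] with ω h1 h2 h3 h4
  by_contra h5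
  refine h1 ⟨h4, ?_⟩
  rw [mem_iInter₂]
  intro i j h6
  exact h5 (h3 j (h2 j i h6))

end Pool.Agent.Helper28K1.ZD
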