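import Mathlib
import Pool.Agent.Helper28K1.ZD.Base

/-!
Random closed sets over an arbitrary base, final form.
-/

set_option autoImplicit false

open MeasureTheory Filter Topology Set

namespace Pool.Agent.Helper28K1.ZD

open Pool.Agent.H705R2 Pool.Agent.W765.Sta

/-- upper box dimension zero -/
def ZeroBoxDim (A : Set Circ) : Prop :=
  ∀ δ : ℝ, 0 < δ → ∃ r₀ : ℝ, 0 < r₀ ∧ ∀ r : ℝ, 0 < r → r < r₀ → ∀ S : Finset Circ,
    (S : Set Circ) ⊆ A → (∀ x ∈ S, ∀ y ∈ S, x ≠ y → r ≤ dist x y) → (S.card : ℝ) ≤ r ^ (-δ)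

lemma exists_base {p : ℕ} (hp : 2 ≤ p) {δ : ℝ} (hδ : 0 < δ) :
    ∃ k : ℕ, 1 ≤ k ∧ (5 : ℝ) ≤ ((p : ℝ) ^ k) ^ δ := by
  have hp1 : (1 : ℝ) < p := by exact_mod_cast (by omega : 1 < p)
  have h1 : (1 : ℝ) < (p : ℝ) ^ δ := Real.one_lt_rpow hp1 hδ
  obtain ⟨k, hk⟩ := pow_unbounded_of_one_lt 5 h1
  refine ⟨k + 1, by omega, ?_⟩
  have h2 : (((p : ℝ) ^ (k + 1)) ^ δ) = ((p : ℝ) ^ δ) ^ (k + 1) := by
    rw [← Real.rpow_natCast, ← Real.rpow_mul (by linarith), mul_comm, Real.rpow_mul (by linarith),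
      Real.rpow_natCast]
  rw [h2]
  exact hk.le.trans (pow_le_pow_right₀ h1.le (by omega))

/-- a set of positive upper box dimension is big in some base -/
lemma big_of_not {p : ℕ} (hp : 2 ≤ p) {A : Set Circ} (h : ¬ ZeroBoxDim A) :
    ∃ k : ℕ, 1 ≤ k ∧ Big (p ^ k) A := by
  unfold ZeroBoxDim at h
  push Not at h
  obtain ⟨δ, hδ, h⟩ := h
  obtain ⟨k, hk, hk5⟩ := exists_base hp hδ
  refine ⟨k, hk, ?_⟩
  set P : ℝ := (p : ℝ) ^ k with hP
  have hp2 : (2 : ℝ) ≤ p := by exact_mod_cast hp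
  have hP2 : 2 ≤ P := by
    calc (2 : ℝ) ≤ p := hp2
      _ = (p : ℝ) ^ 1 := (pow_one _).symm
      _ ≤ P := pow_le_pow_right₀ (by linarith) hk
  have hP0 : 0 < P := by linarith
  have hy0 : 0 < 1 / P := by positivity
  have hy1 : 1 / P < 1 := by rw [div_lt_one hP0]; linarith
  intro κ
  rw [frequently_atTop]
  intro m
  obtain ⟨m', hm'⟩ := pow_unbounded_of_one_lt (4 * (κ : ℝ)) (by norm_num : (1 : ℝ) < 5 / 4)
  obtain ⟨r, hr0, hr1, S, hSA, hSsep, hScard⟩ := h ((1 / P) ^ (max m m' + 1)) (by positivity)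
  have hr1' : r < 1 := hr1.trans_le (pow_le_one₀ hy0.le hy1.le)
  obtain ⟨n, hn1, hn2⟩ := exists_nat_pow_near_of_lt_one hr0 hr1'.le hy0 hy1
  have hnm : max m m' < n + 1 := by
    have h1 : (1 / P) ^ (n + 1) < (1 / P) ^ (max m m' + 1) := hn1.trans hr1
    have h2 := (pow_lt_pow_iff_right_of_lt_one₀ hy0 hy1).1 h1
    omega
  have hmn : m ≤ n := by have := le_max_left m m'; omega
  have hmn' : m' ≤ n := by have := le_max_right m m'; omega
  refine ⟨n + 1, by omega, S, hSA, ?_, ?_⟩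
  · have h1 : ((1 / P) ^ n) ^ (-δ) ≤ r ^ (-δ) :=
      Real.rpow_le_rpow_of_nonpos hr0 hn2 (by linarith)
    have h2 : ((1 / P) ^ n) ^ (-δ) = (P ^ δ) ^ n := by
      rw [one_div, inv_pow, Real.rpow_neg (by positivity), Real.inv_rpow (by positivity), inv_inv,
        ← Real.rpow_natCast, ← Real.rpow_mul hP0.le, mul_comm, Real.rpow_mul hP0.le,
        Real.rpow_natCast]
    have h3 : (5 : ℝ) ^ n ≤ (P ^ δ) ^ n := pow_le_pow_left₀ (by norm_num) hk5 n
    have h4 : (κ : ℝ) * 4 ^ (n + 1) ≤ 5 ^ n := by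
      have h5 : 4 * (κ : ℝ) ≤ (5 / 4) ^ n :=
        hm'.le.trans (pow_le_pow_right₀ (by norm_num) hmn')
      calc (κ : ℝ) * 4 ^ (n + 1) = 4 * κ * 4 ^ n := by ring
        _ ≤ (5 / 4) ^ n * 4 ^ n := by gcongr
        _ = 5 ^ n := by rw [← mul_pow]; norm_num
    have h6 : ((κ * 4 ^ (n + 1) : ℕ) : ℝ) ≤ S.card := by
      push_cast
      linarith
    exact_mod_cast h6
  · intro x hx y hy hne
    refine le_trans ?_ (hSsep x hx y hy hne)
    have e : ((p ^ k : ℕ) : ℝ) = P := by rw [hP]; push_cast; rfl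
    rw [e]
    exact hn1.le

variable {Ω : Type*} [MeasurableSpace Ω]

/-- everywhere hypotheses -/
theorem main_all {p q : ℕ} (hp : 2 ≤ p) (hq : 2 ≤ q) (h : MulIndep p q) {μ : Measure Ω}
    [IsProbabilityMeasure μ] {α β : Ω → Ω} (hα : MeasurePreserving α μ μ)
    (hβ : MeasurePreserving β μ μ) (hcomm : Function.Commute α β) {F : Ω → Set Circ}
    (hF : ∀ ω, IsClosed (F ω)) (hm : Hit F) (hp' : ∀ ω, ∀ x ∈ F ω, p • x ∈ F (α ω))
    (hq' : ∀ ω, ∀ x ∈ F ω, q • x ∈ F (β ω)) : ∀ᵐ ω ∂μ, ZeroBoxDim (F ω) ∨ F ω = univ := by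
  have hall : ∀ᵐ ω ∂μ, ∀ k : ℕ, 1 ≤ k → Big (p ^ k) (F ω) → F ω = univ := by
    rw [ae_all_iff]
    intro k
    by_cases hk : 1 ≤ k
    · have h2 : 2 ≤ p ^ k := hp.trans (Nat.le_self_pow (by omega) p)
      have h3 : MulIndep (p ^ k) q := by
        simpa using RF.MulIndep.powpow h (i := k) (j := 1) (by omega) one_pos
      have h4 := big_univ h2 hq h3 (hα.iterate k) hβ (hcomm.iterate_left k) hF hm
        (iterate_mem hp' k) hq'
      filter_upwards [h4] with ω hω _ using hω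
    · exact Eventually.of_forall fun ω h1 => absurd h1 hk
  filter_upwards [hall] with ω hω
  by_cases hz : ZeroBoxDim (F ω)
  · left; exact hz
  · right
    obtain ⟨k, hk, hb⟩ := big_of_not hp hz
    exact hω k hk hb

/-- **The main theorem.** -/
theorem main {p q : ℕ} (hp : 2 ≤ p) (hq : 2 ≤ q) (h : MulIndep p q) {μ : Measure Ω}
    [IsProbabilityMeasure μ] {α β : Ω → Ω} (hα : MeasurePreserving α μ μ)
    (hβ : MeasurePreserving β μ μ) (hcomm : Function.Commute α β) {F : Ω → Set Circ}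
    (hF : ∀ ω, IsClosed (F ω)) (hm : Hit F) (hp' : ∀ᵐ ω ∂μ, ∀ x ∈ F ω, p • x ∈ F (α ω))
    (hq' : ∀ᵐ ω ∂μ, ∀ x ∈ F ω, q • x ∈ F (β ω)) :
    ∀ᵐ ω ∂μ, ZeroBoxDim (F ω) ∨ F ω = univ := by
  classical
  have hcomm' : ∀ a b : ℕ, ∀ ω, α^[a] (β^[b] ω) = β^[b] (α^[a] ω) := fun a b ω =>
    (hcomm.iterate_iterate a b) ω
  obtain ⟨Z, hZsub, hZm, hZ0⟩ := exists_measurable_superset_of_null (ae_iff.1 (hp'.and hq'))
  set G : Set Ω := ⋂ i : ℕ, ⋂ j : ℕ, (fun ω => α^[i] (β^[j] ω)) ⁻¹' Zᶜ with hG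
  have hGm : MeasurableSet G := MeasurableSet.iInter fun i => MeasurableSet.iInter fun j =>
    ((hα.iterate i).measurable.comp (hβ.iterate j).measurable) hZm.compl
  have hGae : ∀ᵐ ω ∂μ, ω ∈ G := by
    have : ∀ᵐ ω ∂μ, ∀ i j : ℕ, α^[i] (β^[j] ω) ∈ Zᶜ := by
      rw [ae_all_iff]; intro i
      rw [ae_all_iff]; intro j
      have h0 : ∀ᵐ ω ∂μ, ω ∈ Zᶜ := by
        rw [ae_iff]; simpa using hZ0
      exact ((hα.iterate i).comp (hβ.iterate j)).quasiMeasurePreserving.ae h0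
    filter_upwards [this] with ω hω
    rw [hG, mem_iInter₂]; exact hω
  have hGα : ∀ ω ∈ G, α ω ∈ G := by
    intro ω hω
    rw [hG, mem_iInter₂] at hω ⊢
    intro i j
    have := hω (i + 1) j
    rw [mem_preimage, Function.iterate_succ_apply] at this
    rw [mem_preimage]
    have e : β^[j] (α ω) = α (β^[j] ω) := (hcomm' 1 j ω).symm
    rw [e]; exact this
  have hGβ : ∀ ω ∈ G, β ω ∈ G := by
    intro ω hω
    rw [hG, mem_iInter₂] at hω ⊢
    intro i j
    have := hω i (j + 1)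
    rwa [mem_preimage, Function.iterate_succ_apply] at this
  have hGood : ∀ ω ∈ G, (∀ x ∈ F ω, p • x ∈ F (α ω)) ∧ ∀ x ∈ F ω, q • x ∈ F (β ω) := by
    intro ω hω
    rw [hG, mem_iInter₂] at hω
    have h0 : ω ∉ Z := by simpa using hω 0 0
    by_contra hcon
    exact h0 (hZsub hcon)
  have key := main_all hp hq h hα hβ hcomm (F := fun ω => if ω ∈ G then F ω else ∅)
    (RF.closed_restrict hF) (RF.hit_restrict hm hGm) ?_ ?_
  · filter_upwards [key, hGae] with ω h1 h2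
    simpa [h2] using h1
  · intro ω x hx
    by_cases hω : ω ∈ G
    · simp only [hω, if_true, hGα ω hω] at hx ⊢
      exact (hGood ω hω).1 x hx
    · simp [hω] at hx
  · intro ω x hx
    by_cases hω : ω ∈ G
    · simp only [hω, if_true, hGβ ω hω] at hx ⊢
      exact (hGood ω hω).2 x hx
    · simp [hω] at hx

/-- **Arbitrary sets of multipliers.** -/
theorem multipliers {p q : ℕ} (hp : 2 ≤ p) (hq : 2 ≤ q) (h : MulIndep p q) {μ : Measure Circ}
    [IsProbabilityMeasure μ] (hα : MeasurePreserving (fun x : Circ => p • x) μ μ)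
    (hβ : MeasurePreserving (fun x : Circ => q • x) μ μ) (S : Set ℤ) :
    ∀ᵐ x ∂μ, ZeroBoxDim (closure ((fun n : ℤ => n • x) '' S)) ∨
      Dense ((fun n : ℤ => n • x) '' S) := by
  have key := main hp hq h hα hβ (fun x => by simp only; rw [smul_comm])
    (F := fun x => closure ((fun n : ℤ => n • x) '' S)) (fun x => isClosed_closure) ?_ ?_ ?_
  · filter_upwards [key] with x hx
    rcases hx with hx | hx
    · left; exact hx
    · right; rw [dense_iff_closure_eq]; exact hx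
  · intro V hV
    have : {x : Circ | (closure ((fun n : ℤ => n • x) '' S) ∩ V).Nonempty} =
        ⋃ n ∈ S, (fun x : Circ => n • x) ⁻¹' V := by
      ext x
      simp only [mem_ofPred_eq, mem_iUnion, mem_preimage]
      constructor
      · rintro ⟨y, hy, hyV⟩
        obtain ⟨_, h1, n, hn, rfl⟩ := mem_closure_iff.1 hy V hV hyV
        exact ⟨n, hn, h1⟩
      · rintro ⟨n, hn, hn'⟩
        exact ⟨_, subset_closure ⟨n, hn, rfl⟩, hn'⟩
    rw [this]
    exact MeasurableSet.biUnion (Set.to_countable S) fun n _ =>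
      (hV.preimage (continuous_zsmul n)).measurableSet
  · refine Eventually.of_forall fun x y hy => ?_
    refine map_mem_closure (continuous_nsmul p) hy ?_
    rintro _ ⟨n, hn, rfl⟩
    exact ⟨n, hn, by simp only; rw [smul_comm]⟩
  · refine Eventually.of_forall fun x y hy => ?_
    refine map_mem_closure (continuous_nsmul q) hy ?_
    rintro _ ⟨n, hn, rfl⟩
    exact ⟨n, hn, by simp only; rw [smul_comm]⟩

end Pool.Agent.Helper28K1.ZD
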