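import Mathlib
import Pool.Agent.Helper28K1.ZD.Main

/-!
From the deterministic theorem to random closed sets, for a general notion of bigness.
-/

set_option autoImplicit false

open MeasureTheory Filter Topology Set

namespace Pool.Agent.Helper28K1.ZD

open Pool.Agent.H705R2 Pool.Agent.W765.Sta

variable {Ω : Type*} [MeasurableSpace Ω]

/-- The transfer principle. -/
theorem univ_of_det {P q : ℕ} (hP : 2 ≤ P) (hq : 2 ≤ q) {μ : Measure Ω}
    [IsProbabilityMeasure μ] {α β : Ω → Ω} (hα : MeasurePreserving α μ μ)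
    (hβ : MeasurePreserving β μ μ) (hcomm : Function.Commute α β) {F : Ω → Set Circ}
    (hF : ∀ ω, IsClosed (F ω)) (hm : Hit F) (hp' : ∀ ω, ∀ x ∈ F ω, P • x ∈ F (α ω))
    (hq' : ∀ ω, ∀ x ∈ F ω, q • x ∈ F (β ω)) {𝓑 : Set Circ → Prop}
    (hBm : MeasurableSet {ω | 𝓑 (F ω)})
    (hB : ∀ k : ℕ, 1 ≤ k → ∀ A B : Set Circ, (∀ x ∈ A, k • x ∈ B) → 𝓑 A → 𝓑 B) {c : ℝ}
    (hc0 : 0 < c)
    (hdet : ∀ ε : ℝ, 0 < ε → ∀ A : ℕ → ℕ → Set Circ,
      (∀ i j, ∀ x ∈ A i j, P • x ∈ A (i + 1) j) → (∀ i j, ∀ x ∈ A i j, q • x ∈ A i (j + 1)) →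
      𝓑 (A 0 0) → ∃ N J : ℕ, 1 ≤ N ∧ 1 ≤ J ∧ ∃ T ⊆ Finset.range N ×ˢ Finset.range J,
        c * (N * J) ≤ T.card ∧ ∀ z ∈ T, EpsDense ε (A z.1 z.2)) :
    ∀ᵐ ω ∂μ, 𝓑 (F ω) → F ω = univ := by
  have hcomm' : ∀ a b : ℕ, ∀ ω, α^[a] (β^[b] ω) = β^[b] (α^[a] ω) := fun a b ω =>
    (hcomm.iterate_iterate a b) ω
  have hβα : ∀ b : ℕ, ∀ ω, β^[b] (α ω) = α (β^[b] ω) := fun b ω => (hcomm' 1 b ω).symm
  have hαβ : ∀ a : ℕ, ∀ ω, α^[a] (β ω) = β (α^[a] ω) := fun a ω => hcomm' a 1 ω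
  set T : Set Ω := {ω | F ω = univ} with hT
  have hTm : MeasurableSet T := RF.measurable_univ' hF hm
  set C : Set Ω := {ω | 𝓑 (F ω)} ∩ ⋂ i : ℕ, ⋂ j : ℕ, (fun ω => α^[i] (β^[j] ω)) ⁻¹' Tᶜ with hC
  have hCm : MeasurableSet C := hBm.inter
    (MeasurableSet.iInter fun i => MeasurableSet.iInter fun j =>
      ((hα.iterate i).measurable.comp (hβ.iterate j).measurable) hTm.compl)
  have hCα : ∀ ω ∈ C, α ω ∈ C := by
    rintro ω ⟨h1, h2⟩
    refine ⟨hB P (by omega) _ _ (hp' ω) h1, ?_⟩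
    rw [mem_iInter₂] at h2 ⊢
    intro i j
    have := h2 (i + 1) j
    rw [mem_preimage, Function.iterate_succ_apply, ← hβα] at this
    exact this
  have hCβ : ∀ ω ∈ C, β ω ∈ C := by
    rintro ω ⟨h1, h2⟩
    refine ⟨hB q (by omega) _ _ (hq' ω) h1, ?_⟩
    rw [mem_iInter₂] at h2 ⊢
    intro i j
    have := h2 i (j + 1)
    rw [mem_preimage, Function.iterate_succ_apply] at this
    exact this
  -- the basis
  obtain ⟨b, hbc, hbe, hb⟩ := TopologicalSpace.exists_countable_basis Circ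
  have hbne : b.Nonempty := by
    rw [nonempty_iff_ne_empty]
    intro h0
    have : (⋃₀ b : Set Circ) = univ := hb.sUnion_eq
    rw [h0, sUnion_empty] at this
    exact absurd this.symm (Set.univ_nonempty (α := Circ)).ne_empty
  obtain ⟨V, hV⟩ := hbc.exists_eq_range hbne
  have hVb : ∀ k, V k ∈ b := fun k => by rw [hV]; exact ⟨k, rfl⟩
  have hVo : ∀ k, IsOpen (V k) := fun k => hb.isOpen (hVb k)
  have hVn : ∀ k, (V k).Nonempty := fun k => nonempty_iff_ne_empty.2 fun h0 => hbe (h0 ▸ hVb k)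
  set E : ℕ → Set Ω := fun n => ⋂ k : ℕ, ⋂ _ : k ≤ n, {ω | (F ω ∩ V k).Nonempty} with hE
  have hEm : ∀ n, MeasurableSet (E n) := fun n =>
    MeasurableSet.iInter fun k => MeasurableSet.iInter fun _ => hm _ (hVo k)
  have hEanti : Antitone E := by
    intro n n' hn ω hω
    rw [hE, mem_iInter₂] at hω ⊢
    exact fun k hk => hω k (hk.trans hn)
  have hEall : ⋂ n, E n ⊆ T := by
    intro ω hω
    rw [mem_iInter] at hω
    have hd : Dense (F ω) := by
      rw [hb.dense_iff]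
      intro W hW _
      rw [hV] at hW
      obtain ⟨k, rfl⟩ := hW
      have h1 := hω k
      rw [hE, mem_iInter₂] at h1
      rw [inter_comm]
      exact h1 k le_rfl
    rw [hT, mem_ofPred_eq, ← (hF ω).closure_eq]
    exact hd.closure_eq
  have hfreq : ∀ n, (c / 2) * (c / 2) * μ.real C ≤ μ.real (C ∩ E n) := by
    intro n
    refine freq_two hα hβ hCm (hEm n) hCα hCβ hc0.le ?_
    -- a scale for the first basis sets
    have hεk : ∀ k, ∃ ε > 0, ∃ y, Metric.ball y ε ⊆ V k := by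
      intro k
      obtain ⟨y, hy⟩ := hVn k
      obtain ⟨ε, hε, hb'⟩ := Metric.isOpen_iff.1 (hVo k) y hy
      exact ⟨ε, hε, y, hb'⟩
    choose ε hε y hy using hεk
    obtain ⟨ε₀, hε₀, hε₀le⟩ : ∃ ε₀ > 0, ∀ k ≤ n, ε₀ ≤ ε k := by
      obtain ⟨k₀, -, hmin⟩ := Finset.exists_min_image (Finset.range (n + 1)) ε
        ⟨0, Finset.mem_range.2 (by omega)⟩
      exact ⟨ε k₀, hε k₀, fun k hk => hmin k (Finset.mem_range.2 (by omega))⟩
    rintro ω ⟨h1, -⟩
    obtain ⟨N, J, hN, hJ, Tf, hTf, hTc, hTd⟩ := hdet ε₀ hε₀ (fun i j => F (α^[i] (β^[j] ω)))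
      (by
        intro i j x hx
        have := hp' _ x hx
        rwa [← Function.iterate_succ_apply' α] at this)
      (by
        intro i j x hx
        have := hq' _ x hx
        rwa [← hαβ, ← Function.iterate_succ_apply' β] at this) h1
    refine ⟨N, J, hN, hJ, Tf, hTf, hTc, fun z hz => ?_⟩
    rw [hE, mem_iInter₂]
    intro k hk
    obtain ⟨x, hx, hxy⟩ := hTd z hz (y k)
    exact ⟨x, hx, hy k (hxy.trans_le (hε₀le k hk))⟩
  have hlim : Tendsto (fun n => μ.real (C ∩ E n)) atTop (𝓝 (μ.real (C ∩ ⋂ n, E n))) := by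
    have hanti : Antitone fun n => C ∩ E n := fun n n' hn => inter_subset_inter_right _ (hEanti hn)
    have h1 := tendsto_measure_iInter_atTop (μ := μ)
      (fun n => (hCm.inter (hEm n)).nullMeasurableSet) hanti ⟨0, measure_ne_top _ _⟩
    rw [← inter_iInter] at h1
    exact (ENNReal.tendsto_toReal (measure_ne_top _ _)).comp h1
  have hge := ge_of_tendsto' hlim hfreq
  have hempty : C ∩ ⋂ n, E n = ∅ := by
    rw [eq_empty_iff_forall_notMem]
    rintro ω ⟨h1, h2⟩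
    have h3 := h1.2
    rw [mem_iInter₂] at h3
    exact h3 0 0 (hEall h2)
  rw [hempty, measureReal_empty] at hge
  have hC0 : μ C = 0 := by
    have h2 : μ.real C = 0 := le_antisymm
      (by
        by_contra h3
        push Not at h3
        have : 0 < (c / 2) * (c / 2) * μ.real C := by positivity
        linarith) measureReal_nonneg
    rwa [measureReal_eq_zero_iff] at h2
  have hCae : ∀ᵐ ω ∂μ, ω ∉ C := measure_eq_zero_iff_ae_notMem.1 hC0
  have hbα := RF.univ_back hP hα hF hm hp'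
  have hbβ := RF.univ_back hq hβ hF hm hq'
  have hbα' : ∀ᵐ ω ∂μ, ∀ j i : ℕ, F (α^[i] (β^[j] ω)) = univ → F (β^[j] ω) = univ := by
    rw [ae_all_iff]
    intro j
    exact (hβ.iterate j).quasiMeasurePreserving.ae hbα
  filter_upwards [hCae, hbα', hbβ] with ω h1 h2 h3 h4
  by_contra h5
  refine h1 ⟨h4, ?_⟩
  rw [mem_iInter₂]
  intro i j h6
  exact h5 (h3 j (h2 j i h6))

end Pool.Agent.Helper28K1.ZD
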