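import Mathlib
import Pool.Agent.Helper28K1.ZD.Transfer

/-!
Random closed sets with points at a positive proportion of the scales.
-/

set_option autoImplicit false

open MeasureTheory Filter Topology Set

namespace Pool.Agent.Helper28K1.ZD

open Pool.Agent.H705R2 Pool.Agent.W765.Sta

/-- `A` contains `M` points of norm at least `P ^ (-n)`, each at least `P` times smaller than the
previous ones -/
def Sc (P : ℕ) (A : Set Circ) (M n : ℕ) : Prop :=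
  ∃ z : Fin M → Circ, (∀ i, z i ∈ A) ∧ (∀ i, (1 / (P : ℝ)) ^ n ≤ ‖z i‖) ∧
    ∀ i j, i < j → (P : ℝ) * ‖z j‖ ≤ ‖z i‖

/-- multiplication by `k` multiplies small norms by `k` -/
lemma norm_smul_small {k : ℕ} {x : Circ} (h : (k : ℝ) * ‖x‖ ≤ 1 / 2) : ‖k • x‖ = k * ‖x‖ := by
  obtain ⟨r, hr, hrn⟩ := Pool.Agent.H847R3.XpXq.exists_rep_norm x
  have h1 : |(k : ℝ) * r| = k * |r| := by rw [abs_mul, abs_of_nonneg (Nat.cast_nonneg k)]
  rw [← hrn] at h ⊢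
  rw [← h1, ← hr, ← AddCircle.coe_nsmul, nsmul_eq_mul]
  refine (AddCircle.norm_coe_eq_abs_iff (1 : ℝ) one_ne_zero).2 ?_
  rw [h1, abs_one]
  exact h

lemma chain_pow {P : ℕ} {M : ℕ} {z : Fin M → Circ}
    (h : ∀ i j, i < j → (P : ℝ) * ‖z j‖ ≤ ‖z i‖) :
    ∀ (κ : ℕ) (i : ℕ) (hi : i + κ < M),
      (P : ℝ) ^ κ * ‖z ⟨i + κ, hi⟩‖ ≤ ‖z ⟨i, by omega⟩‖ := by
  intro κ
  induction κ with
  | zero => intro i hi; simp
  | succ κ ih =>
    intro i hi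
    have h1 := ih i (by omega)
    have h2 := h ⟨i + κ, by omega⟩ ⟨i + (κ + 1), hi⟩ (by simp only [Fin.mk_lt_mk]; omega)
    calc (P : ℝ) ^ (κ + 1) * ‖z ⟨i + (κ + 1), hi⟩‖
        = (P : ℝ) ^ κ * ((P : ℝ) * ‖z ⟨i + (κ + 1), hi⟩‖) := by ring
      _ ≤ (P : ℝ) ^ κ * ‖z ⟨i + κ, by omega⟩‖ := by gcongr
      _ ≤ _ := h1

lemma norm_le_half (x : Circ) : ‖x‖ ≤ 1 / 2 := by
  have := AddCircle.norm_le_half_period (1 : ℝ) (x := x) one_ne_zero
  simpa using this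

/-- chains are pushed forward -/
lemma Sc.push {P k κ : ℕ} (hk : 1 ≤ k) (hκ : k ≤ P ^ κ) {A B : Set Circ}
    (hAB : ∀ x ∈ A, k • x ∈ B) {M n : ℕ} (h : Sc P A (M + κ) n) : Sc P B M n := by
  obtain ⟨z, h1, h2, h3⟩ := h
  have hsmall : ∀ i : Fin M, (k : ℝ) * ‖z ⟨i + κ, by omega⟩‖ ≤ 1 / 2 := by
    intro i
    have h4 := chain_pow h3 κ i (by omega)
    have h5 : (k : ℝ) ≤ (P : ℝ) ^ κ := by exact_mod_cast hκ
    calc (k : ℝ) * ‖z ⟨i + κ, by omega⟩‖ ≤ (P : ℝ) ^ κ * ‖z ⟨i + κ, by omega⟩‖ := by gcongr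
      _ ≤ _ := h4
      _ ≤ 1 / 2 := norm_le_half _
  have hk1 : (1 : ℝ) ≤ k := by exact_mod_cast hk
  refine ⟨fun i => k • z ⟨i + κ, by omega⟩, fun i => hAB _ (h1 _), fun i => ?_, fun i j hij => ?_⟩
  · simp only
    rw [norm_smul_small (hsmall i)]
    nlinarith [h2 ⟨i + κ, by omega⟩, norm_nonneg (z ⟨i + κ, by omega⟩)]
  · simp only
    rw [norm_smul_small (hsmall i), norm_smul_small (hsmall j)]
    have h4 := h3 ⟨i + κ, by omega⟩ ⟨j + κ, by omega⟩ (by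
      simp only [Fin.mk_lt_mk]
      have : (i : ℕ) < j := hij
      omega)
    calc (P : ℝ) * (k * ‖z ⟨j + κ, by omega⟩‖) = k * (P * ‖z ⟨j + κ, by omega⟩‖) := by ring
      _ ≤ _ := by gcongr

variable {Ω : Type*} [MeasurableSpace Ω]

lemma measurable_sc {F : Ω → Set Circ} (hF : ∀ ω, IsClosed (F ω)) (hm : Hit F) (P M n : ℕ) :
    MeasurableSet {ω | Sc P (F ω) M n} := by
  have heq : {ω | Sc P (F ω) M n} =
      {ω | ∃ z ∈ {z : Fin M → Circ | (∀ i, (1 / (P : ℝ)) ^ n ≤ ‖z i‖) ∧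
        ∀ i j, i < j → (P : ℝ) * ‖z j‖ ≤ ‖z i‖}, ∀ i, z i ∈ F ω} := by
    ext ω
    simp only [Sc, mem_ofPred_eq]
    constructor
    · rintro ⟨z, h1, h2⟩; exact ⟨z, h2, h1⟩
    · rintro ⟨z, h2, h1⟩; exact ⟨z, h1, h2⟩
  rw [heq]
  refine measurable_exists hF hm ?_ (fun (i : Fin M) (z : Fin M → Circ) => z i)
    (fun i => continuous_apply i)
  have : {z : Fin M → Circ | (∀ i, (1 / (P : ℝ)) ^ n ≤ ‖z i‖) ∧
        ∀ i j, i < j → (P : ℝ) * ‖z j‖ ≤ ‖z i‖} =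
      (⋂ i, {z : Fin M → Circ | (1 / (P : ℝ)) ^ n ≤ ‖z i‖}) ∩
      ⋂ i, ⋂ j, ⋂ (_ : i < j), {z : Fin M → Circ | (P : ℝ) * ‖z j‖ ≤ ‖z i‖} := by
    ext z; simp
  rw [this]
  refine (isClosed_iInter fun i => isClosed_le continuous_const (continuous_apply i).norm).inter
    (isClosed_iInter fun i => isClosed_iInter fun j => isClosed_iInter fun _ => ?_)
  exact isClosed_le (continuous_const.mul (continuous_apply j).norm) (continuous_apply i).norm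

/-- chains of positive density -/
def BigS (γ : ℝ) (P : ℕ) (A : Set Circ) : Prop :=
  ∀ κ : ℕ, ∃ᶠ n : ℕ in atTop, ∃ M : ℕ, γ * n ≤ M ∧ Sc P A (M + κ) n

lemma measurable_bigS {γ : ℝ} {P : ℕ} {F : Ω → Set Circ} (hF : ∀ ω, IsClosed (F ω))
    (hm : Hit F) : MeasurableSet {ω | BigS γ P (F ω)} := by
  have heq : {ω | BigS γ P (F ω)} = ⋂ κ : ℕ, ⋂ m : ℕ, ⋃ n : ℕ, ⋃ _ : m ≤ n, ⋃ M : ℕ,
      ⋃ _ : γ * n ≤ M, {ω | Sc P (F ω) (M + κ) n} := by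
    ext ω
    simp only [BigS, frequently_atTop, mem_ofPred_eq, mem_iInter, mem_iUnion]
    constructor
    · intro h κ m
      obtain ⟨n, hn, M, hM, h1⟩ := h κ m
      exact ⟨n, hn, M, hM, h1⟩
    · intro h κ m
      obtain ⟨n, hn, M, hM, h1⟩ := h κ m
      exact ⟨n, hn, M, hM, h1⟩
  rw [heq]
  exact MeasurableSet.iInter fun κ => MeasurableSet.iInter fun m => MeasurableSet.iUnion fun n =>
    MeasurableSet.iUnion fun _ => MeasurableSet.iUnion fun M => MeasurableSet.iUnion fun _ =>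
      measurable_sc hF hm _ _ _

lemma BigS.push {γ : ℝ} {P k : ℕ} (hP : 2 ≤ P) (hk : 1 ≤ k) {A B : Set Circ}
    (hAB : ∀ x ∈ A, k • x ∈ B) (h : BigS γ P A) : BigS γ P B := by
  obtain ⟨κ₀, hκ₀⟩ : ∃ κ₀ : ℕ, k ≤ P ^ κ₀ := ⟨k, (Nat.lt_pow_self (by omega)).le⟩
  intro κ
  refine (h (κ + κ₀)).mono ?_
  rintro n ⟨M, hM, hS⟩
  refine ⟨M, hM, ?_⟩
  rw [← add_assoc] at hS
  exact hS.push hk hκ₀ hAB

/-- the level of a nonzero point -/
lemma exists_level {P : ℕ} (hP : 2 ≤ P) {x : ℝ} (hx0 : 0 < x) (hx1 : x ≤ 1 / 2) :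
    ∃ m : ℕ, 1 < (P : ℝ) ^ (m + 1) * x ∧ (P : ℝ) ^ m * x ≤ 1 := by
  have hP1 : (1 : ℝ) < P := by exact_mod_cast (by omega : 1 < P)
  have hP0 : (0 : ℝ) < P := by linarith
  have hy0 : 0 < 1 / (P : ℝ) := by positivity
  have hy1 : 1 / (P : ℝ) < 1 := by rw [div_lt_one hP0]; exact hP1
  obtain ⟨n, hn1, hn2⟩ := exists_nat_pow_near_of_lt_one hx0 (by linarith : x ≤ 1) hy0 hy1
  refine ⟨n, ?_, ?_⟩
  · rw [one_div, inv_pow] at hn1
    rwa [inv_lt_iff_one_lt_mul₀ (by positivity), mul_comm] at hn1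
  · rw [one_div, inv_pow] at hn2
    rwa [le_inv_comm₀ hx0 (by positivity), ← one_div, le_div_iff₀ hx0] at hn2

/-- from chains to levels -/
lemma levels_of_sc {P : ℕ} (hP : 2 ≤ P) {A : Set Circ} {M n : ℕ} (h : Sc P A M n) :
    ∃ L : Finset ℕ, (∀ m ∈ L, m < n + 1) ∧ L.card = M ∧
      ∀ m ∈ L, ∃ d : ℝ, 1 < (P : ℝ) ^ (m + 1) * |d| ∧ (P : ℝ) ^ m * |d| ≤ 1 ∧
        ((d : ℝ) : Circ) ∈ A := by
  classical
  have hP1 : (1 : ℝ) < P := by exact_mod_cast (by omega : 1 < P)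
  have hP0 : (0 : ℝ) < P := by linarith
  obtain ⟨z, h1, h2, h3⟩ := h
  have hpos : ∀ i, 0 < ‖z i‖ := fun i => lt_of_lt_of_le (by positivity) (h2 i)
  have hex : ∀ i, ∃ m : ℕ, 1 < (P : ℝ) ^ (m + 1) * ‖z i‖ ∧ (P : ℝ) ^ m * ‖z i‖ ≤ 1 := fun i =>
    exists_level hP (hpos i) (norm_le_half _)
  choose f hf1 hf2 using hex
  have hlt : ∀ i j, i < j → f i < f j := by
    intro i j hij
    by_contra hcon
    push Not at hcon
    have h4 : (P : ℝ) ^ (f j + 1) * ‖z j‖ ≤ 1 := by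
      calc (P : ℝ) ^ (f j + 1) * ‖z j‖ = (P : ℝ) ^ (f j) * ((P : ℝ) * ‖z j‖) := by ring
        _ ≤ (P : ℝ) ^ (f i) * ‖z i‖ := by
            refine mul_le_mul (pow_le_pow_right₀ hP1.le hcon) (h3 i j hij) ?_ (by positivity)
            have := (hpos j).le
            positivity
        _ ≤ 1 := hf2 i
    linarith [hf1 j]
  have hinj : Function.Injective f := by
    intro i j hij
    rcases lt_trichotomy i j with h4 | h4 | h4
    · have := hlt i j h4; omega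
    · exact h4
    · have := hlt j i h4; omega
  refine ⟨Finset.univ.image f, ?_, ?_, ?_⟩
  · intro m hm
    obtain ⟨i, -, rfl⟩ := Finset.mem_image.1 hm
    rw [Nat.lt_succ_iff]
    by_contra hcon
    push Not at hcon
    have h4 : (P : ℝ) ^ (n + 1) ≤ (P : ℝ) ^ (f i) := pow_le_pow_right₀ hP1.le hcon
    have h5 : (P : ℝ) ^ (n + 1) * (1 / (P : ℝ)) ^ n ≤ 1 := by
      calc (P : ℝ) ^ (n + 1) * (1 / (P : ℝ)) ^ n ≤ (P : ℝ) ^ (f i) * ‖z i‖ :=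
            mul_le_mul h4 (h2 i) (by positivity) (by positivity)
        _ ≤ 1 := hf2 i
    have h6 : (P : ℝ) ^ (n + 1) * (1 / (P : ℝ)) ^ n = P := by
      rw [pow_succ', mul_assoc, ← mul_pow, mul_one_div, div_self hP0.ne', one_pow, mul_one]
    linarith
  · rw [Finset.card_image_of_injective _ hinj, Finset.card_univ, Fintype.card_fin]
  · intro m hm
    obtain ⟨i, -, rfl⟩ := Finset.mem_image.1 hm
    obtain ⟨r, hr, hrn⟩ := Pool.Agent.H847R3.XpXq.exists_rep_norm (z i)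
    refine ⟨r, ?_, ?_, ?_⟩
    · rw [hrn]; exact hf1 i
    · rw [hrn]; exact hf2 i
    · rw [hr]; exact h1 i

/-- **Random closed sets with points at a positive proportion of the scales.** -/
theorem bigS_univ {P q : ℕ} (hP : 2 ≤ P) (hq : 2 ≤ q) (h : MulIndep P q) {μ : Measure Ω}
    [IsProbabilityMeasure μ] {α β : Ω → Ω} (hα : MeasurePreserving α μ μ)
    (hβ : MeasurePreserving β μ μ) (hcomm : Function.Commute α β) {F : Ω → Set Circ}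
    (hF : ∀ ω, IsClosed (F ω)) (hm : Hit F) (hp' : ∀ ω, ∀ x ∈ F ω, P • x ∈ F (α ω))
    (hq' : ∀ ω, ∀ x ∈ F ω, q • x ∈ F (β ω)) {γ : ℝ}
    (hγ : 0 < γ) : ∀ᵐ ω ∂μ, BigS γ P (F ω) → F ω = univ := by
  obtain ⟨c, hc0, -, hdet⟩ := many_dense_scales hP hq h (γ₀ := γ / 2) (by positivity)
  refine univ_of_det hP hq hα hβ hcomm hF hm hp' hq' (𝓑 := BigS γ P) (measurable_bigS hF hm)
    (fun k hk A B hAB hA => hA.push hP hk hAB) hc0 fun ε hε A hpA hqA hBA => ?_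
  obtain ⟨n₀, hn₀⟩ := hdet ε hε
  obtain ⟨n, hn, M, hM, hS⟩ := frequently_atTop.1 (hBA 0) (max n₀ 1)
  obtain ⟨L, hL1, hL2, hL3⟩ := levels_of_sc hP hS
  have hn1 : (1 : ℝ) ≤ n := by exact_mod_cast (le_max_right n₀ 1).trans hn
  refine hn₀ (n + 1) ((le_max_left _ _).trans (hn.trans (Nat.le_succ n))) A hpA hqA 0 L hL1 ?_ ?_
  · rw [hL2]
    push_cast
    nlinarith
  · intro m hm
    obtain ⟨d, hd1, hd2, hd3⟩ := hL3 m hm
    exact ⟨d, hd1, hd2, by rwa [zero_add]⟩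

end Pool.Agent.Helper28K1.ZD
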