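import Mathlib
import Pool.Agent.Helper28K1.ZD.Scale

/-!
Iterated difference sets and the distance scales of a random closed set.
-/

set_option autoImplicit false

open MeasureTheory Filter Topology Set

namespace Pool.Agent.Helper28K1.ZD

open Pool.Agent.H705R2 Pool.Agent.W765.Sta

/-- iterated difference sets: `Δ₀ A = A` and `Δ_{j+1} A = Δ_j A - Δ_j A` -/
def iterDiff {G : Type*} [AddGroup G] : ℕ → Set G → Set G
  | 0, A => A
  | j + 1, A => {z | ∃ x ∈ iterDiff j A, ∃ y ∈ iterDiff j A, z = x - y}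

/-- the scales, in base `p`, of the elements of `A` -/
def scales (p : ℕ) (A : Set Circ) : Set ℕ :=
  {m | ∃ z ∈ A, (1 / (p : ℝ)) ^ (m + 1) < ‖z‖ ∧ ‖z‖ ≤ (1 / (p : ℝ)) ^ m}

/-- a set of integers of density zero -/
def DensityZero (L : Set ℕ) : Prop :=
  ∀ δ : ℝ, 0 < δ → ∃ n₀ : ℕ, ∀ n ≥ n₀, ((L ∩ Iio n).ncard : ℝ) ≤ δ * n

lemma iterDiff_mono {G : Type*} [AddGroup G] {A B : Set G} (h : A ⊆ B) (j : ℕ) :
    iterDiff j A ⊆ iterDiff j B := by
  induction j with
  | zero => exact h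
  | succ j ih =>
    rintro z ⟨x, hx, y, hy, rfl⟩
    exact ⟨x, ih hx, y, ih hy, rfl⟩

lemma ZeroBoxDim.mono {A B : Set Circ} (h : A ⊆ B) (hB : ZeroBoxDim B) : ZeroBoxDim A := by
  intro δ hδ
  obtain ⟨r₀, hr₀, H⟩ := hB δ hδ
  exact ⟨r₀, hr₀, fun r hr hr' S hS hsep => H r hr hr' S (hS.trans h) hsep⟩

lemma scales_mono {p : ℕ} {A B : Set Circ} (h : A ⊆ B) : scales p A ⊆ scales p B := by
  rintro m ⟨z, hz, h1⟩
  exact ⟨z, h hz, h1⟩

lemma DensityZero.mono {L L' : Set ℕ} (h : L ⊆ L') (hL : DensityZero L') : DensityZero L := by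
  intro δ hδ
  obtain ⟨n₀, hn₀⟩ := hL δ hδ
  refine ⟨n₀, fun n hn => le_trans ?_ (hn₀ n hn)⟩
  exact_mod_cast ncard_le_ncard (inter_subset_inter_left _ h) ((finite_Iio n).inter_of_right _)

/-- the whole circle has positive dimension -/
lemma not_zeroBoxDim_univ : ¬ ZeroBoxDim (univ : Set Circ) := by
  intro h
  obtain ⟨r₀, hr₀, H⟩ := h (1 / 2) (by norm_num)
  obtain ⟨N, hN⟩ := exists_nat_gt (max (1 / r₀) 2)
  have hN2 : (2 : ℝ) < N := (le_max_right _ _).trans_lt hN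
  have hN1 : 1 / r₀ < N := (le_max_left _ _).trans_lt hN
  have hN0 : (0 : ℝ) < N := by linarith
  have hNn : 0 < N := by exact_mod_cast hN0
  have hr : 1 / (N : ℝ) < r₀ := by
    rw [div_lt_iff₀ hr₀] at hN1
    rw [div_lt_iff₀ hN0]
    linarith
  have hdist : ∀ i < N, ∀ j < i, 1 / (N : ℝ) ≤
      dist (((i : ℝ) / N : ℝ) : Circ) (((j : ℝ) / N : ℝ) : Circ) := by
    intro i hi j hj
    rw [dist_eq_norm, ← AddCircle.coe_sub]
    have e : (i : ℝ) / N - j / N = ((i - j : ℕ) : ℝ) / (N : ℕ) * 1 := by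
      rw [Nat.cast_sub hj.le]
      ring
    rw [e]
    have h1 := AddCircle.norm_div_natCast (p := (1 : ℝ)) (m := i - j) (n := N)
    rw [h1, one_mul]
    have h2 : 1 ≤ min ((i - j) % N) (N - (i - j) % N) := by
      rw [Nat.mod_eq_of_lt (by omega)]
      omega
    have h3 : (1 : ℝ) ≤ (min ((i - j) % N) (N - (i - j) % N) : ℕ) := by exact_mod_cast h2
    gcongr
  have hdist' : ∀ i < N, ∀ j < N, i ≠ j → 1 / (N : ℝ) ≤
      dist (((i : ℝ) / N : ℝ) : Circ) (((j : ℝ) / N : ℝ) : Circ) := by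
    intro i hi j hj hij
    rcases lt_or_gt_of_ne hij with h1 | h1
    · rw [dist_comm]; exact hdist j hj i h1
    · exact hdist i hi j h1
  classical
  have hinj : Set.InjOn (fun i : ℕ => (((i : ℝ) / N : ℝ) : Circ)) (Finset.range N : Set ℕ) := by
    intro i hi j hj hij
    by_contra hne
    rw [Finset.mem_coe, Finset.mem_range] at hi hj
    have h1 := hdist' i hi j hj hne
    simp only at hij
    rw [hij, dist_self] at h1
    have : 0 < 1 / (N : ℝ) := by positivity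
    linarith
  have h1 := H (1 / N) (by positivity) hr ((Finset.range N).image fun i : ℕ =>
    (((i : ℝ) / N : ℝ) : Circ)) (subset_univ _) (by
      intro x hx y hy hne
      obtain ⟨i, hi, rfl⟩ := Finset.mem_image.1 hx
      obtain ⟨j, hj, rfl⟩ := Finset.mem_image.1 hy
      exact hdist' i (Finset.mem_range.1 hi) j (Finset.mem_range.1 hj) fun h2 => hne (by rw [h2]))
  rw [Finset.card_image_of_injOn hinj, Finset.card_range] at h1
  have h2 : (1 / (N : ℝ)) ^ (-(1 / 2) : ℝ) = Real.sqrt N := by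
    rw [Real.rpow_neg (by positivity), one_div, Real.inv_rpow (by positivity), inv_inv,
      Real.sqrt_eq_rpow]
  rw [h2] at h1
  have h3 : Real.sqrt N * Real.sqrt N = N := Real.mul_self_sqrt hN0.le
  have h4 : 1 < Real.sqrt N := by
    rw [Real.lt_sqrt (by norm_num)]
    linarith
  nlinarith

/-- differences of sets of dimension zero -/
lemma ZeroBoxDim.sub {A : Set Circ} (h : ZeroBoxDim A) :
    ZeroBoxDim {z | ∃ x ∈ A, ∃ y ∈ A, z = x - y} := by
  classical
  intro δ hδ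
  obtain ⟨r₀, hr₀, H⟩ := h (δ / 4) (by positivity)
  refine ⟨min r₀ (1 / 4), by positivity, fun r hr hr' S hSA hSsep => ?_⟩
  have hr1 : r < r₀ := hr'.trans_le (min_le_left _ _)
  have hr2 : r < 1 / 4 := hr'.trans_le (min_le_right _ _)
  -- a maximal separated set
  set 𝒞 : Set ℕ := {n | ∃ M : Finset Circ, (M : Set Circ) ⊆ A ∧
    (∀ x ∈ M, ∀ y ∈ M, x ≠ y → r / 4 ≤ dist x y) ∧ M.card = n} with h𝒞
  have hbdd : BddAbove 𝒞 := by
    refine ⟨⌈(r / 4) ^ (-(δ / 4))⌉₊, ?_⟩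
    rintro n ⟨M, hM, hMs, rfl⟩
    have h1 := H (r / 4) (by positivity) (by linarith) M hM hMs
    exact_mod_cast h1.trans (Nat.le_ceil _)
  have hne : 𝒞.Nonempty := ⟨0, ∅, by simp, by simp, rfl⟩
  obtain ⟨M, hMA, hMs, hMc⟩ := Nat.sSup_mem hne hbdd
  have hcov : ∀ a ∈ A, ∃ m ∈ M, dist a m < r / 4 := by
    intro a ha
    by_contra hcon
    push Not at hcon
    have haM : a ∉ M := by
      intro h1
      have := hcon a h1
      rw [dist_self] at this
      linarith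
    have h1 : M.card + 1 ∈ 𝒞 := by
      refine ⟨insert a M, ?_, ?_, Finset.card_insert_of_notMem haM⟩
      · rw [Finset.coe_insert]
        exact insert_subset ha hMA
      · intro x hx y hy hne
        rw [Finset.mem_insert] at hx hy
        rcases hx with rfl | hx <;> rcases hy with rfl | hy
        · exact absurd rfl hne
        · exact hcon y hy
        · rw [dist_comm]; exact hcon x hx
        · exact hMs x hx y hy hne
    have h2 := le_csSup hbdd h1
    omega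
  have hch : ∀ s ∈ S, ∃ m : Circ × Circ, m ∈ M ×ˢ M ∧ ∃ a b : Circ, s = a - b ∧
      dist a m.1 < r / 4 ∧ dist b m.2 < r / 4 := by
    intro s hs
    obtain ⟨a, ha, b, hb, rfl⟩ := hSA hs
    obtain ⟨m, hm, hm'⟩ := hcov a ha
    obtain ⟨n, hn, hn'⟩ := hcov b hb
    exact ⟨(m, n), Finset.mem_product.2 ⟨hm, hn⟩, a, b, rfl, hm', hn'⟩
  choose! f hfM hf using hch
  have hinj : Set.InjOn f (S : Set Circ) := by
    intro s hs s' hs' hss
    by_contra hne
    obtain ⟨a, b, h1, h2, h3⟩ := hf s hs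
    obtain ⟨a', b', h1', h2', h3'⟩ := hf s' hs'
    have h4 := hSsep s hs s' hs' hne
    rw [← hss] at h2' h3'
    have h5 : dist a a' < r / 4 + r / 4 :=
      (dist_triangle_right a a' (f s).1).trans_lt (add_lt_add h2 h2')
    have h6 : dist b b' < r / 4 + r / 4 :=
      (dist_triangle_right b b' (f s).2).trans_lt (add_lt_add h3 h3')
    have h7 : dist s s' ≤ dist a a' + dist b b' := by
      rw [h1, h1']
      exact dist_sub_sub_le _ _ _ _
    linarith
  have hcard : S.card ≤ M.card * M.card := by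
    rw [← Finset.card_product]
    exact Finset.card_le_card_of_injOn f hfM hinj
  have hMle := H (r / 4) (by positivity) (by linarith) M hMA hMs
  have h1 : (r / 4) ^ (-(δ / 4)) ≤ (r ^ 2) ^ (-(δ / 4)) := by
    refine Real.rpow_le_rpow_of_nonpos (by positivity) ?_ (by linarith)
    nlinarith
  have h2 : (r ^ 2) ^ (-(δ / 4)) * (r ^ 2) ^ (-(δ / 4)) = r ^ (-δ) := by
    rw [← Real.rpow_add (by positivity), ← Real.rpow_natCast r 2, ← Real.rpow_mul hr.le]
    congr 1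
    push_cast
    ring
  calc (S.card : ℝ) ≤ M.card * M.card := by exact_mod_cast hcard
    _ ≤ (r ^ 2) ^ (-(δ / 4)) * (r ^ 2) ^ (-(δ / 4)) :=
        mul_le_mul (hMle.trans h1) (hMle.trans h1) (Nat.cast_nonneg _) (by positivity)
    _ = r ^ (-δ) := h2

lemma ZeroBoxDim.iterDiff {A : Set Circ} (h : ZeroBoxDim A) (j : ℕ) :
    ZeroBoxDim (iterDiff j A) := by
  induction j with
  | zero => exact h
  | succ j ih => exact ih.sub

/-- many scales give long chains -/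
lemma bigS_of_not {p : ℕ} (hp : 2 ≤ p) {A : Set Circ} (h : ¬ DensityZero (scales p A)) :
    ∃ k : ℕ, BigS (1 / ((k : ℝ) + 1)) p A := by
  classical
  have hp1 : (1 : ℝ) < p := by exact_mod_cast (by omega : 1 < p)
  have hp0 : (0 : ℝ) < p := by linarith
  have hy0 : 0 < 1 / (p : ℝ) := by positivity
  have hy1 : 1 / (p : ℝ) ≤ 1 := by rw [div_le_one hp0]; exact hp1.le
  unfold DensityZero at h
  push Not at h
  obtain ⟨δ, hδ, h⟩ := h
  obtain ⟨k, hk⟩ := exists_nat_gt (4 / δ)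
  have hk0 : (0 : ℝ) < (k : ℝ) + 1 := by positivity
  have hkδ : 1 / ((k : ℝ) + 1) ≤ δ / 4 := by
    rw [div_lt_iff₀ hδ] at hk
    rw [div_le_div_iff₀ hk0 (by norm_num)]
    nlinarith
  refine ⟨k, fun κ => frequently_atTop.2 fun m => ?_⟩
  obtain ⟨n₁, hn₁⟩ := exists_nat_ge (4 * (κ : ℝ) / δ)
  obtain ⟨n, hn, hcard⟩ := h (max m n₁)
  refine ⟨n, (le_max_left _ _).trans hn, ?_⟩
  have hfin : (scales p A ∩ Iio n).Finite := (finite_Iio n).inter_of_right _
  set L := hfin.toFinset with hL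
  have hLcard : (scales p A ∩ Iio n).ncard = L.card := ncard_eq_toFinset_card _ hfin
  rw [hLcard] at hcard
  obtain ⟨L', hL'L, hL'c, hL'sep⟩ := parity L
  have hκ : 4 * (κ : ℝ) ≤ δ * n := by
    have h1 : 4 * (κ : ℝ) / δ ≤ n := hn₁.trans (by exact_mod_cast (le_max_right _ _).trans hn)
    rw [div_le_iff₀ hδ] at h1
    linarith
  have hL'δ : δ * n / 2 ≤ L'.card := by
    have h1 : (L.card : ℝ) ≤ 2 * L'.card := by exact_mod_cast hL'c
    linarith
  have hn0 : (0 : ℝ) ≤ n := Nat.cast_nonneg n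
  have hκL : κ ≤ L'.card := by
    have h1 : (κ : ℝ) ≤ L'.card := by
      have : 0 ≤ (κ : ℝ) := Nat.cast_nonneg κ
      linarith
    exact_mod_cast h1
  refine ⟨L'.card - κ, ?_, ?_⟩
  · rw [Nat.cast_sub hκL]
    have h1 : 1 / ((k : ℝ) + 1) * n ≤ δ / 4 * n := by gcongr
    linarith
  · rw [Nat.sub_add_cancel hκL]
    have hex : ∀ m ∈ L', ∃ z ∈ A, (1 / (p : ℝ)) ^ (m + 1) < ‖z‖ ∧ ‖z‖ ≤ (1 / (p : ℝ)) ^ m := by
      intro m hm
      exact (hfin.mem_toFinset.1 (hL'L hm)).1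
    choose! z hzA hz1 hz2 using hex
    have hmem : ∀ i : Fin L'.card, L'.orderEmbOfFin rfl i ∈ L' := fun i =>
      L'.orderEmbOfFin_mem rfl i
    refine ⟨fun i => z (L'.orderEmbOfFin rfl i), fun i => hzA _ (hmem i), fun i => ?_,
      fun i j hij => ?_⟩
    · refine le_trans ?_ (hz1 _ (hmem i)).le
      refine pow_le_pow_of_le_one hy0.le hy1 ?_
      have := (hfin.mem_toFinset.1 (hL'L (hmem i))).2
      rw [mem_Iio] at this
      omega
    · have h1 : L'.orderEmbOfFin rfl i < L'.orderEmbOfFin rfl j :=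
        (L'.orderEmbOfFin rfl).strictMono hij
      have h2 := hL'sep _ (hmem j) _ (hmem i) h1
      simp only
      calc (p : ℝ) * ‖z (L'.orderEmbOfFin rfl j)‖
          ≤ p * (1 / (p : ℝ)) ^ (L'.orderEmbOfFin rfl j) := by
            gcongr
            exact hz2 _ (hmem j)
        _ ≤ p * (1 / (p : ℝ)) ^ (L'.orderEmbOfFin rfl i + 2) := by
            gcongr p * ?_
            exact pow_le_pow_of_le_one hy0.le hy1 h2
        _ = (1 / (p : ℝ)) ^ (L'.orderEmbOfFin rfl i + 1) := by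
            rw [pow_succ _ (L'.orderEmbOfFin rfl i + 1)]
            field_simp
        _ ≤ _ := (hz1 _ (hmem i)).le

variable {Ω : Type*} [MeasurableSpace Ω]

omit [MeasurableSpace Ω] in
lemma D_eq (F : Ω → Set Circ) (j : ℕ) (ω : Ω) :
    D (fun ω => iterDiff j (F ω)) 0 0 ω = iterDiff (j + 1) (F ω) := by
  have hL : L (fun ω => iterDiff j (F ω)) 0 0 ω = iterDiff j (F ω) := by
    ext y
    simp only [L, mem_ofPred_eq, smul_zero, add_zero]
    constructor
    · intro h; exact h 0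
    · intro h _; exact h
  ext z
  simp only [D, hL, mem_ofPred_eq]
  constructor
  · rintro ⟨y, hy, y', hy', rfl⟩
    exact ⟨y', hy', y, hy, rfl⟩
  · rintro ⟨x, hx, y, hy, rfl⟩
    exact ⟨y, hy, x, hx, rfl⟩

omit [MeasurableSpace Ω] in
lemma isClosed_iterDiff {F : Ω → Set Circ} (hF : ∀ ω, IsClosed (F ω)) (j : ℕ) :
    ∀ ω, IsClosed (iterDiff j (F ω)) := by
  induction j with
  | zero => exact hF
  | succ j ih =>
    intro ω
    rw [← D_eq]
    exact isClosed_D ih 0 0 ω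

lemma hit_iterDiff {F : Ω → Set Circ} (hF : ∀ ω, IsClosed (F ω)) (hm : Hit F) (j : ℕ) :
    Hit fun ω => iterDiff j (F ω) := by
  induction j with
  | zero => exact hm
  | succ j ih =>
    have h1 := hit_D (isClosed_iterDiff hF j) ih 0 0
    have h2 : (fun ω => iterDiff (j + 1) (F ω)) = D (fun ω => iterDiff j (F ω)) 0 0 := by
      ext1 ω
      exact (D_eq F j ω).symm
    rw [h2]
    exact h1

lemma smul_mem_iterDiff {k : ℕ} {A B : Set Circ} (h : ∀ x ∈ A, k • x ∈ B) (j : ℕ) :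
    ∀ x ∈ iterDiff j A, k • x ∈ iterDiff j B := by
  induction j with
  | zero => exact h
  | succ j ih =>
    rintro z ⟨x, hx, y, hy, rfl⟩
    exact ⟨_, ih x hx, _, ih y hy, by rw [smul_sub]⟩

/-- everywhere hypotheses -/
theorem scales_all {p q : ℕ} (hp : 2 ≤ p) (hq : 2 ≤ q) (h : MulIndep p q) {μ : Measure Ω}
    [IsProbabilityMeasure μ] {α β : Ω → Ω} (hα : MeasurePreserving α μ μ)
    (hβ : MeasurePreserving β μ μ) (hcomm : Function.Commute α β) {F : Ω → Set Circ}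
    (hF : ∀ ω, IsClosed (F ω)) (hm : Hit F) (hp' : ∀ ω, ∀ x ∈ F ω, p • x ∈ F (α ω))
    (hq' : ∀ ω, ∀ x ∈ F ω, q • x ∈ F (β ω)) :
    ∀ᵐ ω ∂μ, F ω = univ ∨ ∀ j : ℕ, ZeroBoxDim (iterDiff j (F ω)) ∧
      DensityZero (scales p (iterDiff j (F ω))) := by
  have h1 : ∀ᵐ ω ∂μ, ∀ j k : ℕ, BigS (1 / ((k : ℝ) + 1)) p (iterDiff j (F ω)) →
      iterDiff j (F ω) = univ := by
    rw [ae_all_iff]
    intro j
    rw [ae_all_iff]
    intro k
    exact bigS_univ hp hq h hα hβ hcomm (isClosed_iterDiff hF j) (hit_iterDiff hF hm j)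
      (fun ω => smul_mem_iterDiff (hp' ω) j) (fun ω => smul_mem_iterDiff (hq' ω) j)
      (by positivity)
  filter_upwards [h1, main_all hp hq h hα hβ hcomm hF hm hp' hq'] with ω h2 h3
  rcases h3 with h3 | h3
  · right
    intro j
    have h4 := h3.iterDiff j
    refine ⟨h4, ?_⟩
    by_contra h5
    obtain ⟨k, hk⟩ := bigS_of_not hp h5
    rw [h2 j k hk] at h4
    exact not_zeroBoxDim_univ h4
  · left; exact h3

/-- from hypotheses almost everywhere to hypotheses everywhere -/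
theorem ae_reduction {p q : ℕ} {μ : Measure Ω}
    [IsProbabilityMeasure μ] {α β : Ω → Ω} (hα : MeasurePreserving α μ μ)
    (hβ : MeasurePreserving β μ μ) (hcomm : Function.Commute α β) {F : Ω → Set Circ}
    (hF : ∀ ω, IsClosed (F ω)) (hm : Hit F) (hp' : ∀ᵐ ω ∂μ, ∀ x ∈ F ω, p • x ∈ F (α ω))
    (hq' : ∀ᵐ ω ∂μ, ∀ x ∈ F ω, q • x ∈ F (β ω)) {Q : Set Circ → Prop}
    (H : ∀ F' : Ω → Set Circ, (∀ ω, IsClosed (F' ω)) → Hit F' →
      (∀ ω, ∀ x ∈ F' ω, p • x ∈ F' (α ω)) → (∀ ω, ∀ x ∈ F' ω, q • x ∈ F' (β ω)) →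
      ∀ᵐ ω ∂μ, Q (F' ω)) : ∀ᵐ ω ∂μ, Q (F ω) := by
  classical
  have hcomm' : ∀ a b : ℕ, ∀ ω, α^[a] (β^[b] ω) = β^[b] (α^[a] ω) := fun a b ω =>
    (hcomm.iterate_iterate a b) ω
  obtain ⟨Z, hZsub, hZm, hZ0⟩ := exists_measurable_superset_of_null (ae_iff.1 (hp'.and hq'))
  set G : Set Ω := ⋂ i : ℕ, ⋂ j : ℕ, (fun ω => α^[i] (β^[j] ω)) ⁻¹' Zᶜ with hG
  have hGm : MeasurableSet G := MeasurableSet.iInter fun i => MeasurableSet.iInter fun j =>
    ((hα.iterate i).measurable.comp (hβ.iterate j).measurable) hZm.compl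
  have hGae : ∀ᵐ ω ∂μ, ω ∈ G := by
    have : ∀ᵐ ω ∂μ, ∀ i j : ℕ, α^[i] (β^[j] ω) ∈ Zᶜ := by
      rw [ae_all_iff]; intro i
      rw [ae_all_iff]; intro j
      have h0 : ∀ᵐ ω ∂μ, ω ∈ Zᶜ := by
        rw [ae_iff]; simpa using hZ0
      exact ((hα.iterate i).comp (hβ.iterate j)).quasiMeasurePreserving.ae h0
    filter_upwards [this] with ω hω
    rw [hG, mem_iInter₂]; exact hω
  have hGα : ∀ ω ∈ G, α ω ∈ G := by
    intro ω hω
    rw [hG, mem_iInter₂] at hω ⊢
    intro i j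
    have := hω (i + 1) j
    rw [mem_preimage, Function.iterate_succ_apply] at this
    rw [mem_preimage]
    have e : β^[j] (α ω) = α (β^[j] ω) := (hcomm' 1 j ω).symm
    rw [e]; exact this
  have hGβ : ∀ ω ∈ G, β ω ∈ G := by
    intro ω hω
    rw [hG, mem_iInter₂] at hω ⊢
    intro i j
    have := hω i (j + 1)
    rwa [mem_preimage, Function.iterate_succ_apply] at this
  have hGood : ∀ ω ∈ G, (∀ x ∈ F ω, p • x ∈ F (α ω)) ∧ ∀ x ∈ F ω, q • x ∈ F (β ω) := by
    intro ω hω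
    rw [hG, mem_iInter₂] at hω
    have h0 : ω ∉ Z := by simpa using hω 0 0
    by_contra hcon
    exact h0 (hZsub hcon)
  have key := H (fun ω => if ω ∈ G then F ω else ∅)
    (RF.closed_restrict hF) (RF.hit_restrict hm hGm) ?_ ?_
  · filter_upwards [key, hGae] with ω h1 h2
    simpa [h2] using h1
  · intro ω x hx
    by_cases hω : ω ∈ G
    · simp only [hω, if_true, hGα ω hω] at hx ⊢
      exact (hGood ω hω).1 x hx
    · simp [hω] at hx
  · intro ω x hx
    by_cases hω : ω ∈ G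
    · simp only [hω, if_true, hGβ ω hω] at hx ⊢
      exact (hGood ω hω).2 x hx
    · simp [hω] at hx

/-- **The distance scales of a random closed set over an arbitrary base.** -/
theorem scales_main {p q : ℕ} (hp : 2 ≤ p) (hq : 2 ≤ q) (h : MulIndep p q) {μ : Measure Ω}
    [IsProbabilityMeasure μ] {α β : Ω → Ω} (hα : MeasurePreserving α μ μ)
    (hβ : MeasurePreserving β μ μ) (hcomm : Function.Commute α β) {F : Ω → Set Circ}
    (hF : ∀ ω, IsClosed (F ω)) (hm : Hit F) (hp' : ∀ᵐ ω ∂μ, ∀ x ∈ F ω, p • x ∈ F (α ω))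
    (hq' : ∀ᵐ ω ∂μ, ∀ x ∈ F ω, q • x ∈ F (β ω)) :
    ∀ᵐ ω ∂μ, F ω = univ ∨ ∀ j : ℕ, ZeroBoxDim (iterDiff j (F ω)) ∧
      DensityZero (scales p (iterDiff j (F ω))) :=
  ae_reduction hα hβ hcomm hF hm hp' hq'
    (Q := fun A => A = univ ∨ ∀ j : ℕ, ZeroBoxDim (iterDiff j A) ∧
      DensityZero (scales p (iterDiff j A)))
    fun _ hF' hm' hpF hqF => scales_all hp hq h hα hβ hcomm hF' hm' hpF hqF

end Pool.Agent.Helper28K1.ZD
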