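import Mathlib
import Pool.Agent.Helper28K1.ZD.Diff

/-!
The closed supports of conditional distributions over a factor.
-/

set_option autoImplicit false

open MeasureTheory Filter Topology Set ProbabilityTheory

namespace Pool.Agent.Helper28K1.ZD

open Pool.Agent.H705R2 Pool.Agent.W765.Sta

/-- the closed support of the conditional distribution of `X` given the sigma-algebra `m` -/
def condSupp {Ω : Type*} (m : MeasurableSpace Ω) [mΩ : MeasurableSpace Ω] [StandardBorelSpace Ω]
    (P : Measure Ω) [IsFiniteMeasure P] (X : Ω → Circ) (ω : Ω) : Set Circ :=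
  {y | ∀ V : Set Circ, IsOpen V → y ∈ V → condExpKernel P m ω (X ⁻¹' V) ≠ 0}

variable {Ω : Type*} {m mΩ : MeasurableSpace Ω} [StandardBorelSpace Ω]

lemma integral_kernel (hm : m ≤ mΩ) {P : Measure Ω} [IsProbabilityMeasure P] {A B : Set Ω}
    (hA : MeasurableSet[m] A) (hB : MeasurableSet B) :
    ∫ ω in A, (condExpKernel P m ω).real B ∂P = P.real (A ∩ B) := by
  have h1 : ∫ ω in A, (condExpKernel P m ω).real B ∂P = ∫ ω in A, (P⟦B|m⟧) ω ∂P := by
    refine setIntegral_congr_ae (hm _ hA) ?_
    filter_upwards [condExpKernel_ae_eq_condExp hm hB] with ω hω _ using hω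
  rw [h1, setIntegral_condExp hm ((integrable_indicator_iff hB).2 (integrable_const _).integrableOn)
    hA, integral_indicator hB]
  simp only [integral_const, MeasurableSet.univ, measureReal_restrict_apply, univ_inter,
    smul_eq_mul, mul_one]
  rw [measureReal_restrict_apply hB, inter_comm]

/-- the conditional probability vanishes on a set of the factor iff the intersection is null -/
lemma kernel_zero (hm : m ≤ mΩ) {P : Measure Ω} [IsProbabilityMeasure P] {A B : Set Ω}
    (hA : MeasurableSet[m] A) (hB : MeasurableSet B) (h : P (A ∩ B) = 0) :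
    ∀ᵐ ω ∂P, ω ∈ A → condExpKernel P m ω B = 0 := by
  have h1 := integral_kernel hm (P := P) hA hB
  have h2 : P.real (A ∩ B) = 0 := by rw [measureReal_def, h]; rfl
  rw [h2] at h1
  have hmeas : Measurable fun ω => (condExpKernel P m ω).real B := by
    have h3 : Measurable[m] fun ω => condExpKernel P m ω B := measurable_condExpKernel hB
    exact (h3.mono hm le_rfl).ennreal_toReal
  have hint : Integrable (fun ω => (condExpKernel P m ω).real B) (P.restrict A) := by
    refine (integrable_const (1 : ℝ)).mono' hmeas.aestronglyMeasurable ?_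
    refine Eventually.of_forall fun ω => ?_
    rw [Real.norm_eq_abs, abs_of_nonneg measureReal_nonneg]
    exact measureReal_le_one
  have h4 := (integral_eq_zero_iff_of_nonneg_ae
    (Eventually.of_forall fun ω => measureReal_nonneg) hint).1 h1
  rw [Filter.EventuallyEq, ae_restrict_iff' (hm _ hA)] at h4
  filter_upwards [h4] with ω hω hA'
  have := hω hA'
  simp only [Pi.zero_apply] at this
  rwa [measureReal_eq_zero_iff] at this

/-- conditional supports are equivariant random closed sets -/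
theorem cond_props {p q : ℕ} {P : Measure Ω}
    [IsProbabilityMeasure P] {α β : Ω → Ω} (hα : MeasurePreserving α P P)
    (hβ : MeasurePreserving β P P) {X : Ω → Circ}
    (hX : Measurable X) (hXα : ∀ᵐ ω ∂P, X (α ω) = p • X ω) (hXβ : ∀ᵐ ω ∂P, X (β ω) = q • X ω)
    (hm : m ≤ mΩ) (hαm : Measurable[m, m] α) (hβm : Measurable[m, m] β) :
    (∀ ω, IsClosed (condSupp m P X ω)) ∧ Hit (condSupp m P X) ∧
      (∀ᵐ ω ∂P, ∀ x ∈ condSupp m P X ω, p • x ∈ condSupp m P X (α ω)) ∧
      ∀ᵐ ω ∂P, ∀ x ∈ condSupp m P X ω, q • x ∈ condSupp m P X (β ω) := by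
  obtain ⟨b, hbc, hbe, hb⟩ := TopologicalSpace.exists_countable_basis Circ
  have hF : ∀ ω, IsClosed (condSupp m P X ω) := by
    intro ω
    rw [← isOpen_compl_iff, isOpen_iff_mem_nhds]
    intro y hy
    simp only [condSupp, mem_compl_iff, mem_ofPred_eq, not_forall, not_not] at hy
    obtain ⟨V, hV, hyV, hω⟩ := hy
    refine mem_of_superset (hV.mem_nhds hyV) ?_
    intro z hz hzF
    exact hzF V hV hz hω
  have hhit : ∀ V : Set Circ, IsOpen V → ∀ ω, ((condSupp m P X ω ∩ V).Nonempty ↔
      condExpKernel P m ω (X ⁻¹' V) ≠ 0) := by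
    intro V hV ω
    constructor
    · rintro ⟨y, hy, hyV⟩
      exact hy V hV hyV
    · intro h0
      by_contra hcon
      apply h0
      have hcov : X ⁻¹' V ⊆ ⋃ W ∈ {W ∈ b | condExpKernel P m ω (X ⁻¹' W) = 0}, X ⁻¹' W := by
        intro ω' hω'
        have h1 : X ω' ∉ condSupp m P X ω := fun h2 => hcon ⟨_, h2, hω'⟩
        simp only [condSupp, mem_ofPred_eq, not_forall, not_not] at h1
        obtain ⟨U, hU, hXU, hU0⟩ := h1
        obtain ⟨W, hW, hXW, hWU⟩ := hb.exists_subset_of_mem_open hXU hU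
        rw [mem_iUnion₂]
        exact ⟨W, ⟨hW, measure_mono_null (preimage_mono hWU) hU0⟩, hXW⟩
      refine measure_mono_null hcov ?_
      exact (measure_biUnion_null_iff (hbc.mono fun W hW => hW.1)).2 fun W hW => hW.2
  have hH : Hit (condSupp m P X) := by
    intro V hV
    have : {ω | (condSupp m P X ω ∩ V).Nonempty} =
        (fun ω => condExpKernel P m ω (X ⁻¹' V)) ⁻¹' {0}ᶜ := by
      ext ω
      simp only [mem_ofPred_eq, hhit V hV ω, mem_preimage, mem_compl_iff, mem_singleton_iff, ne_eq]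
    rw [this]
    have h3 : Measurable[m] fun ω => condExpKernel P m ω (X ⁻¹' V) :=
      measurable_condExpKernel (hX hV.measurableSet)
    exact (h3.mono hm le_rfl) (measurableSet_singleton _).compl
  -- equivariance
  have key : ∀ (γ : Ω → Ω) (k : ℕ), MeasurePreserving γ P P → Measurable[m, m] γ →
      (∀ᵐ ω ∂P, X (γ ω) = k • X ω) →
      ∀ᵐ ω ∂P, ∀ x ∈ condSupp m P X ω, k • x ∈ condSupp m P X (γ ω) := by
    intro γ k hγ hγm hXγ
    have h1 : ∀ V ∈ b, ∀ W ∈ b, (∀ x ∈ V, k • x ∈ W) → ∀ᵐ ω ∂P,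
        condExpKernel P m (γ ω) (X ⁻¹' W) = 0 → condExpKernel P m ω (X ⁻¹' V) = 0 := by
      intro V hV W hW hVW
      have hWo := hb.isOpen hW
      have hVo := hb.isOpen hV
      set ZW : Set Ω := {ω | condExpKernel P m ω (X ⁻¹' W) = 0} with hZW
      have hZWm : MeasurableSet[m] ZW := by
        have h3 : Measurable[m] fun ω => condExpKernel P m ω (X ⁻¹' W) :=
          measurable_condExpKernel (hX hWo.measurableSet)
        exact h3 (measurableSet_singleton 0)
      have hZ0 : P (ZW ∩ X ⁻¹' W) = 0 := by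
        have h3 := integral_kernel hm (P := P) hZWm (hX hWo.measurableSet)
        have h4 : ∫ ω in ZW, (condExpKernel P m ω).real (X ⁻¹' W) ∂P = 0 := by
          refine setIntegral_eq_zero_of_forall_eq_zero fun ω hω => ?_
          have h5 : condExpKernel P m ω (X ⁻¹' W) = 0 := hω
          rw [measureReal_def, h5]; rfl
        rw [h4] at h3
        exact (measureReal_eq_zero_iff).1 h3.symm
      have hZ : MeasurableSet[m] (γ ⁻¹' ZW) := hγm hZWm
      have h5 : P (γ ⁻¹' ZW ∩ X ⁻¹' V) = 0 := by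
        have h6 : P (γ ⁻¹' (ZW ∩ X ⁻¹' W)) = 0 := hγ.quasiMeasurePreserving.preimage_null hZ0
        refine measure_mono_null (t := γ ⁻¹' (ZW ∩ X ⁻¹' W) ∪ {ω | ¬ X (γ ω) = k • X ω}) ?_
          (measure_union_null h6 (ae_iff.1 hXγ))
        rintro ω ⟨h7, h8⟩
        by_cases h9 : X (γ ω) = k • X ω
        · left
          refine ⟨h7, ?_⟩
          simp only [mem_preimage, h9]
          exact hVW _ h8
        · right; exact h9
      filter_upwards [kernel_zero hm hZ (hX hVo.measurableSet) h5] with ω hω h10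
      exact hω h10
    have h2 : ∀ᵐ ω ∂P, ∀ V ∈ b, ∀ W ∈ b, (∀ x ∈ V, k • x ∈ W) →
        condExpKernel P m (γ ω) (X ⁻¹' W) = 0 → condExpKernel P m ω (X ⁻¹' V) = 0 := by
      rw [ae_ball_iff hbc]
      intro V hV
      rw [ae_ball_iff hbc]
      intro W hW
      by_cases hVW : ∀ x ∈ V, k • x ∈ W
      · filter_upwards [h1 V hV W hW hVW] with ω hω _ using hω
      · exact Eventually.of_forall fun ω h3 => absurd h3 hVW
    filter_upwards [h2] with ω hω x hx U hU hxU h0
    obtain ⟨W, hW, hxW, hWU⟩ := hb.exists_subset_of_mem_open hxU hU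
    obtain ⟨V, hV, hxV, hVW⟩ := hb.exists_subset_of_mem_open (a := x)
      (u := (fun y : Circ => k • y) ⁻¹' W) hxW ((hb.isOpen hW).preimage (continuous_nsmul k))
    have h3 : condExpKernel P m (γ ω) (X ⁻¹' W) = 0 := measure_mono_null (preimage_mono hWU) h0
    exact hx V (hb.isOpen hV) hxV (hω V hV W hW (fun y hy => hVW hy) h3)
  exact ⟨hF, hH, key α p hα hαm hXα, key β q hβ hβm hXβ⟩

/-- **Conditional supports over a factor.** -/
theorem cond_support {p q : ℕ} (hp : 2 ≤ p) (hq : 2 ≤ q) (h : MulIndep p q) {P : Measure Ω}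
    [IsProbabilityMeasure P] {α β : Ω → Ω} (hα : MeasurePreserving α P P)
    (hβ : MeasurePreserving β P P) (hcomm : Function.Commute α β) {X : Ω → Circ}
    (hX : Measurable X) (hXα : ∀ᵐ ω ∂P, X (α ω) = p • X ω) (hXβ : ∀ᵐ ω ∂P, X (β ω) = q • X ω)
    (hm : m ≤ mΩ) (hαm : Measurable[m, m] α) (hβm : Measurable[m, m] β) :
    ∀ᵐ ω ∂P, condSupp m P X ω = univ ∨ ∀ j : ℕ, ZeroBoxDim (iterDiff j (condSupp m P X ω)) ∧
      DensityZero (scales p (iterDiff j (condSupp m P X ω))) := by
  obtain ⟨h1, h2, h3, h4⟩ := cond_props hα hβ hX hXα hXβ hm hαm hβm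
  exact scales_main hp hq h hα hβ hcomm h1 h2 h3 h4

end Pool.Agent.Helper28K1.ZD
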