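import Mathlib
import Pool.Agent.Helper28K1.ZD.Diff
import Pool.Agent.W765.Sta4

/-!
Arbitrary sets of multipliers.
-/

set_option autoImplicit false

open MeasureTheory Filter Topology Set

namespace Pool.Agent.Helper28K1.ZD

open Pool.Agent.H705R2 Pool.Agent.W765.Sta

lemma smul_iterDiff {S : Set ℤ} {x : Circ} (j : ℕ) :
    ∀ n ∈ iterDiff j S, n • x ∈ iterDiff j ((fun n : ℤ => n • x) '' S) := by
  induction j with
  | zero => intro n hn; exact ⟨n, hn, rfl⟩
  | succ j ih =>
    rintro _ ⟨a, ha, b, hb, rfl⟩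
    exact ⟨_, ih a ha, _, ih b hb, by rw [sub_smul]⟩

/-- **Arbitrary sets of multipliers.** -/
theorem multipliers_scales {p q : ℕ} (hp : 2 ≤ p) (hq : 2 ≤ q) (h : MulIndep p q)
    {μ : Measure Circ} [IsProbabilityMeasure μ]
    (hα : MeasurePreserving (fun x : Circ => p • x) μ μ)
    (hβ : MeasurePreserving (fun x : Circ => q • x) μ μ) (S : Set ℤ) :
    ∀ᵐ x ∂μ, Dense ((fun n : ℤ => n • x) '' S) ∨ ∀ j : ℕ,
      ZeroBoxDim (closure ((fun n : ℤ => n • x) '' iterDiff j S)) ∧
      DensityZero (scales p (closure ((fun n : ℤ => n • x) '' iterDiff j S))) := by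
  have key := scales_main hp hq h hα hβ (fun x => by simp only; rw [smul_comm])
    (F := fun x => closure ((fun n : ℤ => n • x) '' S)) (fun x => isClosed_closure) ?_ ?_ ?_
  · filter_upwards [key] with x hx
    rcases hx with hx | hx
    · left; rw [dense_iff_closure_eq]; exact hx
    · right
      intro j
      have h1 : closure ((fun n : ℤ => n • x) '' iterDiff j S) ⊆
          iterDiff j (closure ((fun n : ℤ => n • x) '' S)) := by
        refine closure_minimal ?_
          (isClosed_iterDiff (F := fun _ : Unit => closure ((fun n : ℤ => n • x) '' S))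
            (fun _ => isClosed_closure) j ())
        rintro _ ⟨n, hn, rfl⟩
        exact iterDiff_mono subset_closure j (smul_iterDiff j n hn)
      exact ⟨(hx j).1.mono h1, (hx j).2.mono (scales_mono h1)⟩
  · intro V hV
    have : {x : Circ | (closure ((fun n : ℤ => n • x) '' S) ∩ V).Nonempty} =
        ⋃ n ∈ S, (fun x : Circ => n • x) ⁻¹' V := by
      ext x
      simp only [mem_ofPred_eq, mem_iUnion, mem_preimage]
      constructor
      · rintro ⟨y, hy, hyV⟩
        obtain ⟨_, h1, n, hn, rfl⟩ := mem_closure_iff.1 hy V hV hyV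
        exact ⟨n, hn, h1⟩
      · rintro ⟨n, hn, hn'⟩
        exact ⟨_, subset_closure ⟨n, hn, rfl⟩, hn'⟩
    rw [this]
    exact MeasurableSet.biUnion (Set.to_countable S) fun n _ =>
      (hV.preimage (continuous_zsmul n)).measurableSet
  · refine Eventually.of_forall fun x y hy => ?_
    refine map_mem_closure (continuous_nsmul p) hy ?_
    rintro _ ⟨n, hn, rfl⟩
    exact ⟨n, hn, by simp only; rw [smul_comm]⟩
  · refine Eventually.of_forall fun x y hy => ?_
    refine map_mem_closure (continuous_nsmul q) hy ?_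
    rintro _ ⟨n, hn, rfl⟩
    exact ⟨n, hn, by simp only; rw [smul_comm]⟩

/-- the smallest multiples of an irrational point are well separated infinitely often -/
lemma frequently_good {t : ℝ} (ht : Irrational t) :
    ∃ᶠ Q : ℕ in atTop, ∀ n : ℕ, 1 ≤ n → n ≤ Q → ∀ a : ℤ, 1 / (4 * (Q : ℝ)) ≤ |n * t - a| := by
  rw [frequently_atTop]
  intro Q₀
  by_contra hcon
  push Not at hcon
  set R := max Q₀ 1 with hR
  have hR1 : 1 ≤ R := le_max_right _ _
  have hex : ∀ k : ℕ, ∃ n : ℕ, ∃ a : ℤ, 1 ≤ n ∧ n ≤ 2 ^ k * R ∧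
      |n * t - a| < 1 / (4 * ((2 ^ k * R : ℕ) : ℝ)) := by
    intro k
    have h1 : Q₀ ≤ 2 ^ k * R := by
      calc Q₀ ≤ R := le_max_left _ _
        _ = 1 * R := (one_mul _).symm
        _ ≤ 2 ^ k * R := Nat.mul_le_mul_right _ Nat.one_le_two_pow
    obtain ⟨n, hn1, hn2, a, ha⟩ := hcon _ h1
    exact ⟨n, a, hn1, hn2, ha⟩
  choose n a hn1 hn2 ha using hex
  have hn0 : ∀ k, (0 : ℝ) < n k := fun k => by exact_mod_cast hn1 k
  have hQ0 : ∀ k, (0 : ℝ) < ((2 ^ k * R : ℕ) : ℝ) := fun k => by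
    have : 0 < 2 ^ k * R := by positivity
    exact_mod_cast this
  -- consecutive rationals agree
  have hstep : ∀ k, (n (k + 1) : ℤ) * a k = n k * a (k + 1) := by
    intro k
    have h1 : |((n (k + 1) : ℤ) * a k - n k * a (k + 1) : ℝ)| < 1 := by
      have e : ((n (k + 1) : ℤ) * a k - n k * a (k + 1) : ℝ) =
          n k * (n (k + 1) * t - a (k + 1)) - n (k + 1) * (n k * t - a k) := by
        push_cast; ring
      rw [e]
      refine (abs_sub _ _).trans_lt ?_
      rw [abs_mul, abs_mul, abs_of_pos (hn0 k), abs_of_pos (hn0 (k + 1))]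
      have h2 : (n k : ℝ) * |n (k + 1) * t - a (k + 1)| ≤ 1 / 4 := by
        have h3 : (n k : ℝ) ≤ ((2 ^ (k + 1) * R : ℕ) : ℝ) := by
          have h4 : 2 ^ k * R ≤ 2 ^ (k + 1) * R :=
            Nat.mul_le_mul_right _ (Nat.pow_le_pow_right (by norm_num) (by omega))
          exact_mod_cast (hn2 k).trans h4
        calc (n k : ℝ) * |n (k + 1) * t - a (k + 1)|
            ≤ ((2 ^ (k + 1) * R : ℕ) : ℝ) * (1 / (4 * ((2 ^ (k + 1) * R : ℕ) : ℝ))) := by
              gcongr
              exact (ha (k + 1)).le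
          _ = 1 / 4 := by
              have := hQ0 (k + 1)
              field_simp
      have h3 : (n (k + 1) : ℝ) * |n k * t - a k| ≤ 1 / 2 := by
        have h4 : (n (k + 1) : ℝ) ≤ 2 * ((2 ^ k * R : ℕ) : ℝ) := by
          have h5 : n (k + 1) ≤ 2 * (2 ^ k * R) := by
            have := hn2 (k + 1)
            rw [pow_succ'] at this
            linarith
          exact_mod_cast h5
        calc (n (k + 1) : ℝ) * |n k * t - a k|
            ≤ (2 * ((2 ^ k * R : ℕ) : ℝ)) * (1 / (4 * ((2 ^ k * R : ℕ) : ℝ))) := by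
              gcongr
              exact (ha k).le
          _ = 1 / 2 := by
              have := hQ0 k
              field_simp
              norm_num
      linarith
    have h2 : |(n (k + 1) : ℤ) * a k - n k * a (k + 1)| < 1 := by exact_mod_cast h1
    have h3 := Int.abs_lt_one_iff.1 h2
    linarith
  have hconst : ∀ k, (a k : ℝ) / n k = a 0 / n 0 := by
    intro k
    induction k with
    | zero => rfl
    | succ k ih =>
      rw [← ih, div_eq_div_iff (hn0 _).ne' (hn0 _).ne']
      have := hstep k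
      have h2 : ((n (k + 1) : ℤ) : ℝ) * a k = (n k : ℤ) * a (k + 1) := by exact_mod_cast this
      push_cast at h2
      linarith
  have hlim : ∀ k, |t - a 0 / n 0| ≤ (1 / 2 : ℝ) ^ k := by
    intro k
    rw [← hconst k]
    have h1 : t - a k / n k = (n k * t - a k) / n k := by
      have := (hn0 k).ne'
      field_simp
    rw [h1, abs_div, abs_of_pos (hn0 k)]
    have h2 : |n k * t - a k| / n k ≤ |n k * t - a k| := by
      refine div_le_self (abs_nonneg _) ?_
      exact_mod_cast hn1 k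
    refine h2.trans ((ha k).le.trans ?_)
    rw [one_div_pow]
    have h3 : (2 : ℝ) ^ k ≤ 4 * ((2 ^ k * R : ℕ) : ℝ) := by
      have h4 : (1 : ℝ) ≤ R := by exact_mod_cast hR1
      push_cast
      nlinarith [pow_pos (by norm_num : (0 : ℝ) < 2) k]
    exact one_div_le_one_div_of_le (by positivity) h3
  have h0 : |t - a 0 / n 0| ≤ 0 := by
    have := tendsto_pow_atTop_nhds_zero_of_lt_one (r := (1 / 2 : ℝ)) (by norm_num) (by norm_num)
    exact ge_of_tendsto' this hlim
  have h1 : t = a 0 / n 0 := by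
    have := abs_nonpos_iff.1 h0
    linarith
  refine ht ⟨(a 0 : ℚ) / n 0, ?_⟩
  rw [h1]
  push_cast
  rfl

/-- lower polynomial growth -/
def PolyGrowth (S : Set ℤ) : Prop :=
  ∃ η : ℝ, 0 < η ∧ ∃ N₀ : ℕ, ∀ N : ℕ, N₀ ≤ N → (N : ℝ) ^ η ≤ ((S ∩ Icc (-(N : ℤ)) N).ncard : ℝ)

/-- sets of polynomial growth have images of positive dimension at every irrational point -/
lemma not_zeroBoxDim_of_growth {S : Set ℤ} (hS : PolyGrowth S) {t : ℝ} (ht : Irrational t) :
    ¬ ZeroBoxDim ((fun n : ℤ => n • (t : Circ)) '' S) := by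
  classical
  intro h
  obtain ⟨η, hη, N₀, hN₀⟩ := hS
  obtain ⟨r₀, hr₀, H⟩ := h (η / 2) (by positivity)
  obtain ⟨m₁, hm₁⟩ := exists_nat_gt (1 / (4 * r₀))
  obtain ⟨Q, hQ, hgood⟩ := frequently_atTop.1 (frequently_good ht) (max (max (4 * N₀ + 4) 65) m₁)
  have hQ1 : 4 * N₀ + 4 ≤ Q := ((le_max_left _ _).trans (le_max_left _ _)).trans hQ
  have hQ2 : 65 ≤ Q := ((le_max_right _ _).trans (le_max_left _ _)).trans hQ
  have hQ3 : m₁ ≤ Q := (le_max_right _ _).trans hQ
  have hQ0 : (0 : ℝ) < Q := by exact_mod_cast (by omega : 0 < Q)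
  set N := Q / 2 with hN
  have hNQ : 2 * N ≤ Q := by omega
  have hNQ4 : Q ≤ 4 * N := by omega
  set r : ℝ := 1 / (4 * Q) with hr
  have hr0 : 0 < r := by positivity
  have hrr : r < r₀ := by
    have h1 : 1 / (4 * r₀) < Q := hm₁.trans_le (by exact_mod_cast hQ3)
    rw [div_lt_iff₀ (by positivity)] at h1
    rw [hr, div_lt_iff₀ (by positivity)]
    linarith
  have hfin : (S ∩ Icc (-(N : ℤ)) N).Finite := (finite_Icc _ _).inter_of_right _
  have hcount := hN₀ N (by omega)
  rw [ncard_eq_toFinset_card _ hfin] at hcount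
  set X := hfin.toFinset with hX
  have hsep : ∀ m ∈ X, ∀ n ∈ X, m < n → r ≤ dist (m • (t : Circ)) (n • (t : Circ)) := by
    intro m hm n hn hmn
    have h1 := (hfin.mem_toFinset.1 hm).2
    have h2 := (hfin.mem_toFinset.1 hn).2
    rw [mem_Icc] at h1 h2
    obtain ⟨k, hk⟩ : ∃ k : ℕ, (k : ℤ) = n - m := ⟨(n - m).toNat, by omega⟩
    rw [dist_comm, dist_eq_norm, ← sub_smul, ← hk, natCast_zsmul, ← AddCircle.coe_nsmul,
      nsmul_eq_mul, AddCircle.norm_eq, inv_one, one_mul, mul_one]
    exact hgood k (by omega) (by omega) _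
  have hsep' : ∀ m ∈ X, ∀ n ∈ X, m ≠ n → r ≤ dist (m • (t : Circ)) (n • (t : Circ)) := by
    intro m hm n hn hne
    rcases lt_or_gt_of_ne hne with h1 | h1
    · exact hsep m hm n hn h1
    · rw [dist_comm]; exact hsep n hn m hm h1
  have hinj : Set.InjOn (fun n : ℤ => n • (t : Circ)) (X : Set ℤ) := by
    intro m hm n hn hmn
    by_contra hne
    have h1 := hsep' m hm n hn hne
    simp only at hmn
    rw [hmn, dist_self] at h1
    linarith
  have h1 := H r hr0 hrr (X.image fun n : ℤ => n • (t : Circ)) (by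
      intro y hy
      rw [Finset.mem_coe, Finset.mem_image] at hy
      obtain ⟨n, hn, rfl⟩ := hy
      exact ⟨n, (hfin.mem_toFinset.1 hn).1, rfl⟩) (by
      intro y hy z hz hne
      obtain ⟨m, hm, rfl⟩ := Finset.mem_image.1 hy
      obtain ⟨n, hn, rfl⟩ := Finset.mem_image.1 hz
      exact hsep' m hm n hn fun h2 => hne (by rw [h2]))
  rw [Finset.card_image_of_injOn hinj] at h1
  have hu : r ^ (-(η / 2)) = (4 * (Q : ℝ)) ^ (η / 2) := by
    rw [hr, one_div, Real.inv_rpow (by positivity), Real.rpow_neg (by positivity), inv_inv]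
  rw [hu] at h1
  have h2 : (4 * (Q : ℝ)) ^ (η / 2) < ((N : ℝ) ^ (2 : ℕ)) ^ (η / 2) := by
    refine Real.rpow_lt_rpow (by positivity) ?_ (by positivity)
    have h3 : (Q : ℝ) ≤ 2 * N + 1 := by exact_mod_cast (by omega : Q ≤ 2 * N + 1)
    have h4 : (32 : ℝ) ≤ N := by exact_mod_cast (by omega : 32 ≤ N)
    nlinarith
  have h3 : ((N : ℝ) ^ (2 : ℕ)) ^ (η / 2) = (N : ℝ) ^ η := by
    rw [← Real.rpow_natCast, ← Real.rpow_mul (Nat.cast_nonneg N)]
    congr 1
    push_cast
    ring
  linarith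

lemma exists_irrational {μ : Measure Circ} (hμ : ∀ x, μ {x} = 0) :
    ∀ᵐ x ∂μ, ∃ t : ℝ, Irrational t ∧ x = (t : Circ) := by
  have h1 : μ (range fun r : ℚ => (((r : ℝ)) : Circ)) = 0 := by
    have hc : (range fun r : ℚ => (((r : ℝ)) : Circ)).Countable := countable_range _
    rw [← biUnion_of_singleton (range fun r : ℚ => (((r : ℝ)) : Circ)),
      measure_biUnion_null_iff hc]
    exact fun x _ => hμ x
  filter_upwards [measure_eq_zero_iff_ae_notMem.1 h1] with x hx
  induction x using QuotientAddGroup.induction_on with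
  | H t =>
    refine ⟨t, ?_, rfl⟩
    rintro ⟨r, hr⟩
    exact hx ⟨r, by simp only [hr]⟩

/-- a multiple set is dense as soon as some iterated difference set has positive dimension -/
theorem dense_of_iterDiff {p q : ℕ} (hp : 2 ≤ p) (hq : 2 ≤ q) (h : MulIndep p q)
    {μ : Measure Circ} [IsProbabilityMeasure μ]
    (hα : MeasurePreserving (fun x : Circ => p • x) μ μ)
    (hβ : MeasurePreserving (fun x : Circ => q • x) μ μ) (S : Set ℤ) :
    ∀ᵐ x ∂μ, (∃ j : ℕ, Dense ((fun n : ℤ => n • x) '' iterDiff j S)) →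
      Dense ((fun n : ℤ => n • x) '' S) := by
  filter_upwards [multipliers_scales hp hq h hα hβ S] with x hx
  rintro ⟨j, hj⟩
  rcases hx with hx | hx
  · exact hx
  · have h1 := (hx j).1
    rw [hj.closure_eq] at h1
    exact absurd h1 not_zeroBoxDim_univ

/-- **Sets of polynomial growth.** -/
theorem dense_of_growth {p q : ℕ} (hp : 2 ≤ p) (hq : 2 ≤ q) (h : MulIndep p q)
    {μ : Measure Circ} [IsProbabilityMeasure μ] (hatom : ∀ x, μ {x} = 0)
    (hα : MeasurePreserving (fun x : Circ => p • x) μ μ)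
    (hβ : MeasurePreserving (fun x : Circ => q • x) μ μ) (S : Set ℤ) {j : ℕ}
    (hS : PolyGrowth (iterDiff j S)) :
    ∀ᵐ x ∂μ, Dense ((fun n : ℤ => n • x) '' S) := by
  filter_upwards [multipliers_scales hp hq h hα hβ S, exists_irrational hatom] with x hx hx'
  rcases hx with hx | hx
  · exact hx
  · obtain ⟨t, ht, rfl⟩ := hx'
    exact absurd ((hx j).1.mono subset_closure) (not_zeroBoxDim_of_growth hS ht)

/-- **Difference sets containing a geometric progression.** -/
theorem dense_of_powers {p q : ℕ} (hp : 2 ≤ p) (hq : 2 ≤ q) (h : MulIndep p q)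
    {μ : Measure Circ} [IsProbabilityMeasure μ] (hatom : ∀ x, μ {x} = 0)
    (hα : MeasurePreserving (fun x : Circ => p • x) μ μ)
    (hβ : MeasurePreserving (fun x : Circ => q • x) μ μ) (S : Set ℤ) {j : ℕ} {d : ℤ}
    (hd : d ≠ 0) (hS : ∀ i : ℕ, d * (p : ℤ) ^ i ∈ iterDiff j S) :
    ∀ᵐ x ∂μ, Dense ((fun n : ℤ => n • x) '' S) := by
  filter_upwards [dense_of_iterDiff hp hq h hα hβ S,
    Pool.Agent.W765.Sta.dense_orbit hp hq h hatom hβ] with x hx hx'
  refine hx ⟨j, ?_⟩
  have hsurj : Function.Surjective (fun y : Circ => d • y) := by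
    intro y
    induction y using QuotientAddGroup.induction_on with
    | H t =>
      refine ⟨((t / d : ℝ) : Circ), ?_⟩
      have hd' : (d : ℝ) ≠ 0 := by exact_mod_cast hd
      simp only
      rw [← AddCircle.coe_zsmul, zsmul_eq_mul, mul_div_cancel₀ _ hd']
  have h1 := hsurj.denseRange.dense_image (continuous_zsmul d) hx'
  refine h1.mono ?_
  rintro _ ⟨_, ⟨i, rfl⟩, rfl⟩
  refine ⟨_, hS i, ?_⟩
  simp only
  rw [mul_smul]
  congr 1

end Pool.Agent.Helper28K1.ZD
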