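import Mathlib
import Pool.Agent.Helper28K1.ZD.Diff

/-!
Single scales: the probability that a given scale occurs tends to zero.
-/

set_option autoImplicit false

open MeasureTheory Filter Topology Set

namespace Pool.Agent.Helper28K1.ZD

open Pool.Agent.H705R2 Pool.Agent.W765.Sta

variable {Ω : Type*} [MeasurableSpace Ω]

lemma measurable_scales {F : Ω → Set Circ} (hF : ∀ ω, IsClosed (F ω)) (hm : Hit F) (p m : ℕ) :
    MeasurableSet {ω | m ∈ scales p (F ω)} := by
  have heq : {ω | m ∈ scales p (F ω)} = ⋃ k : ℕ,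
      {ω | ∃ z ∈ {z : Circ | (1 / (p : ℝ)) ^ (m + 1) + 1 / ((k : ℝ) + 1) ≤ ‖z‖ ∧
        ‖z‖ ≤ (1 / (p : ℝ)) ^ m}, ∀ _ : Unit, z ∈ F ω} := by
    ext ω
    simp only [scales, mem_ofPred_eq, mem_iUnion]
    constructor
    · rintro ⟨z, hz, h1, h2⟩
      obtain ⟨k, hk⟩ := exists_nat_one_div_lt (sub_pos.2 h1)
      exact ⟨k, z, ⟨by linarith, h2⟩, fun _ => hz⟩
    · rintro ⟨k, z, ⟨h1, h2⟩, hz⟩
      refine ⟨z, hz (), ?_, h2⟩
      have : (0 : ℝ) < 1 / ((k : ℝ) + 1) := by positivity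
      linarith
  rw [heq]
  refine MeasurableSet.iUnion fun k => ?_
  refine measurable_exists hF hm ?_ (fun (_ : Unit) (z : Circ) => z) (fun _ => continuous_id)
  exact (isClosed_le continuous_const continuous_norm).inter
    (isClosed_le continuous_norm continuous_const)

/-- multiplication by `p` lowers the scale by one -/
lemma scale_step {p : ℕ} (hp : 2 ≤ p) {A B : Set Circ} (hAB : ∀ x ∈ A, p • x ∈ B) {m : ℕ}
    (hm : 1 ≤ m) (h : m + 1 ∈ scales p A) : m ∈ scales p B := by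
  obtain ⟨z, hz, h1, h2⟩ := h
  have hp2 : (2 : ℝ) ≤ p := by exact_mod_cast hp
  have hp0 : (0 : ℝ) < p := by linarith
  have e : ∀ k : ℕ, (p : ℝ) * (1 / (p : ℝ)) ^ (k + 1) = (1 / (p : ℝ)) ^ k := by
    intro k
    rw [pow_succ]
    field_simp
  have h3 : (p : ℝ) * ‖z‖ ≤ (1 / (p : ℝ)) ^ m := by
    rw [← e m]
    gcongr
  have h4 : (1 / (p : ℝ)) ^ m ≤ 1 / 2 := by
    calc (1 / (p : ℝ)) ^ m ≤ (1 / (p : ℝ)) ^ 1 :=
          pow_le_pow_of_le_one (by positivity) (by rw [div_le_one hp0]; linarith) hm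
      _ = 1 / (p : ℝ) := pow_one _
      _ ≤ 1 / 2 := one_div_le_one_div_of_le (by norm_num) hp2
  have h5 := norm_smul_small (h3.trans h4)
  refine ⟨p • z, hAB z hz, ?_, ?_⟩
  · rw [h5, ← e (m + 1)]
    gcongr
  · rw [h5]; exact h3

/-- a modification with the hypotheses everywhere -/
theorem exists_modification {p q : ℕ} {μ : Measure Ω}
    [IsProbabilityMeasure μ] {α β : Ω → Ω} (hα : MeasurePreserving α μ μ)
    (hβ : MeasurePreserving β μ μ) (hcomm : Function.Commute α β) {F : Ω → Set Circ}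
    (hF : ∀ ω, IsClosed (F ω)) (hm : Hit F) (hp' : ∀ᵐ ω ∂μ, ∀ x ∈ F ω, p • x ∈ F (α ω))
    (hq' : ∀ᵐ ω ∂μ, ∀ x ∈ F ω, q • x ∈ F (β ω)) :
    ∃ F' : Ω → Set Circ, (∀ ω, IsClosed (F' ω)) ∧ Hit F' ∧
      (∀ ω, ∀ x ∈ F' ω, p • x ∈ F' (α ω)) ∧ (∀ ω, ∀ x ∈ F' ω, q • x ∈ F' (β ω)) ∧
      ∀ᵐ ω ∂μ, F' ω = F ω := by
  classical
  have hcomm' : ∀ a b : ℕ, ∀ ω, α^[a] (β^[b] ω) = β^[b] (α^[a] ω) := fun a b ω =>
    (hcomm.iterate_iterate a b) ω
  obtain ⟨Z, hZsub, hZm, hZ0⟩ := exists_measurable_superset_of_null (ae_iff.1 (hp'.and hq'))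
  set G : Set Ω := ⋂ i : ℕ, ⋂ j : ℕ, (fun ω => α^[i] (β^[j] ω)) ⁻¹' Zᶜ with hG
  have hGm : MeasurableSet G := MeasurableSet.iInter fun i => MeasurableSet.iInter fun j =>
    ((hα.iterate i).measurable.comp (hβ.iterate j).measurable) hZm.compl
  have hGae : ∀ᵐ ω ∂μ, ω ∈ G := by
    have : ∀ᵐ ω ∂μ, ∀ i j : ℕ, α^[i] (β^[j] ω) ∈ Zᶜ := by
      rw [ae_all_iff]; intro i
      rw [ae_all_iff]; intro j
      have h0 : ∀ᵐ ω ∂μ, ω ∈ Zᶜ := by
        rw [ae_iff]; simpa using hZ0
      exact ((hα.iterate i).comp (hβ.iterate j)).quasiMeasurePreserving.ae h0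
    filter_upwards [this] with ω hω
    rw [hG, mem_iInter₂]; exact hω
  have hGα : ∀ ω ∈ G, α ω ∈ G := by
    intro ω hω
    rw [hG, mem_iInter₂] at hω ⊢
    intro i j
    have := hω (i + 1) j
    rw [mem_preimage, Function.iterate_succ_apply] at this
    rw [mem_preimage]
    have e : β^[j] (α ω) = α (β^[j] ω) := (hcomm' 1 j ω).symm
    rw [e]; exact this
  have hGβ : ∀ ω ∈ G, β ω ∈ G := by
    intro ω hω
    rw [hG, mem_iInter₂] at hω ⊢
    intro i j
    have := hω i (j + 1)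
    rwa [mem_preimage, Function.iterate_succ_apply] at this
  have hGood : ∀ ω ∈ G, (∀ x ∈ F ω, p • x ∈ F (α ω)) ∧ ∀ x ∈ F ω, q • x ∈ F (β ω) := by
    intro ω hω
    rw [hG, mem_iInter₂] at hω
    have h0 : ω ∉ Z := by simpa using hω 0 0
    by_contra hcon
    exact h0 (hZsub hcon)
  refine ⟨fun ω => if ω ∈ G then F ω else ∅, RF.closed_restrict hF, RF.hit_restrict hm hGm,
    ?_, ?_, ?_⟩
  · intro ω x hx
    by_cases hω : ω ∈ G
    · simp only [hω, if_true, hGα ω hω] at hx ⊢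
      exact (hGood ω hω).1 x hx
    · simp [hω] at hx
  · intro ω x hx
    by_cases hω : ω ∈ G
    · simp only [hω, if_true, hGβ ω hω] at hx ⊢
      exact (hGood ω hω).2 x hx
    · simp [hω] at hx
  · filter_upwards [hGae] with ω h1
    simp [h1]

/-- everywhere hypotheses -/
theorem prob_scales_all {p q : ℕ} (hp : 2 ≤ p) (hq : 2 ≤ q) (h : MulIndep p q) {μ : Measure Ω}
    [IsProbabilityMeasure μ] {α β : Ω → Ω} (hα : MeasurePreserving α μ μ)
    (hβ : MeasurePreserving β μ μ) (hcomm : Function.Commute α β) {F : Ω → Set Circ}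
    (hF : ∀ ω, IsClosed (F ω)) (hm : Hit F) (hp' : ∀ ω, ∀ x ∈ F ω, p • x ∈ F (α ω))
    (hq' : ∀ ω, ∀ x ∈ F ω, q • x ∈ F (β ω)) (j : ℕ) :
    Tendsto (fun m : ℕ => μ {ω | F ω ≠ univ ∧ m ∈ scales p (iterDiff j (F ω))}) atTop (𝓝 0) := by
  classical
  set E : ℕ → Set Ω := fun m => {ω | F ω ≠ univ ∧ m ∈ scales p (iterDiff j (F ω))} with hE
  have hEm : ∀ m, MeasurableSet (E m) := by
    intro m
    have h1 : MeasurableSet {ω | F ω = univ} := RF.measurable_univ' hF hm
    exact h1.compl.inter (measurable_scales (isClosed_iterDiff hF j) (hit_iterDiff hF hm j) p m)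
  have hstep : ∀ m, 1 ≤ m → μ.real (E (m + 1)) ≤ μ.real (E m) := by
    intro m hm1
    have hb := RF.univ_back hp hα hF hm hp'
    have h1 : μ (E (m + 1)) ≤ μ (α ⁻¹' E m) := by
      refine measure_mono_ae ?_
      filter_upwards [hb] with ω h2 h3
      obtain ⟨h4, h5⟩ := h3
      refine ⟨fun h6 => h4 (h2 1 h6), ?_⟩
      exact scale_step hp (smul_mem_iterDiff (hp' ω) j) hm1 h5
    rw [hα.measure_preimage (hEm m).nullMeasurableSet] at h1
    exact ENNReal.toReal_mono (measure_ne_top _ _) h1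
  have hanti : ∀ m n, 1 ≤ m → m ≤ n → μ.real (E n) ≤ μ.real (E m) := by
    intro m n hm1 hmn
    induction n, hmn using Nat.le_induction with
    | base => exact le_rfl
    | succ n hn ih => exact (hstep n (hm1.trans hn)).trans ih
  -- the averages
  set g : ℕ → Ω → ℝ := fun n ω => (∑ m ∈ Finset.range n, (E m).indicator (fun _ => (1 : ℝ)) ω) / n
    with hg
  have hsum : ∀ n ω, (∑ m ∈ Finset.range n, (E m).indicator (fun _ => (1 : ℝ)) ω) =
      (((Finset.range n).filter fun m => ω ∈ E m).card : ℝ) := by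
    intro n ω
    rw [Finset.card_filter]
    push_cast
    refine Finset.sum_congr rfl fun m _ => ?_
    by_cases h1 : ω ∈ E m
    · simp [h1]
    · simp [h1]
  have hg0 : ∀ n ω, 0 ≤ g n ω := by
    intro n ω
    simp only [hg, hsum]
    positivity
  have hg1 : ∀ n ω, g n ω ≤ 1 := by
    intro n ω
    simp only [hg, hsum]
    refine div_le_one_of_le₀ ?_ (Nat.cast_nonneg n)
    have h1 : ((Finset.range n).filter fun m => ω ∈ E m).card ≤ n := by
      have := Finset.card_filter_le (Finset.range n) fun m => ω ∈ E m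
      rwa [Finset.card_range] at this
    exact_mod_cast h1
  have hgm : ∀ n, Measurable (g n) := by
    intro n
    refine Measurable.div_const ?_ _
    exact Finset.measurable_fun_sum _ fun m _ => measurable_const.indicator (hEm m)
  have hlim : ∀ᵐ ω ∂μ, Tendsto (fun n => g n ω) atTop (𝓝 0) := by
    filter_upwards [scales_all hp hq h hα hβ hcomm hF hm hp' hq'] with ω hω
    by_cases hu : F ω = univ
    · have h1 : ∀ n, g n ω = 0 := by
        intro n
        simp only [hg]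
        rw [Finset.sum_eq_zero, zero_div]
        intro m _
        rw [indicator_of_notMem]
        exact fun h2 => h2.1 hu
      simp only [h1]
      exact tendsto_const_nhds
    · rcases hω with hω | hω
      · exact absurd hω hu
      have hd := (hω j).2
      rw [Metric.tendsto_atTop]
      intro ε hε
      obtain ⟨n₀, hn₀⟩ := hd (ε / 2) (by positivity)
      refine ⟨max n₀ 1, fun n hn => ?_⟩
      have hn1 : (0 : ℝ) < n := by
        exact_mod_cast lt_of_lt_of_le one_pos ((le_max_right n₀ 1).trans hn)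
      rw [Real.dist_0_eq_abs, abs_of_nonneg (hg0 n ω)]
      have h1 := hn₀ n ((le_max_left n₀ 1).trans hn)
      have h2 : ((Finset.range n).filter fun m => ω ∈ E m).card =
          (scales p (iterDiff j (F ω)) ∩ Iio n).ncard := by
        have h3 : (((Finset.range n).filter fun m => ω ∈ E m : Finset ℕ) : Set ℕ) =
            scales p (iterDiff j (F ω)) ∩ Iio n := by
          ext m
          simp only [hE, Finset.coe_filter, Finset.mem_range, mem_ofPred_eq, mem_inter_iff,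
            mem_Iio]
          constructor
          · rintro ⟨h4, -, h5⟩; exact ⟨h5, h4⟩
          · rintro ⟨h5, h4⟩; exact ⟨h4, hu, h5⟩
        rw [← h3, ncard_coe_finset]
      simp only [hg, hsum, h2]
      calc ((scales p (iterDiff j (F ω)) ∩ Iio n).ncard : ℝ) / n ≤ ε / 2 * n / n := by gcongr
        _ = ε / 2 := by field_simp
        _ < ε := by linarith
  have hint : Tendsto (fun n => ∫ ω, g n ω ∂μ) atTop (𝓝 0) := by
    have h1 := tendsto_integral_of_dominated_convergence (μ := μ) (F := g) (f := fun _ => (0 : ℝ))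
      (fun _ => (1 : ℝ)) (fun n => (hgm n).aestronglyMeasurable) (integrable_const _)
      (fun n => Eventually.of_forall fun ω => by
        rw [Real.norm_eq_abs, abs_of_nonneg (hg0 n ω)]; exact hg1 n ω) hlim
    simpa using h1
  have hval : ∀ n, ∫ ω, g n ω ∂μ = (∑ m ∈ Finset.range n, μ.real (E m)) / n := by
    intro n
    simp only [hg]
    rw [integral_div, integral_finsetSum]
    · congr 1
      refine Finset.sum_congr rfl fun m _ => ?_
      rw [integral_indicator (hEm m)]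
      simp
    · exact fun m _ => (integrable_const (1 : ℝ)).indicator (hEm m)
  have hle : ∀ n, μ.real (E (n + 1)) ≤ 2 * ∫ ω, g (n + 2) ω ∂μ := by
    intro n
    rw [hval]
    have h1 : (n + 1 : ℕ) * μ.real (E (n + 1)) ≤ ∑ m ∈ Finset.range (n + 2), μ.real (E m) := by
      rw [Finset.sum_range_succ']
      have h2 : ∑ m ∈ Finset.range (n + 1), μ.real (E (n + 1)) ≤
          ∑ m ∈ Finset.range (n + 1), μ.real (E (m + 1)) := by
        refine Finset.sum_le_sum fun m hm' => hanti _ _ (by omega) ?_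
        have := Finset.mem_range.1 hm'
        omega
      rw [Finset.sum_const, Finset.card_range, nsmul_eq_mul] at h2
      have h3 : 0 ≤ μ.real (E 0) := measureReal_nonneg
      linarith
    have hn2 : (0 : ℝ) < ((n + 2 : ℕ) : ℝ) := by positivity
    rw [mul_div_assoc', le_div_iff₀ hn2]
    have h4 : 0 ≤ μ.real (E (n + 1)) := measureReal_nonneg
    push_cast at h1 ⊢
    nlinarith [(Nat.cast_nonneg n : (0 : ℝ) ≤ n)]
  have hreal : Tendsto (fun n => μ.real (E (n + 1))) atTop (𝓝 0) := by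
    have h1 : Tendsto (fun n => 2 * ∫ ω, g (n + 2) ω ∂μ) atTop (𝓝 0) := by
      have := ((tendsto_add_atTop_iff_nat 2).2 hint).const_mul 2
      simpa using this
    exact squeeze_zero (fun n => measureReal_nonneg) hle h1
  have hreal' : Tendsto (fun n => μ.real (E n)) atTop (𝓝 0) := (tendsto_add_atTop_iff_nat 1).1 hreal
  have h2 : (fun n => μ (E n)) = fun n => ENNReal.ofReal (μ.real (E n)) := by
    ext1 n
    rw [measureReal_def, ENNReal.ofReal_toReal (measure_ne_top _ _)]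
  show Tendsto (fun m => μ (E m)) atTop (𝓝 0)
  rw [h2]
  have h3 := (ENNReal.continuous_ofReal.tendsto 0).comp hreal'
  rw [ENNReal.ofReal_zero] at h3
  exact h3

/-- **Single scales.** -/
theorem prob_scales {p q : ℕ} (hp : 2 ≤ p) (hq : 2 ≤ q) (h : MulIndep p q) {μ : Measure Ω}
    [IsProbabilityMeasure μ] {α β : Ω → Ω} (hα : MeasurePreserving α μ μ)
    (hβ : MeasurePreserving β μ μ) (hcomm : Function.Commute α β) {F : Ω → Set Circ}
    (hF : ∀ ω, IsClosed (F ω)) (hm : Hit F) (hp' : ∀ᵐ ω ∂μ, ∀ x ∈ F ω, p • x ∈ F (α ω))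
    (hq' : ∀ᵐ ω ∂μ, ∀ x ∈ F ω, q • x ∈ F (β ω)) (j : ℕ) :
    Tendsto (fun m : ℕ => μ {ω | F ω ≠ univ ∧ m ∈ scales p (iterDiff j (F ω))}) atTop (𝓝 0) := by
  obtain ⟨F', h1, h2, h3, h4, h5⟩ := exists_modification hα hβ hcomm hF hm hp' hq'
  refine (prob_scales_all hp hq h hα hβ hcomm h1 h2 h3 h4 j).congr fun m => ?_
  refine measure_congr ?_
  filter_upwards [h5] with ω hω
  refine propext ?_
  show (F' ω ≠ univ ∧ m ∈ scales p (iterDiff j (F' ω))) ↔
    (F ω ≠ univ ∧ m ∈ scales p (iterDiff j (F ω)))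
  rw [hω]

end Pool.Agent.Helper28K1.ZD
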