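import Mathlib
import Pool.Agent.Helper28K1.ZD.Prob

/-!
The uniform single scale theorem.
-/

set_option autoImplicit false

open MeasureTheory Filter Topology Set
open scoped ENNReal

universe u

namespace Pool.Agent.Helper28K1.ZD

open Pool.Agent.H705R2 Pool.Agent.W765.Sta

section

variable {Ω : Type*} [MeasurableSpace Ω]

/-- the frequency lemma for a fixed box; nothing needs to be measurable -/
lemma freq_det {μ : Measure Ω} [IsProbabilityMeasure μ] {α β : Ω → Ω}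
    (hα : MeasurePreserving α μ μ) (hβ : MeasurePreserving β μ μ) {G C : Set Ω} {N J : ℕ}
    (hN : 1 ≤ N) (hJ : 1 ≤ J) {c : ℝ}
    (h : ∀ ω ∈ C, ∃ T ⊆ Finset.range N ×ˢ Finset.range J, c * (N * J) ≤ T.card ∧
      ∀ z ∈ T, α^[z.1] (β^[z.2] ω) ∈ G) : ENNReal.ofReal c * μ C ≤ μ G := by
  classical
  set G' := toMeasurable μ G with hG'
  have hGG' : G ⊆ G' := subset_toMeasurable μ G
  have hG'm : MeasurableSet G' := measurableSet_toMeasurable μ G
  have hμG : μ G' = μ G := measure_toMeasurable G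
  set f : Ω → ℝ≥0∞ := fun ω => ∑ z ∈ Finset.range N ×ˢ Finset.range J,
    G'.indicator (fun _ => (1 : ℝ≥0∞)) (α^[z.1] (β^[z.2] ω)) with hf
  have hfm : ∀ z : ℕ × ℕ, Measurable fun ω =>
      G'.indicator (fun _ => (1 : ℝ≥0∞)) (α^[z.1] (β^[z.2] ω)) := fun z =>
    (measurable_const.indicator hG'm).comp
      ((hα.iterate z.1).measurable.comp (hβ.iterate z.2).measurable)
  have hint : ∫⁻ ω, f ω ∂μ = (N * J : ℕ) * μ G := by
    simp only [hf]
    rw [lintegral_finsetSum _ fun z _ => hfm z]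
    have h1 : ∀ z : ℕ × ℕ, ∫⁻ ω, G'.indicator (fun _ => (1 : ℝ≥0∞)) (α^[z.1] (β^[z.2] ω)) ∂μ =
        μ G := by
      intro z
      have hmp : MeasurePreserving (fun ω => α^[z.1] (β^[z.2] ω)) μ μ :=
        (hα.iterate z.1).comp (hβ.iterate z.2)
      have h2 := hmp.lintegral_comp (f := G'.indicator fun _ => (1 : ℝ≥0∞))
        (measurable_const.indicator hG'm)
      rw [h2, lintegral_indicator hG'm]
      simp [hμG]
    rw [Finset.sum_congr rfl fun z _ => h1 z, Finset.sum_const, Finset.card_product,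
      Finset.card_range, Finset.card_range, nsmul_eq_mul]
  have hNJ : (0 : ℝ) < (N : ℝ) * J := by positivity
  have hsub : C ⊆ {ω | ENNReal.ofReal (c * (N * J)) ≤ f ω} := by
    intro ω hω
    obtain ⟨T, hT, hTc, hTG⟩ := h ω hω
    have h1 : (T.card : ℝ≥0∞) ≤ f ω := by
      calc (T.card : ℝ≥0∞) = ∑ z ∈ T, G'.indicator (fun _ => (1 : ℝ≥0∞)) (α^[z.1] (β^[z.2] ω)) := by
            rw [Finset.sum_congr rfl fun z hz => indicator_of_mem (hGG' (hTG z hz)) _]
            simp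
        _ ≤ f ω := Finset.sum_le_sum_of_subset hT
    refine le_trans ?_ h1
    rw [← ENNReal.ofReal_natCast]
    exact ENNReal.ofReal_le_ofReal hTc
  have hmark := mul_meas_ge_le_lintegral (μ := μ)
    (show Measurable f from Finset.measurable_fun_sum _ fun z _ => hfm z)
    (ENNReal.ofReal (c * (N * J)))
  rw [hint] at hmark
  have h1 : ENNReal.ofReal (c * (N * J)) * μ C ≤ (N * J : ℕ) * μ G :=
    (mul_le_mul_right (measure_mono hsub) _).trans hmark
  have h2 : ENNReal.ofReal (c * (N * J)) = ((N * J : ℕ) : ℝ≥0∞) * ENNReal.ofReal c := by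
    rw [mul_comm c, ENNReal.ofReal_mul hNJ.le, ← ENNReal.ofReal_natCast]
    push_cast
    rfl
  rw [h2, mul_assoc] at h1
  have h3 : ((N * J : ℕ) : ℝ≥0∞) ≠ 0 := by
    have : N * J ≠ 0 := by positivity
    exact_mod_cast this
  exact (ENNReal.mul_le_mul_iff_right h3 (ENNReal.natCast_ne_top _)).1 h1

/-- Markov: if `m` events have probability at least `ε`, then with probability at least `ε / 2` at
least `ε m / 2` of them occur -/
lemma many_events {μ : Measure Ω} [IsProbabilityMeasure μ] {e : ℕ → Set Ω}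
    (he : ∀ m, MeasurableSet (e m)) {ε : ℝ} (hε : 0 < ε) {m : ℕ} (hm : 1 ≤ m)
    (h : ∀ k, 1 ≤ k → k ≤ m → ε ≤ μ.real (e k)) :
    ∃ C : Set Ω, ε / 2 ≤ μ.real C ∧ ∀ ω ∈ C, ∃ L : Finset ℕ, (∀ k ∈ L, k < m + 1) ∧
      ε / 2 * m ≤ L.card ∧ ∀ k ∈ L, ω ∈ e k := by
  classical
  set f : Ω → ℝ := fun ω => ∑ k ∈ Finset.Icc 1 m, (e k).indicator (fun _ => (1 : ℝ)) ω with hf
  have hm0 : (0 : ℝ) < m := by exact_mod_cast hm
  have hfint : Integrable f μ := integrable_finsetSum _ fun k _ =>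
    (integrable_const (1 : ℝ)).indicator (he k)
  have hfval : ∫ ω, f ω ∂μ = ∑ k ∈ Finset.Icc 1 m, μ.real (e k) := by
    simp only [hf]
    rw [integral_finsetSum _ fun k _ => (integrable_const (1 : ℝ)).indicator (he k)]
    refine Finset.sum_congr rfl fun k _ => ?_
    rw [integral_indicator (he k)]
    simp
  have hfm : Measurable f := Finset.measurable_fun_sum _ fun k _ =>
    measurable_const.indicator (he k)
  have hfle : ∀ ω, f ω ≤ m := by
    intro ω
    calc f ω ≤ ∑ _k ∈ Finset.Icc 1 m, (1 : ℝ) := by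
          refine Finset.sum_le_sum fun k _ => ?_
          by_cases h1 : ω ∈ e k
          · simp [h1]
          · simp [h1]
      _ = m := by simp
  set C : Set Ω := {ω | ε / 2 * m ≤ f ω} with hC
  have hCm : MeasurableSet C := measurableSet_le measurable_const hfm
  refine ⟨C, ?_, fun ω hω => ⟨(Finset.Icc 1 m).filter fun k => ω ∈ e k, ?_, ?_, ?_⟩⟩
  · have h1 : ε * m ≤ ∫ ω, f ω ∂μ := by
      rw [hfval]
      have h2 : ∑ _k ∈ Finset.Icc 1 m, ε ≤ ∑ k ∈ Finset.Icc 1 m, μ.real (e k) :=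
        Finset.sum_le_sum fun k hk => h k (Finset.mem_Icc.1 hk).1 (Finset.mem_Icc.1 hk).2
      rw [Finset.sum_const, Nat.card_Icc, nsmul_eq_mul] at h2
      have e1 : ((m + 1 - 1 : ℕ) : ℝ) = m := by norm_num
      rw [e1] at h2
      linarith
    have h2 : ∫ ω, f ω ∂μ ≤ ∫ ω, (C.indicator (fun _ => (m : ℝ)) ω + ε / 2 * m) ∂μ := by
      refine integral_mono hfint
        (((integrable_const _).indicator hCm).add (integrable_const _)) fun ω => ?_
      by_cases h3 : ω ∈ C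
      · simp only [h3, indicator_of_mem]
        have := hfle ω
        nlinarith
      · simp only [h3, not_false_eq_true, indicator_of_notMem, zero_add]
        rw [hC, mem_ofPred_eq, not_le] at h3
        exact h3.le
    rw [integral_add ((integrable_const _).indicator hCm) (integrable_const _),
      integral_indicator hCm] at h2
    simp only [integral_const, MeasurableSet.univ, measureReal_restrict_apply, univ_inter,
      smul_eq_mul, probReal_univ, one_mul] at h2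
    have h3 : ε * m ≤ μ.real C * m + ε / 2 * m := h1.trans h2
    have h4 : ε / 2 * m ≤ μ.real C * m := by linarith
    exact le_of_mul_le_mul_right h4 hm0
  · intro k hk
    have := (Finset.mem_Icc.1 (Finset.mem_filter.1 hk).1).2
    omega
  · have h1 : f ω = ((Finset.Icc 1 m).filter fun k => ω ∈ e k).card := by
      simp only [hf]
      rw [Finset.card_filter]
      push_cast
      refine Finset.sum_congr rfl fun k _ => ?_
      by_cases h2 : ω ∈ e k
      · simp [h2]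
      · simp [h2]
    rw [← h1]
    exact hω
  · intro k hk
    exact (Finset.mem_filter.1 hk).2

end

/-- equally spaced points -/
lemma spaced {N : ℕ} (hN : 1 ≤ N) : ∃ Y : Finset Circ, Y.card = N ∧
    ∀ x ∈ Y, ∀ y ∈ Y, x ≠ y → 1 / (N : ℝ) ≤ dist x y := by
  classical
  have hN0 : (0 : ℝ) < N := by exact_mod_cast hN
  have hdist : ∀ i < N, ∀ j < i, 1 / (N : ℝ) ≤
      dist (((i : ℝ) / N : ℝ) : Circ) (((j : ℝ) / N : ℝ) : Circ) := by
    intro i hi j hj
    rw [dist_eq_norm, ← AddCircle.coe_sub]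
    have e : (i : ℝ) / N - j / N = ((i - j : ℕ) : ℝ) / (N : ℕ) * 1 := by
      rw [Nat.cast_sub hj.le]
      ring
    rw [e]
    have h1 := AddCircle.norm_div_natCast (p := (1 : ℝ)) (m := i - j) (n := N)
    rw [h1, one_mul]
    have h2 : 1 ≤ min ((i - j) % N) (N - (i - j) % N) := by
      rw [Nat.mod_eq_of_lt (by omega)]
      omega
    have h3 : (1 : ℝ) ≤ (min ((i - j) % N) (N - (i - j) % N) : ℕ) := by exact_mod_cast h2
    gcongr
  have hdist' : ∀ i < N, ∀ j < N, i ≠ j → 1 / (N : ℝ) ≤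
      dist (((i : ℝ) / N : ℝ) : Circ) (((j : ℝ) / N : ℝ) : Circ) := by
    intro i hi j hj hij
    rcases lt_or_gt_of_ne hij with h1 | h1
    · rw [dist_comm]; exact hdist j hj i h1
    · exact hdist i hi j h1
  have hinj : Set.InjOn (fun i : ℕ => (((i : ℝ) / N : ℝ) : Circ)) (Finset.range N : Set ℕ) := by
    intro i hi j hj hij
    by_contra hne
    rw [Finset.mem_coe, Finset.mem_range] at hi hj
    have h1 := hdist' i hi j hj hne
    simp only at hij
    rw [hij, dist_self] at h1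
    have : 0 < 1 / (N : ℝ) := by positivity
    linarith
  refine ⟨(Finset.range N).image fun i : ℕ => (((i : ℝ) / N : ℝ) : Circ), ?_, ?_⟩
  · rw [Finset.card_image_of_injOn hinj, Finset.card_range]
  · intro x hx y hy hne
    obtain ⟨i, hi, rfl⟩ := Finset.mem_image.1 hx
    obtain ⟨j, hj, rfl⟩ := Finset.mem_image.1 hy
    exact hdist' i (Finset.mem_range.1 hi) j (Finset.mem_range.1 hj) fun h2 => hne (by rw [h2])

/-- a finite maximal separated subset -/
lemma exists_maximal {A : Set Circ} {r : ℝ} (hr : 0 < r) : ∃ M : Finset Circ, (M : Set Circ) ⊆ A ∧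
    (∀ x ∈ M, ∀ y ∈ M, x ≠ y → r ≤ dist x y) ∧ ∀ a ∈ A, ∃ m ∈ M, dist a m < r := by
  classical
  -- a bound for the size of separated sets
  obtain ⟨t, htfin, hcov⟩ := Metric.totallyBounded_iff.1
    (isCompact_univ (X := Circ)).totallyBounded (r / 2) (by positivity)
  lift t to Finset Circ using htfin
  have hch : ∀ y : Circ, ∃ z ∈ t, dist y z < r / 2 := by
    intro y
    obtain ⟨z, hz, hyz⟩ := mem_iUnion₂.1 (hcov (mem_univ y))
    exact ⟨z, hz, hyz⟩
  choose f hft hf using hch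
  set 𝒞 : Set ℕ := {n | ∃ M : Finset Circ, (M : Set Circ) ⊆ A ∧
    (∀ x ∈ M, ∀ y ∈ M, x ≠ y → r ≤ dist x y) ∧ M.card = n} with h𝒞
  have hbdd : BddAbove 𝒞 := by
    refine ⟨t.card, ?_⟩
    rintro n ⟨M, hM, hMs, rfl⟩
    refine Finset.card_le_card_of_injOn f (fun x _ => hft x) ?_
    intro x hx y hy hxy
    by_contra hne
    have h1 := hMs x hx y hy hne
    have h2 : dist x y < r / 2 + r / 2 := by
      refine (dist_triangle_right x y (f x)).trans_lt (add_lt_add (hf x) ?_)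
      rw [hxy]; exact hf y
    linarith
  have hne : 𝒞.Nonempty := ⟨0, ∅, by simp, by simp, rfl⟩
  obtain ⟨M, hMA, hMs, hMc⟩ := Nat.sSup_mem hne hbdd
  refine ⟨M, hMA, hMs, fun a ha => ?_⟩
  by_contra hcon
  push Not at hcon
  have haM : a ∉ M := by
    intro h1
    have := hcon a h1
    rw [dist_self] at this
    linarith
  have h1 : M.card + 1 ∈ 𝒞 := by
    refine ⟨insert a M, ?_, ?_, Finset.card_insert_of_notMem haM⟩
    · rw [Finset.coe_insert]
      exact insert_subset ha hMA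
    · intro x hx y hy hne
      rw [Finset.mem_insert] at hx hy
      rcases hx with rfl | hx <;> rcases hy with rfl | hy
      · exact absurd rfl hne
      · exact hcon y hy
      · rw [dist_comm]; exact hcon x hx
      · exact hMs x hx y hy hne
  have h2 := le_csSup hbdd h1
  omega

/-- if the difference set of `A` is dense at a small scale, `A` has many separated points -/
lemma sep_of_dense {P n : ℕ} (hP : 64 ≤ P) (hn : 2 ≤ n) {A : Set Circ}
    (h : EpsDense ((1 / (P : ℝ)) ^ n) (iterDiff 1 A)) :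
    ∃ X : Finset Circ, (X : Set Circ) ⊆ A ∧ 4 ^ n ≤ X.card ∧
      ∀ x ∈ X, ∀ y ∈ X, x ≠ y → (1 / (P : ℝ)) ^ n ≤ dist x y := by
  classical
  have hP0 : (0 : ℝ) < P := by
    have : (64 : ℝ) ≤ P := by exact_mod_cast hP
    linarith
  set r : ℝ := (1 / (P : ℝ)) ^ n with hr
  have hr0 : 0 < r := by positivity
  obtain ⟨M, hMA, hMs, hMc⟩ := exists_maximal (A := A) hr0
  refine ⟨M, hMA, ?_, hMs⟩
  -- a set of points at mutual distance larger than `6 r`
  have hPn : (7 : ℝ) * (16 ^ n) ≤ (P : ℝ) ^ n := by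
    have h1 : (64 : ℝ) ^ n ≤ (P : ℝ) ^ n := by
      gcongr
      exact_mod_cast hP
    have h2 : (64 : ℝ) ^ n = 4 ^ n * 16 ^ n := by rw [← mul_pow]; norm_num
    have h3 : (16 : ℝ) ≤ 4 ^ n := by
      calc (16 : ℝ) = 4 ^ 2 := by norm_num
        _ ≤ 4 ^ n := pow_le_pow_right₀ (by norm_num) hn
    have h4 : (0 : ℝ) < 16 ^ n := by positivity
    nlinarith
  obtain ⟨Y, hYc, hYs⟩ := spaced (N := 16 ^ n) (Nat.one_le_pow _ _ (by norm_num))
  have hsp : 6 * r < 1 / ((16 ^ n : ℕ) : ℝ) := by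
    push_cast
    rw [hr, one_div_pow, lt_div_iff₀ (by positivity), mul_one_div, div_mul_eq_mul_div,
      div_lt_one (by positivity)]
    have h4 : (0 : ℝ) < 16 ^ n := by positivity
    linarith
  have hch : ∀ y ∈ Y, ∃ m : Circ × Circ, m ∈ M ×ˢ M ∧ dist y (m.1 - m.2) < 3 * r := by
    intro y _
    obtain ⟨x, hx, hxy⟩ := h y
    obtain ⟨a, ha, b, hb, rfl⟩ := hx
    obtain ⟨m, hm, hm'⟩ := hMc a ha
    obtain ⟨m2, hm2, hm2'⟩ := hMc b hb
    refine ⟨(m, m2), Finset.mem_product.2 ⟨hm, hm2⟩, ?_⟩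
    calc dist y (m - m2) ≤ dist y (a - b) + dist (a - b) (m - m2) := dist_triangle _ _ _
      _ ≤ dist y (a - b) + (dist a m + dist b m2) := by
          gcongr
          exact dist_sub_sub_le _ _ _ _
      _ < 3 * r := by
          rw [dist_comm] at hxy
          linarith
  choose! f hfM hf using hch
  have hinj : Set.InjOn f (Y : Set Circ) := by
    intro y hy z hz hyz
    by_contra hne
    have h1 := hYs y hy z hz hne
    have h2 : dist y z < 3 * r + 3 * r := by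
      refine (dist_triangle_right y z ((f y).1 - (f y).2)).trans_lt (add_lt_add (hf y hy) ?_)
      rw [hyz]; exact hf z hz
    linarith
  have hcard : 16 ^ n ≤ M.card * M.card := by
    rw [← hYc, ← Finset.card_product]
    exact Finset.card_le_card_of_injOn f hfM hinj
  by_contra hcon
  push Not at hcon
  have h1 : M.card * M.card < 4 ^ n * 4 ^ n := Nat.mul_lt_mul'' hcon hcon
  have h2 : (4 : ℕ) ^ n * 4 ^ n = 16 ^ n := by rw [← mul_pow]; norm_num
  omega

/-- the standing hypotheses, everywhere -/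
structure Equi (p q : ℕ) {Ω : Type u} [MeasurableSpace Ω] (μ : Measure Ω) (α β : Ω → Ω)
    (F : Ω → Set Circ) : Prop where
  prob : IsProbabilityMeasure μ
  mα : MeasurePreserving α μ μ
  mβ : MeasurePreserving β μ μ
  comm : Function.Commute α β
  closed : ∀ ω, IsClosed (F ω)
  hit : Hit F
  hp : ∀ ω, ∀ x ∈ F ω, p • x ∈ F (α ω)
  hq : ∀ ω, ∀ x ∈ F ω, q • x ∈ F (β ω)

lemma Equi.diff {p q : ℕ} {Ω : Type u} [MeasurableSpace Ω] {μ : Measure Ω} {α β : Ω → Ω}
    {F : Ω → Set Circ} (h : Equi p q μ α β F) (j : ℕ) :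
    Equi p q μ α β fun ω => iterDiff j (F ω) :=
  ⟨h.prob, h.mα, h.mβ, h.comm, isClosed_iterDiff h.closed j, hit_iterDiff h.closed h.hit j,
    fun ω => smul_mem_iterDiff (h.hp ω) j, fun ω => smul_mem_iterDiff (h.hq ω) j⟩

/-- from one scale to density -/
theorem shell_step {p q : ℕ} (hp : 2 ≤ p) (hq : 2 ≤ q) (h : MulIndep p q) {ε : ℝ} (hε : 0 < ε) :
    ∃ c : ℝ, 0 < c ∧ ∀ δ : ℝ, 0 < δ → ∃ m₀ : ℕ, ∀ (Ω : Type u) [MeasurableSpace Ω] (μ : Measure Ω)
      (α β : Ω → Ω) (F : Ω → Set Circ), Equi p q μ α β F → ∀ m : ℕ, m₀ ≤ m →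
        ENNReal.ofReal ε ≤ μ {ω | m ∈ scales p (F ω)} →
        ENNReal.ofReal c ≤ μ {ω | EpsDense δ (F ω)} := by
  have hp1 : (1 : ℝ) < p := by exact_mod_cast (by omega : 1 < p)
  have hp0 : (0 : ℝ) < p := by linarith
  obtain ⟨c, hc0, -, hc⟩ := many_dense_scales_unif hp hq h (γ₀ := ε / 4) (by positivity)
  refine ⟨c * (ε / 2), by positivity, fun δ hδ => ?_⟩
  obtain ⟨n₀, hn₀⟩ := hc δ hδ
  refine ⟨max n₀ 1, fun Ω _ μ α β F hF m hm hmε => ?_⟩
  have := hF.prob
  have hm1 : 1 ≤ m := (le_max_right _ _).trans hm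
  have hmR : (1 : ℝ) ≤ m := by exact_mod_cast hm1
  set e : ℕ → Set Ω := fun k => {ω | k ∈ scales p (F ω)} with he
  have hem : ∀ k, MeasurableSet (e k) := fun k => measurable_scales hF.closed hF.hit p k
  have hstep : ∀ k, 1 ≤ k → μ.real (e (k + 1)) ≤ μ.real (e k) := by
    intro k hk
    have h1 : μ (e (k + 1)) ≤ μ (α ⁻¹' e k) :=
      measure_mono fun ω hω => scale_step hp (hF.hp ω) hk hω
    rw [hF.mα.measure_preimage (hem k).nullMeasurableSet] at h1
    exact ENNReal.toReal_mono (measure_ne_top _ _) h1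
  have hanti : ∀ k n, 1 ≤ k → k ≤ n → μ.real (e n) ≤ μ.real (e k) := by
    intro k n hk hkn
    induction n, hkn using Nat.le_induction with
    | base => exact le_rfl
    | succ n hn ih => exact (hstep n (hk.trans hn)).trans ih
  have hmε' : ε ≤ μ.real (e m) := by
    rw [measureReal_def]
    exact (ENNReal.ofReal_le_iff_le_toReal (measure_ne_top _ _)).1 hmε
  obtain ⟨C, hC, hCL⟩ := many_events (μ := μ) hem hε hm1
    (fun k hk hkm => hmε'.trans (hanti k m hk hkm))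
  obtain ⟨N, J, hN, hJ, H⟩ := hn₀ (m + 1) (by have := le_max_left n₀ 1; omega)
  have hcomm' : ∀ a b : ℕ, ∀ ω, α^[a] (β^[b] ω) = β^[b] (α^[a] ω) := fun a b ω =>
    (hF.comm.iterate_iterate a b) ω
  have hfreq := freq_det (μ := μ) hF.mα hF.mβ (G := {ω | EpsDense δ (F ω)}) (C := C) hN hJ
    (c := c) (by
      intro ω hω
      obtain ⟨L, hL1, hL2, hL3⟩ := hCL ω hω
      refine H (fun i j => F (α^[i] (β^[j] ω))) ?_ ?_ 0 L hL1 ?_ ?_
      · intro i j x hx
        have := hF.hp _ x hx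
        rwa [← Function.iterate_succ_apply' α] at this
      · intro i j x hx
        have := hF.hq _ x hx
        rwa [← (show α^[i] (β (β^[j] ω)) = β (α^[i] (β^[j] ω)) from
          hcomm' i 1 (β^[j] ω)), ← Function.iterate_succ_apply' β] at this
      · push_cast
        nlinarith
      · intro k hk
        obtain ⟨z, hz, h1, h2⟩ := hL3 k hk
        obtain ⟨r, hr, hrn⟩ := Pool.Agent.H847R3.XpXq.exists_rep_norm z
        refine ⟨r, ?_, ?_, ?_⟩
        · rw [hrn]
          rw [one_div, inv_pow] at h1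
          rwa [inv_lt_iff_one_lt_mul₀ (by positivity), mul_comm] at h1
        · rw [hrn]
          rw [one_div, inv_pow, ← one_div, le_div_iff₀ (by positivity)] at h2
          linarith
        · rw [zero_add, hr]
          exact hz)
  refine le_trans ?_ hfreq
  rw [ENNReal.ofReal_mul hc0.le]
  gcongr
  rw [ENNReal.ofReal_le_iff_le_toReal (measure_ne_top _ _)]
  exact hC

/-- from the difference set to the set -/
theorem diff_step {p q : ℕ} (hp : 2 ≤ p) (hq : 2 ≤ q) (h : MulIndep p q) :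
    ∃ c : ℝ, 0 < c ∧ ∀ δ : ℝ, 0 < δ → ∃ δ' : ℝ, 0 < δ' ∧ ∀ (Ω : Type u) [MeasurableSpace Ω]
      (μ : Measure Ω) (α β : Ω → Ω) (F : Ω → Set Circ), Equi p q μ α β F →
        ENNReal.ofReal c * μ {ω | EpsDense δ' (iterDiff 1 (F ω))} ≤
          μ {ω | EpsDense δ (F ω)} := by
  set P := p ^ 6 with hPd
  have hP64 : 64 ≤ P := by
    calc 64 = 2 ^ 6 := by norm_num
      _ ≤ p ^ 6 := Nat.pow_le_pow_left hp 6
  have hP : 2 ≤ P := by omega
  have h' : MulIndep P q := by
    simpa using RF.MulIndep.powpow h (i := 6) (j := 1) (by norm_num) one_pos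
  obtain ⟨c, hc0, -, hc⟩ := many_dense_unif hP hq h'
  refine ⟨c, hc0, fun δ hδ => ?_⟩
  obtain ⟨n₀, hn₀⟩ := hc δ hδ
  set n := max n₀ 2 with hn
  obtain ⟨N, J, hN, hJ, H⟩ := hn₀ n (le_max_left _ _)
  refine ⟨(1 / (P : ℝ)) ^ n, by positivity, fun Ω _ μ α β F hF => ?_⟩
  have := hF.prob
  have hcomm' : ∀ a b : ℕ, ∀ ω, α^[a] (β^[b] ω) = β^[b] (α^[a] ω) := fun a b ω =>
    (hF.comm.iterate_iterate a b) ω
  have hαk : ∀ ω, ∀ x ∈ F ω, P • x ∈ F (α^[6] ω) := iterate_mem hF.hp 6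
  refine freq_det (μ := μ) (hF.mα.iterate 6) hF.mβ hN hJ (c := c) ?_
  intro ω hω
  obtain ⟨X, hXA, hXc, hXs⟩ := sep_of_dense hP64 (le_max_right _ _) hω
  refine H (fun i j => F ((α^[6])^[i] (β^[j] ω))) ?_ ?_ X hXA hXc hXs
  · intro i j x hx
    have := hαk _ x hx
    rwa [← Function.iterate_succ_apply' (α^[6])] at this
  · intro i j x hx
    have := hF.hq _ x hx
    rw [← Function.iterate_mul] at this ⊢
    rwa [← (show α^[6 * i] (β (β^[j] ω)) = β (α^[6 * i] (β^[j] ω)) from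
      hcomm' (6 * i) 1 (β^[j] ω)), ← Function.iterate_succ_apply' β] at this

theorem diff_steps {p q : ℕ} (hp : 2 ≤ p) (hq : 2 ≤ q) (h : MulIndep p q) (j : ℕ) :
    ∃ c : ℝ, 0 < c ∧ ∀ δ : ℝ, 0 < δ → ∃ δ' : ℝ, 0 < δ' ∧ ∀ (Ω : Type u) [MeasurableSpace Ω]
      (μ : Measure Ω) (α β : Ω → Ω) (F : Ω → Set Circ), Equi p q μ α β F →
        ENNReal.ofReal c * μ {ω | EpsDense δ' (iterDiff j (F ω))} ≤
          μ {ω | EpsDense δ (F ω)} := by
  induction j with
  | zero =>
    refine ⟨1, one_pos, fun δ hδ => ⟨δ, hδ, fun Ω _ μ α β F hF => ?_⟩⟩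
    rw [ENNReal.ofReal_one, one_mul]
    exact le_rfl
  | succ j ih =>
    obtain ⟨c, hc0, hc⟩ := ih
    obtain ⟨c', hc0', hc'⟩ := diff_step.{u} hp hq h
    refine ⟨c * c', by positivity, fun δ hδ => ?_⟩
    obtain ⟨δ₁, hδ₁, h1⟩ := hc δ hδ
    obtain ⟨δ₂, hδ₂, h2⟩ := hc' δ₁ hδ₁
    refine ⟨δ₂, hδ₂, fun Ω _ μ α β F hF => ?_⟩
    have h3 := h1 Ω μ α β F hF
    have h4 := h2 Ω μ α β _ (hF.diff j)
    refine le_trans ?_ h3
    rw [ENNReal.ofReal_mul hc0.le, mul_assoc]
    gcongr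
    exact h4

/-- **The uniform single scale theorem.** -/
theorem uniform {p q : ℕ} (hp : 2 ≤ p) (hq : 2 ≤ q) (h : MulIndep p q) {ε : ℝ} (hε : 0 < ε)
    (j : ℕ) :
    ∃ c : ℝ, 0 < c ∧ ∀ δ : ℝ, 0 < δ → ∃ m₀ : ℕ, ∀ (Ω : Type u) [MeasurableSpace Ω] (μ : Measure Ω)
      [IsProbabilityMeasure μ] (α β : Ω → Ω), MeasurePreserving α μ μ → MeasurePreserving β μ μ →
        Function.Commute α β → ∀ F : Ω → Set Circ, (∀ ω, IsClosed (F ω)) → Hit F →
        (∀ᵐ ω ∂μ, ∀ x ∈ F ω, p • x ∈ F (α ω)) → (∀ᵐ ω ∂μ, ∀ x ∈ F ω, q • x ∈ F (β ω)) →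
        ∀ m : ℕ, m₀ ≤ m → ENNReal.ofReal ε ≤ μ {ω | m ∈ scales p (iterDiff j (F ω))} →
          ENNReal.ofReal c ≤ μ {ω | EpsDense δ (F ω)} := by
  obtain ⟨c₁, hc₁, H₁⟩ := shell_step.{u} hp hq h hε
  obtain ⟨c₂, hc₂, H₂⟩ := diff_steps.{u} hp hq h j
  refine ⟨c₂ * c₁, by positivity, fun δ hδ => ?_⟩
  obtain ⟨δ', hδ', H₃⟩ := H₂ δ hδ
  obtain ⟨m₀, hm₀⟩ := H₁ δ' hδ'
  refine ⟨m₀, fun Ω _ μ _ α β hα hβ hcomm F hF hm hp' hq' m hmm hmε => ?_⟩
  obtain ⟨F', h1, h2, h3, h4, h5⟩ := exists_modification hα hβ hcomm hF hm hp' hq'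
  have hE : Equi p q μ α β F' := ⟨inferInstance, hα, hβ, hcomm, h1, h2, h3, h4⟩
  have e1 : μ {ω | m ∈ scales p (iterDiff j (F ω))} =
      μ {ω | m ∈ scales p (iterDiff j (F' ω))} := by
    refine measure_congr ?_
    filter_upwards [h5] with ω hω
    refine propext ?_
    show m ∈ scales p (iterDiff j (F ω)) ↔ m ∈ scales p (iterDiff j (F' ω))
    rw [hω]
  have e2 : μ {ω | EpsDense δ (F ω)} = μ {ω | EpsDense δ (F' ω)} := by
    refine measure_congr ?_
    filter_upwards [h5] with ω hω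
    refine propext ?_
    show EpsDense δ (F ω) ↔ EpsDense δ (F' ω)
    rw [hω]
  rw [e2]
  rw [e1] at hmε
  have h6 := hm₀ Ω μ α β _ (hE.diff j) m hmm hmε
  refine le_trans ?_ (H₃ Ω μ α β F' hE)
  rw [ENNReal.ofReal_mul hc₂.le]
  gcongr

end Pool.Agent.Helper28K1.ZD
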