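import Mathlib
import Pool.Agent.Helper28K1.ZD.Unif
import Pool.Agent.Helper28K1.ZD.Mult

/-!
Sets of dilates: the uniform statement and the statement in probability.
-/

set_option autoImplicit false

open MeasureTheory Filter Topology Set
open scoped ENNReal

namespace Pool.Agent.Helper28K1.ZD

open Pool.Agent.H705R2 Pool.Agent.W765.Sta

/-- the random closed set `closure (S x)` -/
lemma dil_hit (S : Set ℤ) : Hit fun x : Circ => closure ((fun n : ℤ => n • x) '' S) := by
  intro V hV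
  have : {x : Circ | (closure ((fun n : ℤ => n • x) '' S) ∩ V).Nonempty} =
      ⋃ n ∈ S, (fun x : Circ => n • x) ⁻¹' V := by
    ext x
    simp only [mem_ofPred_eq, mem_iUnion, mem_preimage]
    constructor
    · rintro ⟨y, hy, hyV⟩
      obtain ⟨_, h1, n, hn, rfl⟩ := mem_closure_iff.1 hy V hV hyV
      exact ⟨n, hn, h1⟩
    · rintro ⟨n, hn, hn'⟩
      exact ⟨_, subset_closure ⟨n, hn, rfl⟩, hn'⟩
  rw [this]
  exact MeasurableSet.biUnion (Set.to_countable S) fun n _ =>
    (hV.preimage (continuous_zsmul n)).measurableSet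

lemma dil_smul (S : Set ℤ) (k : ℕ) (x : Circ) :
    ∀ y ∈ closure ((fun n : ℤ => n • x) '' S), k • y ∈
      closure ((fun n : ℤ => n • (k • x)) '' S) := by
  intro y hy
  refine map_mem_closure (continuous_nsmul k) hy ?_
  rintro _ ⟨n, hn, rfl⟩
  exact ⟨n, hn, by simp only; rw [smul_comm]⟩

lemma dil_diff (S : Set ℤ) (j : ℕ) (x : Circ) :
    closure ((fun n : ℤ => n • x) '' iterDiff j S) ⊆
      iterDiff j (closure ((fun n : ℤ => n • x) '' S)) := by
  refine closure_minimal ?_
    (isClosed_iterDiff (F := fun _ : Unit => closure ((fun n : ℤ => n • x) '' S))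
      (fun _ => isClosed_closure) j ())
  rintro _ ⟨n, hn, rfl⟩
  exact iterDiff_mono subset_closure j (smul_iterDiff j n hn)

/-- **Uniform statement for dilates.** -/
theorem uniform_dilates {p q : ℕ} (hp : 2 ≤ p) (hq : 2 ≤ q) (h : MulIndep p q) {ε : ℝ}
    (hε : 0 < ε) (j : ℕ) :
    ∃ c : ℝ, 0 < c ∧ ∀ δ : ℝ, 0 < δ → ∃ m₀ : ℕ, ∀ (μ : Measure Circ) [IsProbabilityMeasure μ],
      MeasurePreserving (fun x : Circ => p • x) μ μ →
      MeasurePreserving (fun x : Circ => q • x) μ μ → ∀ S : Set ℤ, ∀ m : ℕ, m₀ ≤ m →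
        ENNReal.ofReal ε ≤ μ {x | m ∈ scales p ((fun n : ℤ => n • x) '' iterDiff j S)} →
          ENNReal.ofReal c ≤ μ {x | EpsDense δ ((fun n : ℤ => n • x) '' S)} := by
  obtain ⟨c, hc0, hc⟩ := uniform.{0} hp hq h hε j
  refine ⟨c, hc0, fun δ hδ => ?_⟩
  obtain ⟨m₀, hm₀⟩ := hc (δ / 2) (by positivity)
  refine ⟨m₀, fun μ _ hα hβ S m hm hmε => ?_⟩
  have h1 := hm₀ Circ μ _ _ hα hβ (fun x => by simp only; rw [smul_comm])
    (fun x => closure ((fun n : ℤ => n • x) '' S)) (fun _ => isClosed_closure) (dil_hit S)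
    (Eventually.of_forall fun x => dil_smul S p x) (Eventually.of_forall fun x => dil_smul S q x)
    m hm (hmε.trans (measure_mono fun x hx => scales_mono (subset_closure.trans (dil_diff S j x)) hx))
  refine h1.trans (measure_mono fun x hx y => ?_)
  obtain ⟨z, hz, hzy⟩ := hx y
  obtain ⟨w, hw, hwz⟩ := Metric.mem_closure_iff.1 hz (δ / 2) (by positivity)
  refine ⟨w, hw, ?_⟩
  rw [dist_comm] at hwz
  calc dist w y ≤ dist w z + dist z y := dist_triangle _ _ _
    _ < δ / 2 + δ / 2 := add_lt_add hwz hzy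
    _ = δ := by ring

/-- **Single scales for dilates.** -/
theorem prob_dilates {p q : ℕ} (hp : 2 ≤ p) (hq : 2 ≤ q) (h : MulIndep p q) {μ : Measure Circ}
    [IsProbabilityMeasure μ] (hα : MeasurePreserving (fun x : Circ => p • x) μ μ)
    (hβ : MeasurePreserving (fun x : Circ => q • x) μ μ) (S : Set ℤ) (j : ℕ) :
    Tendsto (fun m : ℕ => μ {x | ¬ Dense ((fun n : ℤ => n • x) '' S) ∧
      m ∈ scales p ((fun n : ℤ => n • x) '' iterDiff j S)}) atTop (𝓝 0) := by
  have h1 := prob_scales hp hq h hα hβ (fun x => by simp only; rw [smul_comm])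
    (F := fun x => closure ((fun n : ℤ => n • x) '' S)) (fun _ => isClosed_closure) (dil_hit S)
    (Eventually.of_forall fun x => dil_smul S p x) (Eventually.of_forall fun x => dil_smul S q x) j
  refine tendsto_of_tendsto_of_tendsto_of_le_of_le tendsto_const_nhds h1 (fun _ => zero_le)
    fun m => measure_mono ?_
  rintro x ⟨h2, h3⟩
  refine ⟨fun h4 => h2 ?_, scales_mono (subset_closure.trans (dil_diff S j x)) h3⟩
  rw [dense_iff_closure_eq]
  exact h4

end Pool.Agent.Helper28K1.ZD
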